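import Pool.Agent.Work.MP_1e087a_ag.F.Engine

set_option autoImplicit false

/-!
The engine, second part: every unit is reached.
-/

namespace Pool.Agent.Mukai.RF

open QuadraticAlgebra

variable {n B C : ℤ} {G : Ord n B C → Ord n B C → Prop}

/-! ### units of infinite order -/

/-- the real embedding of `2 x + B y + y √Δ` -/
noncomputable def rl (n B C : ℤ) (x : Ord n B C) : ℝ :=
  (2 * x.re + B * x.im + x.im * Real.sqrt ((B ^ 2 - 4 * n * C : ℤ) : ℝ)) / 2

lemma rl_mul (hΔ : 0 < B ^ 2 - 4 * n * C) (x y : Ord n B C) :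
    rl n B C (x * y) = rl n B C x * rl n B C y := by
  have h0 : (0 : ℝ) ≤ ((B ^ 2 - 4 * n * C : ℤ) : ℝ) := by exact_mod_cast hΔ.le
  have h1 := Real.mul_self_sqrt h0
  unfold rl
  generalize Real.sqrt ((B ^ 2 - 4 * n * C : ℤ) : ℝ) = s at *
  rw [re_mul, im_mul]
  push_cast at h1 ⊢
  linear_combination (-(x.im : ℝ) * y.im / 4) * h1

lemma rl_one : rl n B C 1 = 1 := by
  unfold rl
  simp

lemma rl_pow (hΔ : 0 < B ^ 2 - 4 * n * C) (x : Ord n B C) (i : ℕ) :
    rl n B C (x ^ i) = rl n B C x ^ i := by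
  induction i with
  | zero => rw [pow_zero, pow_zero, rl_one]
  | succ i ih => rw [pow_succ, pow_succ, rl_mul hΔ, ih]

lemma sqrt_irr (hΔs : ¬ IsSquare (B ^ 2 - 4 * n * C)) (hΔ : 0 < B ^ 2 - 4 * n * C) (a b : ℤ)
    (h : (a : ℝ) + b * Real.sqrt ((B ^ 2 - 4 * n * C : ℤ) : ℝ) = 0) : b = 0 := by
  by_contra hb
  have h0 : (0 : ℝ) ≤ ((B ^ 2 - 4 * n * C : ℤ) : ℝ) := by exact_mod_cast hΔ.le
  have h1 := Real.mul_self_sqrt h0
  generalize Real.sqrt ((B ^ 2 - 4 * n * C : ℤ) : ℝ) = s at *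
  apply hΔs
  have h2 : (a : ℝ) * a = b * b * ((B ^ 2 - 4 * n * C : ℤ) : ℝ) := by
    rw [← h1]
    linear_combination (a - b * s) * h
  have h3 : a * a = b * b * (B ^ 2 - 4 * n * C) := by exact_mod_cast h2
  have h4 : IsSquare (((B ^ 2 - 4 * n * C : ℤ)) : ℚ) := by
    refine ⟨a / b, ?_⟩
    have hb' : (b : ℚ) ≠ 0 := by exact_mod_cast hb
    rw [div_mul_div_comm, eq_div_iff (mul_ne_zero hb' hb')]
    have : ((a * a : ℤ) : ℚ) = ((b * b * (B ^ 2 - 4 * n * C) : ℤ) : ℚ) := by rw [h3]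
    push_cast at this ⊢
    linear_combination -this
  exact Rat.isSquare_intCast_iff.1 h4

/-- units with a nonzero irrational part have infinite order -/
theorem pow_ne_one (hΔs : ¬ IsSquare (B ^ 2 - 4 * n * C)) (hΔ : 0 < B ^ 2 - 4 * n * C)
    {u : Ord n B C} (him : u.im ≠ 0) {i : ℕ} (hi : i ≠ 0) :
    u ^ i ≠ 1 := by
  intro h
  have h1 := rl_pow hΔ u i
  rw [h, rl_one] at h1
  have h2 : |rl n B C u| = 1 := by
    have h3 : |rl n B C u| ^ i = 1 := by rw [← abs_pow, ← h1, abs_one]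
    exact (pow_eq_one_iff_of_nonneg (abs_nonneg _) hi).1 h3
  have h3 : rl n B C u = 1 ∨ rl n B C u = -1 := by
    rcases abs_eq (zero_le_one' ℝ) |>.1 h2 with h4 | h4
    · left; exact h4
    · right; exact h4
  apply him
  unfold rl at h3
  rcases h3 with h3 | h3
  · refine sqrt_irr hΔs hΔ (2 * u.re + B * u.im - 2) u.im ?_
    push_cast at h3 ⊢
    linarith
  · refine sqrt_irr hΔs hΔ (2 * u.re + B * u.im + 2) u.im ?_
    push_cast at h3 ⊢
    linarith

/-- a power of a unit is congruent to `1` modulo `n` -/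
lemma exists_pow_one (hn : n ≠ 0) {u : Ord n B C} (hu : norm u = 1) :
    ∃ (N : ℕ) (z : Ord n B C), N ≠ 0 ∧ u ^ N = 1 + (n : Ord n B C) * z := by
  -- two powers agree modulo `n`
  have hn0 : NeZero n.natAbs := ⟨Int.natAbs_ne_zero.2 hn⟩
  let f : ℕ → ZMod n.natAbs × ZMod n.natAbs := fun i =>
    (((u ^ i).re : ZMod n.natAbs), ((u ^ i).im : ZMod n.natAbs))
  obtain ⟨i, j, hij, hf⟩ := Finite.exists_ne_map_eq_of_infinite f
  have key : ∀ i j : ℕ, i < j → f i = f j → ∃ (N : ℕ) (z : Ord n B C), N ≠ 0 ∧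
      u ^ N = 1 + (n : Ord n B C) * z := by
    intro i j hij hf
    have h1 : (n : ℤ) ∣ (u ^ j).re - (u ^ i).re := by
      have h2 : (((u ^ j).re - (u ^ i).re : ℤ) : ZMod n.natAbs) = 0 := by
        push_cast
        rw [sub_eq_zero]
        exact (congrArg Prod.fst hf).symm
      exact Int.natAbs_dvd.1 ((ZMod.intCast_zmod_eq_zero_iff_dvd _ _).1 h2)
    have h2 : (n : ℤ) ∣ (u ^ j).im - (u ^ i).im := by
      have h2 : (((u ^ j).im - (u ^ i).im : ℤ) : ZMod n.natAbs) = 0 := by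
        push_cast
        rw [sub_eq_zero]
        exact (congrArg Prod.snd hf).symm
      exact Int.natAbs_dvd.1 ((ZMod.intCast_zmod_eq_zero_iff_dvd _ _).1 h2)
    obtain ⟨a, ha⟩ := h1
    obtain ⟨b, hb⟩ := h2
    have h3 : u ^ j - u ^ i = (n : Ord n B C) * ⟨a, b⟩ := by
      ext
      · simp [ha]
      · simp [hb]
    refine ⟨j - i, star (u ^ i) * ⟨a, b⟩, by omega, ?_⟩
    have h4 : star (u ^ i) * u ^ i = 1 := star_mul_self (by rw [map_pow, hu, one_pow])
    have h5 : u ^ j = u ^ i * u ^ (j - i) := by rw [← pow_add]; congr 1; omega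
    rw [h5] at h3
    linear_combination star (u ^ i) * h3 - (u ^ (j - i) - 1) * h4
  rcases Nat.lt_or_gt_of_ne hij with h | h
  · exact key i j h hf
  · exact key j i h hf.symm

/-- **The engine**, for integers. -/
theorem engine_int (hG : Moves n B C G) (hP : PrimeElts n B C) (hA : Padic n B C)
    (hn : n ≠ 0) (hΔ : 0 < B ^ 2 - 4 * n * C) (hΔs : ¬ IsSquare (B ^ 2 - 4 * n * C))
    {a : ℤ} (hacop : IsCoprime a n) : G (a : Ord n B C) 1 := by
  -- the discriminant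
  have hΔ' : B ^ 2 - 4 * n * C ≠ 0 := hΔ.ne'
  set T : ℤ := 2 * n * (B ^ 2 - 4 * n * C) with hT
  have hT0 : T ≠ 0 := by rw [hT]; positivity
  -- the sign and the class modulo `4`
  obtain ⟨s, k, hs, hk⟩ : ∃ s k : ℤ, (s = 1 ∨ s = -1) ∧ (s * a + n * k) % 4 = 3 := by
    have hpar : n % 2 = 1 ∨ a % 2 = 1 := by
      by_contra hc
      push Not at hc
      obtain ⟨u, v, huv⟩ := hacop
      have h1 : a = 2 * (a / 2) := by omega
      have h2 : n = 2 * (n / 2) := by omega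
      rw [h1, h2] at huv
      have h3 : 2 * (u * (a / 2) + v * (n / 2)) = 1 := by linarith
      omega
    have h4 : n % 4 = 0 ∨ n % 4 = 1 ∨ n % 4 = 2 ∨ n % 4 = 3 := by omega
    have h5 : a % 4 = 0 ∨ a % 4 = 1 ∨ a % 4 = 2 ∨ a % 4 = 3 := by omega
    have h6 : (∃ k : ℤ, (k = 0 ∨ k = 1 ∨ k = 2 ∨ k = 3) ∧ (1 * a + n * k) % 4 = 3) ∨
        ((-1) * a + n * 0) % 4 = 3 := by
      rcases h4 with h4 | h4 | h4 | h4 <;> rcases h5 with h5 | h5 | h5 | h5 <;>
        first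
        | (exfalso; omega)
        | (right; omega)
        | (left; exact ⟨0, by simp, by omega⟩)
        | (left; exact ⟨1, by simp, by omega⟩)
        | (left; exact ⟨3, by simp, by omega⟩)
    rcases h6 with ⟨k, -, hk⟩ | h6
    · exact ⟨1, k, Or.inl rfl, hk⟩
    · exact ⟨-1, 0, Or.inr rfl, h6⟩
  set r : ℤ := s * a + n * k with hr
  have hs1 : s * s = 1 := by rcases hs with h | h <;> rw [h] <;> norm_num
  have hrn : IsCoprime r n := by
    obtain ⟨u, v, huv⟩ := hacop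
    refine ⟨s * u, v - s * u * k, ?_⟩
    rw [hr]
    linear_combination huv + (a * u) * hs1
  have hr4 : IsCoprime r 4 := by
    refine ⟨-1, (r + 1) / 4, ?_⟩
    omega
  have hrc : IsCoprime r (4 * n) := hr4.mul_right hrn
  -- the prime `ρ`
  obtain ⟨ρ, hρX, hρ, hρr⟩ : ∃ ρ : ℕ, T.natAbs < ρ ∧ ρ.Prime ∧ (4 * n) ∣ (ρ : ℤ) - r := by
    have hq0 : (4 * n).natAbs ≠ 0 := by
      rw [Int.natAbs_ne_zero]; positivity
    have : NeZero (4 * n).natAbs := ⟨hq0⟩
    have hu : IsUnit ((r : ℤ) : ZMod (4 * n).natAbs) := by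
      obtain ⟨u, v, huv⟩ := hrc
      refine IsUnit.of_mul_eq_one ((u : ℤ) : ZMod (4 * n).natAbs) ?_
      have h1 : (((4 * n : ℤ)) : ZMod (4 * n).natAbs) = 0 :=
        (ZMod.intCast_zmod_eq_zero_iff_dvd _ _).2 (Int.natAbs_dvd.2 dvd_rfl)
      have h2 := congrArg (Int.cast : ℤ → ZMod (4 * n).natAbs) huv
      rw [Int.cast_add, Int.cast_mul, Int.cast_mul, h1, mul_zero, add_zero, Int.cast_one] at h2
      exact (mul_comm _ _).trans h2
    obtain ⟨ρ, h1, h2, h3⟩ := Nat.forall_exists_prime_gt_and_eq_mod hu T.natAbs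
    refine ⟨ρ, h1, h2, ?_⟩
    rw [← Int.natAbs_dvd, ← ZMod.intCast_zmod_eq_zero_iff_dvd]
    push_cast
    rw [h3, sub_self]
  have := Fact.mk hρ
  obtain ⟨w, hw⟩ := hρr
  have hρ4 : ρ % 4 = 3 := by
    have h1 : (ρ : ℤ) = r + 4 * (n * w) := by linarith
    omega
  have hρp : Prime (ρ : ℤ) := Nat.prime_iff_prime_int.1 hρ
  have hρT : ¬ (ρ : ℤ) ∣ T := by
    intro h
    have h1 := Int.natAbs_dvd_natAbs.2 h
    rw [Int.natAbs_natCast] at h1
    exact absurd (Nat.le_of_dvd (Int.natAbs_pos.2 hT0) h1) (not_le.2 hρX)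
  have hρn : ¬ (ρ : ℤ) ∣ n := fun h => hρT (h.trans ⟨2 * (B ^ 2 - 4 * n * C), by rw [hT]; ring⟩)
  -- reduction to `ρ`
  suffices hρ1 : G ((ρ : ℤ) : Ord n B C) 1 by
    have h1 : G ((s * a : ℤ) : Ord n B C) 1 := by
      refine (hG.g1_iff (α := ((s * a : ℤ) : Ord n B C)) (α' := ((ρ : ℤ) : Ord n B C)) (w := 1)
        (z := ((k + 4 * w : ℤ) : Ord n B C)) ?_).2 hρ1
      have h2 : (ρ : ℤ) = s * a + n * (k + 4 * w) := by
        rw [hr] at hw
        linarith
      rw [h2]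
      push_cast
      ring
    rcases hs with rfl | rfl
    · rwa [one_mul] at h1
    · have h2 := hG.g6 _ _ h1
      have h3 : -(((-1 * a : ℤ)) : Ord n B C) = (a : Ord n B C) := by push_cast; ring
      rwa [h3] at h2
  -- the square
  set e : ℕ := ρ / 4 with he
  have hρe : ρ = 4 * e + 3 := by omega
  set y : ℤ := n ^ e with hy
  have hnz : (n : ZMod ρ) ≠ 0 := fun h => hρn ((ZMod.intCast_zmod_eq_zero_iff_dvd _ _).1 h)
  have hsq : ((n * y ^ 2 : ℤ) : ZMod ρ) = 1 ∨ ((n * y ^ 2 : ℤ) : ZMod ρ) = -1 := by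
    have h1 := ZMod.pow_div_two_eq_neg_one_or_one ρ hnz
    have h2 : ρ / 2 = 2 * e + 1 := by omega
    have h3 : ((n * y ^ 2 : ℤ) : ZMod ρ) = (n : ZMod ρ) ^ (ρ / 2) := by
      rw [h2, hy]
      push_cast
      ring
    rw [h3]
    exact h1
  have hρcT : IsCoprime (ρ : ℤ) T := (Irreducible.coprime_iff_not_dvd hρp.irreducible).2 hρT
  -- the element `π`
  obtain ⟨u, v, huv⟩ := hρcT
  set α : ℤ := y * v * T + u * ρ with hα
  have hαT : IsCoprime α T := ⟨1, v - y * v, by rw [hα]; linear_combination huv⟩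
  have hyρ : IsCoprime y (ρ : ℤ) := by
    rw [hy]
    exact IsCoprime.pow_left ((Irreducible.coprime_iff_not_dvd hρp.irreducible).2 hρn).symm
  have hαρ : IsCoprime α (ρ : ℤ) := by
    obtain ⟨c, d, hcd⟩ := hyρ
    refine ⟨c, d + c * (y * u - u), ?_⟩
    rw [hα]
    linear_combination hcd + (c * y) * huv
  set m₁ : ℕ := (T * ρ).natAbs with hm₁
  have hm₁0 : m₁ ≠ 0 := by
    rw [hm₁, Int.natAbs_ne_zero]
    exact mul_ne_zero hT0 (by exact_mod_cast hρ.ne_zero)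
  have hcop : IsCoprime (norm ((α : ℤ) : Ord n B C)) (m₁ : ℤ) := by
    rw [norm_int, hm₁]
    have h1 : IsCoprime (α ^ 2) (T * ρ) := (hαT.mul_right hαρ).pow_left
    rcases Int.natAbs_eq (T * ρ) with h2 | h2
    · rw [← h2]; exact h1
    · have h3 : (((T * ρ).natAbs : ℕ) : ℤ) = -(T * ρ) := by linarith
      rw [h3]; exact h1.neg_right
  obtain ⟨π, z, hπz, hπp, hπX, -⟩ := hP m₁ hm₁0 (by
    rw [hm₁, Int.dvd_natAbs]; exact Dvd.intro _ rfl) ((α : ℤ) : Ord n B C) hcop 2 m₁ Nat.prime_two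
  set p : ℕ := (norm π).natAbs with hp
  have hm₁T : T.natAbs ≤ m₁ := by
    rw [hm₁, Int.natAbs_mul T ρ, Int.natAbs_natCast]
    exact Nat.le_mul_of_pos_right _ hρ.pos
  have hm₁ρ : ρ ≤ m₁ := by
    rw [hm₁, Int.natAbs_mul T ρ, Int.natAbs_natCast]
    exact Nat.le_mul_of_pos_left _ (Int.natAbs_pos.2 hT0)
  have hpT : ¬ (p : ℤ) ∣ T := by
    intro h
    have h1 := Int.natAbs_dvd_natAbs.2 h
    rw [Int.natAbs_natCast] at h1
    exact absurd (Nat.le_of_dvd (Int.natAbs_pos.2 hT0) h1) (by omega)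
  have hpρ : ¬ (p : ℤ) ∣ (ρ : ℤ) := by
    intro h
    have h1 : p ∣ ρ := by exact_mod_cast h
    exact absurd (Nat.le_of_dvd hρ.pos h1) (by omega)
  have hnπ : ((norm π : ℤ) : ZMod ρ) = ((y ^ 2 : ℤ) : ZMod ρ) := by
    rw [ZMod.intCast_eq_intCast_iff_dvd_sub]
    have hm₁d : (ρ : ℤ) ∣ (m₁ : ℤ) := by
      rw [hm₁, Int.dvd_natAbs]
      exact Dvd.intro_left _ rfl
    obtain ⟨m₂, hm₂⟩ := hm₁d
    have hre : π.re = α + m₁ * z.re := by rw [hπz]; simp
    have him' : π.im = m₁ * z.im := by rw [hπz]; simp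
    rw [norm_eq', hre, him', hm₂, hα]
    have hv : v * T = 1 - u * ρ := by linarith
    refine ⟨-(((1 - y) * u + m₂ * z.re) * (2 * y + ((1 - y) * u + m₂ * z.re) * ρ)
      + B * (y * v * T + u * ρ + ρ * m₂ * z.re) * (m₂ * z.im) + n * C * ρ * (m₂ * z.im) ^ 2), ?_⟩
    have h1 : y * v * T = y * (1 - u * ρ) := by rw [← hv]; ring
    rw [h1]
    ring
  have hyz : ((y : ℤ) : ZMod ρ) ≠ 0 := by
    rw [hy]
    push_cast
    exact pow_ne_zero _ hnz
  -- the unit
  obtain ⟨X, Y, hXY, hY⟩ := Pell.exists_of_not_isSquare hΔ hΔs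
  set E : Ord n B C := ⟨X - B * Y, 2 * Y⟩ with hEd
  have hE1 : norm E = 1 := by
    rw [norm_eq', hEd]
    simp only
    linear_combination hXY
  have him : E.im ≠ 0 := by
    rw [hEd]
    exact mul_ne_zero two_ne_zero hY
  have hE2 : norm (E ^ 2) = 1 := by
    rw [map_pow, hE1, one_pow]
  obtain ⟨N, z₀, hN, hε1⟩ := exists_pow_one (B := B) (C := C) hn hE2
  have hε : norm ((E ^ 2) ^ N) = 1 := by rw [map_pow, hE2, one_pow]
  have hεi : ∀ i : ℕ, i ≠ 0 → ((E ^ 2) ^ N) ^ i ≠ 1 := by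
    intro i hi
    rw [← pow_mul, ← pow_mul]
    exact pow_ne_one hΔs hΔ him (by positivity)
  have hpD : ¬ (p : ℤ) ∣ B ^ 2 - 4 * n * C := fun h => hpT (h.trans ⟨2 * n, by rw [hT]; ring⟩)
  have hp2 : p ≠ 2 := by
    intro h
    apply hpT
    rw [h, hT]
    exact ⟨n * (B ^ 2 - 4 * n * C), by push_cast; ring⟩
  obtain ⟨c, hc⟩ := hA p π _ hπp hp2 rfl hpD hε hεi
  -- the exponent
  have hρ1 : 1 ≤ ρ - 1 := by
    have := hρ.two_le
    omega
  have hcm : c ≤ 1 + (ρ - 1) * c := by nlinarith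
  have hval : ((n * norm (π ^ (1 + (ρ - 1) * c)) : ℤ) : ZMod ρ) = ((n * y ^ 2 : ℤ) : ZMod ρ) := by
    rw [map_pow]
    push_cast at hnπ ⊢
    rw [hnπ, pow_add, pow_mul, pow_one]
    have h1 : ((y : ZMod ρ) ^ 2) ^ (ρ - 1) = 1 := ZMod.pow_card_sub_one_eq_one (pow_ne_zero _ hyz)
    rw [h1, one_pow, mul_one]
  have hGρ : G ((ρ : ℤ) : Ord n B C) (π ^ (1 + (ρ - 1) * c)) := by
    refine hG.g5 _ _ (by exact_mod_cast hρ.ne_zero) ?_
    rcases hsq with h | h
    · left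
      rw [← ZMod.intCast_zmod_eq_zero_iff_dvd, Int.cast_sub, hval, h]
      simp
    · right
      rw [← ZMod.intCast_zmod_eq_zero_iff_dvd, Int.cast_add, hval, h]
      simp
  refine key hG hP hn hΔ' hπp rfl ?_ ?_ hpρ hε hε1 hc hcm hGρ
  · exact hpT
  · exact ⟨u, v, huv⟩

/-- the rational residue modulo `ℤ n + ℤ ω̄` -/
lemma residue_eq (α : Ord n B C) : α = ((α.re + α.im * B : ℤ) : Ord n B C) +
    1 * ((n : Ord n B C) * ((0 : ℤ) : Ord n B C) + star omega * ((-α.im : ℤ) : Ord n B C)) := by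
  ext
  · simp
    ring
  · simp

/-- **The engine**, for all elements prime to `ℤ n + ℤ ω̄`. -/
theorem engine_one (hG : Moves n B C G) (hP : PrimeElts n B C) (hA : Padic n B C)
    (hn : n ≠ 0) (hΔ : 0 < B ^ 2 - 4 * n * C) (hΔs : ¬ IsSquare (B ^ 2 - 4 * n * C))
    {α : Ord n B C} (hα : IsCoprime (α.re + α.im * B) n) : G α 1 := by
  rw [residue_eq α]
  exact hG.g1 _ _ _ _ (engine_int hG hP hA hn hΔ hΔs hα)

/-- **The engine.** -/
theorem engine (hG : Moves n B C G) (hP : PrimeElts n B C) (hA : Padic n B C)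
    (hn : n ≠ 0) (hΔ : 0 < B ^ 2 - 4 * n * C) (hΔs : ¬ IsSquare (B ^ 2 - 4 * n * C))
    {E : Ord n B C} (hE : norm E = 1 ∨ norm E = -1) : G E 0 := by
  -- the rational units
  by_cases him : E.im = 0
  · have h1 : E.re ^ 2 = 1 := by
      have h2 := norm_eq' E
      rw [him] at h2
      have h3 : norm E = E.re ^ 2 := by rw [h2]; ring
      rcases hE with h | h
      · rw [← h3, h]
      · rw [h] at h3
        nlinarith [sq_nonneg E.re]
    have hG1 : G 1 0 := by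
      have h := hG.g5 1 0 one_ne_zero (Or.inl (one_dvd _))
      simpa using h
    have h2 : E.re = 1 ∨ E.re = -1 := by
      have h3 : (E.re - 1) * (E.re + 1) = 0 := by linear_combination h1
      rcases mul_eq_zero.1 h3 with h | h
      · left; linarith
      · right; linarith
    rcases h2 with h | h
    · have : E = 1 := by ext <;> simp [h, him]
      rw [this]; exact hG1
    · have : E = -1 := by ext <;> simp [h, him]
      rw [this]; exact hG.g6 _ _ hG1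
  set ν : ℤ := norm E with hν
  have hν1 : ν * ν = 1 := by rcases hE with h | h <;> rw [h] <;> norm_num
  have hEs : E * star E = (ν : Ord n B C) := mul_star_eq E
  -- reduction to `(E, 1)`
  suffices hE1 : G E 1 by
    refine (hG.g2_iff (α := E) (w := 1) (w' := 0) (y := -(ν : Ord n B C) * star E) ?_).1 hE1
    have h1 : ((ν * ν : ℤ) : Ord n B C) = 1 := by rw [hν1]; simp
    push_cast at h1
    linear_combination (ν : Ord n B C) * hEs + h1
  -- the rational residue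
  set a : ℤ := E.re + E.im * B with ha
  have haE : E = (a : Ord n B C) + 1 * ((n : Ord n B C) * ((0 : ℤ) : Ord n B C) +
      star omega * ((-E.im : ℤ) : Ord n B C)) := by
    ext
    · simp [ha]
      ring
    · simp
  have hacop : IsCoprime a n := by
    refine ⟨ν * E.re, ν * C * E.im ^ 2, ?_⟩
    have h2 := norm_eq' E
    rw [← hν] at h2
    rw [ha]
    linear_combination ν * h2.symm + hν1
  rw [haE]
  exact hG.g1 _ _ _ _ (engine_int hG hP hA hn hΔ hΔs hacop)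

end Pool.Agent.Mukai.RF
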