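import Mathlib

set_option autoImplicit false

/-!
The interfaces of the proof that every lift is a product of reflections.
-/

namespace Pool.Agent.Mukai.RF

/-- the order `ℤ[ω]`, `ω² = B ω - n C`, of discriminant `B² - 4 n C` -/
abbrev Ord (n B C : ℤ) : Type := QuadraticAlgebra ℤ (-(n * C)) B

/-- the moves on the pairs `(α, w)` of elements of `ℤ[ω]`; `G α w` says that the isometries with
the first row `(α, w b₀)`, `b₀ = (1, 0)`, are in the group `W⁺` -/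
structure Moves (n B C : ℤ) (G : Ord n B C → Ord n B C → Prop) : Prop where
  /-- the ideal `H(b₀, M) = ℤ n + ℤ ω̄` -/
  g1 : ∀ (α w : Ord n B C) (a b : ℤ), G α w →
    G (α + w * ((n : Ord n B C) * (a : Ord n B C) + star QuadraticAlgebra.omega * (b : Ord n B C))) w
  g2 : ∀ α w y : Ord n B C, G α w → G α (w + α * y)
  g3 : ∀ α w u : Ord n B C, QuadraticAlgebra.norm u = 1 → G α w → G α (u * w)
  g4 : ∀ α w u : Ord n B C, QuadraticAlgebra.norm u = 1 → G u 0 → G α w → G (u * α) w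
  g5 : ∀ (ρ : ℤ) (w : Ord n B C), ρ ≠ 0 →
    (ρ ∣ n * QuadraticAlgebra.norm w - 1 ∨ ρ ∣ n * QuadraticAlgebra.norm w + 1) →
    G (ρ : Ord n B C) w
  g6 : ∀ α w : Ord n B C, G α w → G (-α) w

/-- the theorem of Dirichlet for the elements of `ℤ[ω]`, with primes not congruent to `1` -/
def PrimeElts (n B C : ℤ) : Prop :=
  ∀ m : ℕ, m ≠ 0 → (2 * n * (B ^ 2 - 4 * n * C)) ∣ (m : ℤ) → ∀ α : Ord n B C,
    IsCoprime (QuadraticAlgebra.norm α) (m : ℤ) → ∀ (l X : ℕ), l.Prime →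
      ∃ x z : Ord n B C, x = α + (m : Ord n B C) * z ∧ (QuadraticAlgebra.norm x).natAbs.Prime ∧
        X < (QuadraticAlgebra.norm x).natAbs ∧
        ¬ (QuadraticAlgebra.norm x).natAbs ≡ 1 [MOD if l = 2 then 4 else l]

/-- the density of the powers of a unit in the completion at a prime of degree one -/
def Padic (n B C : ℤ) : Prop :=
  ∀ (p : ℕ) (π ε : Ord n B C), p.Prime → p ≠ 2 → (QuadraticAlgebra.norm π).natAbs = p →
    ¬ (p : ℤ) ∣ B ^ 2 - 4 * n * C → QuadraticAlgebra.norm ε = 1 → (∀ i : ℕ, i ≠ 0 → ε ^ i ≠ 1) →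
    ∃ c : ℕ, ∀ (m : ℕ) (α α' : Ord n B C), c ≤ m → ¬ π ∣ α → π ^ c ∣ α - α' →
      ∃ i : ℕ, π ^ m ∣ ε ^ i * α - α'

end Pool.Agent.Mukai.RF
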