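import Pool.Agent.Work.MP_1e087a_ag.Q.Quad
import Pool.Agent.Work.MP_1e087a_ag.F.Defs

set_option autoImplicit false

/-!
The embedding of the order `ℤ[ω]` in the ring of integers of the quadratic field.
-/

namespace Pool.Agent.Mukai.RF

open NumberField Ideal RQ

set_option linter.unusedSectionVars false

variable {n B C : ℤ} [Fact (∀ r : ℚ, r ^ 2 ≠ (-(n * C : ℤ) : ℚ) + (B : ℚ) * r)]

/-- the embedding in the ring of integers -/
noncomputable def emb : Ord n B C →+* 𝓞 (QK n B C) :=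
  (QuadraticAlgebra.lift (R := ℤ) (a := -(n * C)) (b := B) (A := 𝓞 (QK n B C))
    ⟨omI n B C, by
      have h := (qd (n := n) (B := B) (C := C)).sq
      change omI n B C * omI n B C = _ at h
      rw [zsmul_eq_mul, zsmul_eq_mul]
      change omI n B C * omI n B C = (B : 𝓞 (QK n B C)) * omI n B C - n * C at h
      rw [h]
      push_cast
      ring⟩).toRingHom

lemma emb_apply (x : Ord n B C) : emb x = (x.re : 𝓞 (QK n B C)) + x.im * omI n B C := by
  unfold emb
  simp [QuadraticAlgebra.lift]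

lemma norm_emb (x : Ord n B C) : Algebra.norm ℤ (emb x) = QuadraticAlgebra.norm x := by
  rw [emb_apply]
  have h := (qd (n := n) (B := B) (C := C)).norm x.re x.im
  change Algebra.norm ℤ ((x.re : 𝓞 (QK n B C)) + x.im * omI n B C) = _ at h
  rw [h, QuadraticAlgebra.norm_def]
  ring

lemma emb_injective : Function.Injective (emb (n := n) (B := B) (C := C)) := by
  rw [injective_iff_map_eq_zero]
  intro x hx
  have h := congrArg (algebraMap (𝓞 (QK n B C)) (QK n B C)) hx
  rw [emb_apply] at h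
  simp only [map_mul, map_add, map_intCast, omI_coe, map_zero] at h
  have h1 := congrArg QuadraticAlgebra.re h
  have h2 := congrArg QuadraticAlgebra.im h
  simp [om] at h1 h2
  ext
  · exact h1
  · exact h2

lemma emb_dvd (z : 𝓞 (QK n B C)) : ∃ y : Ord n B C, (md n B C : 𝓞 (QK n B C)) * z = emb y := by
  obtain ⟨u, w, h⟩ := (qd (n := n) (B := B) (C := C)).dvd z
  refine ⟨⟨n * u, w⟩, ?_⟩
  rw [h, emb_apply]
  change _ + _ * omI n B C = _
  push_cast
  ring

/-- from primes in ray classes to prime elements -/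
theorem prime_elts_of (n B C : ℤ) [Fact (∀ r : ℚ, r ^ 2 ≠ (-(n * C : ℤ) : ℚ) + (B : ℚ) * r)]
    (hD : B ^ 2 - 4 * n * C ≠ 0) (hn : n ≠ 0)
    (Ray : ℕ → Ideal (𝓞 (QK n B C)) → Ideal (𝓞 (QK n B C)) → Prop)
    (hRay : ∀ m I J, Ray m I J → ∃ α β : 𝓞 (QK n B C), α ≠ 0 ∧ β ≠ 0 ∧
      α - 1 ∈ span {(m : 𝓞 (QK n B C))} ∧ β - 1 ∈ span {(m : 𝓞 (QK n B C))} ∧
      span {α} * I = span {β} * J)
    (H : ∀ {m M : ℕ}, 1 < m → 2 < M → ∀ {I : Ideal (𝓞 (QK n B C))}, I ≠ ⊥ →
      I ⊔ span {(m : 𝓞 (QK n B C))} = ⊤ → ∀ X : ℕ, ∃ v : Ideal (𝓞 (QK n B C)),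
        (absNorm v).Prime ∧ X < absNorm v ∧ ((absNorm v : ℕ) : ZMod M) ≠ 1 ∧ Ray m v I) :
    PrimeElts n B C := by
  intro m hm hdvd α hα l X hl
  have hmd : md n B C ∣ m := by
    unfold md
    rw [← Int.natCast_dvd_natCast, Int.natAbs_dvd]
    exact hdvd
  obtain ⟨e, he⟩ := hmd
  have hm2 : 2 ∣ m := by
    rw [← Int.natCast_dvd_natCast]
    exact (Dvd.intro (n * (B ^ 2 - 4 * n * C)) (by ring)).trans hdvd
  have hm1 : 1 < m := by
    have := Nat.le_of_dvd (Nat.pos_of_ne_zero hm) hm2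
    omega
  have hM : 2 < (if l = 2 then 4 else l) := by
    split_ifs with h2
    · norm_num
    · have := hl.two_le
      omega
  -- the ideal
  have hcop : IsCoprime (QuadraticAlgebra.norm α) ((m * md n B C : ℕ) : ℤ) := by
    rw [Nat.cast_mul]
    refine hα.mul_right (hα.of_isCoprime_of_dvd_right ?_)
    rw [he]
    push_cast
    exact Dvd.intro _ rfl
  have hstar : emb α * emb (star α) = ((QuadraticAlgebra.norm α : ℤ) : 𝓞 (QK n B C)) := by
    rw [← map_mul, ← QuadraticAlgebra.algebraMap_norm_eq_mul_star]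
    simp
  have hα0 : emb α ≠ 0 := by
    intro h
    rw [h, zero_mul] at hstar
    have h0 : QuadraticAlgebra.norm α = 0 := by exact_mod_cast hstar.symm
    rw [h0, isCoprime_zero_left] at hα
    have := Int.isUnit_iff.1 hα
    omega
  have hI : span {emb α} ⊔ span {((m * md n B C : ℕ) : 𝓞 (QK n B C))} = ⊤ := by
    obtain ⟨a, b, hab⟩ := hcop
    have h : (a : 𝓞 (QK n B C)) * (emb α * emb (star α)) + b * ((m * md n B C : ℕ) : 𝓞 (QK n B C)) =
        1 := by
      rw [hstar]
      exact_mod_cast hab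
    rw [eq_top_iff_one, ← h]
    exact Ideal.add_mem _ (Ideal.mul_mem_left _ _ (Ideal.mem_sup_left
      (Ideal.mul_mem_right _ _ (mem_span_singleton_self _))))
      (Ideal.mul_mem_left _ _ (Ideal.mem_sup_right (mem_span_singleton_self _)))
  have hmm : 1 < m * md n B C := by
    have h1 : 1 ≤ md n B C := by
      unfold md
      exact Int.natAbs_pos.2 (mul_ne_zero (mul_ne_zero two_ne_zero hn) hD)
    nlinarith
  obtain ⟨v, hv, hvX, hv1, hR⟩ := H hmm hM (by rwa [Ne, span_singleton_eq_bot]) hI X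
  obtain ⟨a, b, ha, hb, ha1, hb1, hab⟩ := hRay _ _ _ hR
  -- the generator
  obtain ⟨x, hx⟩ : a ∣ b * emb α := by
    rw [← span_singleton_le_span_singleton, ← span_singleton_mul_span_singleton, ← hab]
    exact Ideal.mul_le_left
  have hvx : v = span {x} := by
    have h1 : span {a} * v = span {a} * span {x} := by
      rw [hab, span_singleton_mul_span_singleton, span_singleton_mul_span_singleton, hx]
    exact mul_left_cancel₀ (by rw [Ne, Ideal.zero_eq_bot, span_singleton_eq_bot]; exact ha) h1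
  obtain ⟨a', ha'⟩ := span_int_mem ha1
  obtain ⟨b', hb'⟩ := span_int_mem hb1
  obtain ⟨y, hy⟩ := emb_dvd (b' * emb α - a' * x)
  have hxe : x = emb (α + (m : Ord n B C) * y) := by
    rw [map_add, map_mul, map_natCast, ← hy]
    have e1 : ((m * md n B C : ℕ) : 𝓞 (QK n B C)) = (m : 𝓞 (QK n B C)) * md n B C := by push_cast; ring
    rw [e1] at ha' hb'
    linear_combination (-x) * ha' + (emb α) * hb' - hx
  refine ⟨α + (m : Ord n B C) * y, y, rfl, ?_⟩
  have hN : absNorm v = (QuadraticAlgebra.norm (α + (m : Ord n B C) * y)).natAbs := by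
    rw [hvx, absNorm_span_singleton, hxe, norm_emb]
  rw [hN] at hv hvX hv1
  refine ⟨hv, hvX, fun h => hv1 ?_⟩
  have h3 := (ZMod.natCast_eq_natCast_iff _ _ _).2 h
  rw [Nat.cast_one] at h3
  exact h3

end Pool.Agent.Mukai.RF
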