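import Pool.Agent.Work.MP_1e087a_ag.Q.M1

set_option autoImplicit false
set_option linter.unusedSectionVars false

/-!
The ray class group modulo `m` of a number field and its characters.
-/

namespace Pool.Agent.Mukai.RF

open NumberField Ideal
open scoped nonZeroDivisors
open Pool.Agent.Work.MP_2b9663_nt
open Pool.Agent.Mukai.RQ (PrimeTo exists_inv sup_top_of_inv sup_mul_top primeTo_mul primeTo_top exists_rel)

variable {K : Type} [Field K] [NumberField K]

/-- `I` and `J` are in the same (wide) ray class modulo `m`: `α I = β J` with nonzero `α`, `β`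
congruent to `1` modulo `m` -/
def Ray (m : ℕ) (I J : Ideal (𝓞 K)) : Prop :=
  ∃ α β : 𝓞 K, α ≠ 0 ∧ β ≠ 0 ∧ α - 1 ∈ span {(m : 𝓞 K)} ∧ β - 1 ∈ span {(m : 𝓞 K)} ∧
    span {α} * I = span {β} * J

lemma one_mul_mem {m : ℕ} {x y : 𝓞 K} (hx : x - 1 ∈ span {(m : 𝓞 K)})
    (hy : y - 1 ∈ span {(m : 𝓞 K)}) : x * y - 1 ∈ span {(m : 𝓞 K)} := by
  have h : x * y - 1 = y * (x - 1) + (y - 1) := by ring
  rw [h]
  exact Ideal.add_mem _ (Ideal.mul_mem_left _ _ hx) hy

lemma one_sub_mem (m : ℕ) : (1 : 𝓞 K) - 1 ∈ span {(m : 𝓞 K)} := by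
  rw [sub_self]
  exact Submodule.zero_mem _

lemma Ray.refl (m : ℕ) (I : Ideal (𝓞 K)) : Ray m I I :=
  ⟨1, 1, one_ne_zero, one_ne_zero, one_sub_mem m, one_sub_mem m, rfl⟩

lemma Ray.symm {m : ℕ} {I J : Ideal (𝓞 K)} (h : Ray m I J) : Ray m J I := by
  obtain ⟨a, b, ha, hb, ha', hb', h⟩ := h
  exact ⟨b, a, hb, ha, hb', ha', h.symm⟩

lemma Ray.trans {m : ℕ} {I J L : Ideal (𝓞 K)} (h : Ray m I J) (h' : Ray m J L) : Ray m I L := by
  obtain ⟨a, b, ha, hb, ha', hb', h⟩ := h
  obtain ⟨c, d, hc, hd, hc', hd', h'⟩ := h'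
  refine ⟨c * a, b * d, mul_ne_zero hc ha, mul_ne_zero hb hd, one_mul_mem hc' ha',
    one_mul_mem hb' hd', ?_⟩
  rw [← span_singleton_mul_span_singleton, ← span_singleton_mul_span_singleton, mul_assoc, h,
    mul_left_comm, h', mul_assoc]

lemma Ray.mul {m : ℕ} {I J I' J' : Ideal (𝓞 K)} (h : Ray m I J) (h' : Ray m I' J') :
    Ray m (I * I') (J * J') := by
  obtain ⟨a, b, ha, hb, ha', hb', h⟩ := h
  obtain ⟨c, d, hc, hd, hc', hd', h'⟩ := h'
  refine ⟨a * c, b * d, mul_ne_zero ha hc, mul_ne_zero hb hd, one_mul_mem ha' hc',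
    one_mul_mem hb' hd', ?_⟩
  rw [← span_singleton_mul_span_singleton, ← span_singleton_mul_span_singleton, mul_mul_mul_comm,
    h, h', mul_mul_mul_comm]

lemma sup_top_of_one {m : ℕ} {x : 𝓞 K} (hx : x - 1 ∈ span {(m : 𝓞 K)}) :
    span {x} ⊔ span {(m : 𝓞 K)} = ⊤ :=
  sup_top_of_inv (y := 1) (by rw [one_mul]; exact hx)

/-- the inverse in the group of ray classes -/
lemma exists_inv_ideal {m : ℕ} (hm : m ≠ 0) {I : Ideal (𝓞 K)} (hI : PrimeTo m I) :
    ∃ J : Ideal (𝓞 K), PrimeTo m J ∧ Ray m (J * I) ⊤ := by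
  classical
  obtain ⟨h', hh'⟩ : ∃ h', Fintype.card (ClassGroup (𝓞 K)) = h' + 1 :=
    ⟨_, (Nat.succ_pred_eq_of_pos Fintype.card_pos).symm⟩
  have h1 : (I ^ (h' + 1)).IsPrincipal := by
    refine (ClassGroup.mk0_eq_one_iff
      (SetLike.coe_mem ((⟨I, mem_nonZeroDivisors_of_ne_zero hI.1⟩ : (Ideal (𝓞 K))⁰) ^ (h' + 1)))).mp ?_
    have : ClassGroup.mk0 ((⟨I, mem_nonZeroDivisors_of_ne_zero hI.1⟩ : (Ideal (𝓞 K))⁰) ^ (h' + 1)) = 1 := by
      rw [map_pow, ← hh', pow_card_eq_one]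
    exact this
  obtain ⟨a, ha, ha'⟩ := (hI.pow (h' + 1)).principal h1
  obtain ⟨z, hz, hza⟩ := exists_inv hm (x := a) (by rw [ha']; exact (hI.pow (h' + 1)).2)
  refine ⟨span {z} * I ^ h', primeTo_mul.2 ⟨⟨?_, ?_⟩, hI.pow _⟩, ?_⟩
  · rw [Ne, span_singleton_eq_bot]
    exact hz
  · exact sup_top_of_inv (y := a) (by rw [mul_comm]; exact hza)
  · refine ⟨1, z * a, one_ne_zero, mul_ne_zero hz ha, one_sub_mem m, hza, ?_⟩
    rw [mul_assoc, ← pow_succ, ← ha', span_singleton_mul_span_singleton,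
      span_singleton_mul_span_singleton, one_mul, Ideal.mul_top]

/-- the monoid of the nonzero ideals prime to `m` -/
def PN (K : Type) [Field K] [NumberField K] (m : ℕ) : Submonoid (Ideal (𝓞 K)) where
  carrier := {I | PrimeTo m I}
  one_mem' := by rw [Ideal.one_eq_top]; exact primeTo_top m
  mul_mem' h h' := primeTo_mul.2 ⟨h, h'⟩

/-- the congruence of ray classes -/
def ycon (K : Type) [Field K] [NumberField K] (m : ℕ) : Con (PN K m) where
  r I J := Ray m (I : Ideal (𝓞 K)) J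
  iseqv := ⟨fun _ => Ray.refl m _, fun h => h.symm, fun h h' => h.trans h'⟩
  mul' h h' := h.mul h'

/-- the group of ray classes modulo `m` -/
abbrev YC (K : Type) [Field K] [NumberField K] (m : ℕ) : Type := (ycon K m).Quotient

lemma YC_finite {m : ℕ} (hm : m ≠ 0) : Finite (YC K m) := by
  classical
  set M : Ideal (𝓞 K) := span {(m : 𝓞 K)} with hM
  have hM0 : M ≠ ⊥ := by
    rw [hM, Ne, span_singleton_eq_bot]
    exact_mod_cast hm
  have hfin : Finite (𝓞 K ⧸ M) := finite_idealQuot hM0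
  let cl : PN K m → ClassGroup (𝓞 K) := fun I =>
    ClassGroup.mk0 ⟨(I : Ideal (𝓞 K)), mem_nonZeroDivisors_of_ne_zero I.2.1⟩
  -- representatives of the classes
  have hrep : ∀ c : ClassGroup (𝓞 K), ∃ J : PN K m, (∃ I : PN K m, cl I = c) → cl J = c := by
    intro c
    by_cases h : ∃ I : PN K m, cl I = c
    · obtain ⟨I, hI⟩ := h
      exact ⟨I, fun _ => hI⟩
    · exact ⟨1, fun h' => absurd h' h⟩
  choose rep hrep using hrep
  have hdata : ∀ I : PN K m, ∃ a b : 𝓞 K, a ≠ 0 ∧ b ≠ 0 ∧ span {a} ⊔ M = ⊤ ∧ b - 1 ∈ M ∧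
      span {b} * (I : Ideal (𝓞 K)) = span {a} * (rep (cl I) : Ideal (𝓞 K)) := by
    intro I
    exact exists_rel hm I.2 (rep (cl I)).2 (hrep (cl I) ⟨I, rfl⟩).symm
  choose a b ha hb hac hb1 hab using hdata
  have key : ∀ I J : PN K m, cl I = cl J → Ideal.Quotient.mk M (a I) = Ideal.Quotient.mk M (a J) →
      Ray m (I : Ideal (𝓞 K)) (J : Ideal (𝓞 K)) := by
    intro I J hcl hq
    obtain ⟨y, hy, hya⟩ := exists_inv hm (hac I)
    have hya' : y * a J - 1 ∈ M := by
      have h1 : a I - a J ∈ M := Ideal.Quotient.eq.1 hq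
      have h2 : y * a J - 1 = (y * a I - 1) + (-y) * (a I - a J) := by ring
      rw [h2]
      exact Ideal.add_mem _ hya (Ideal.mul_mem_left _ _ h1)
    refine ⟨(y * a J) * b I, (y * a I) * b J, mul_ne_zero (mul_ne_zero hy (ha J)) (hb I),
      mul_ne_zero (mul_ne_zero hy (ha I)) (hb J),
      one_mul_mem hya' (hb1 I), one_mul_mem hya (hb1 J), ?_⟩
    rw [← span_singleton_mul_span_singleton (y * a J), ← span_singleton_mul_span_singleton (y * a I),
      mul_assoc, mul_assoc, hab I, hab J, hcl, ← span_singleton_mul_span_singleton y,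
      ← span_singleton_mul_span_singleton y]
    ring
  refine Finite.of_injective (fun q : YC K m =>
    (cl (Quotient.out q), Ideal.Quotient.mk M (a (Quotient.out q)))) ?_
  intro q q' h
  have h1 := key _ _ (congrArg Prod.fst h) (congrArg Prod.snd h)
  rw [← Quotient.out_eq q, ← Quotient.out_eq q']
  exact Quotient.sound h1

/-- the class of an ideal prime to `m` -/
def ymk (m : ℕ) (I : PN K m) : YC K m := ((I : PN K m) : (ycon K m).Quotient)

lemma ymk_eq {m : ℕ} {I J : PN K m} : ymk m I = ymk m J ↔ Ray m (I : Ideal (𝓞 K)) J :=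
  Con.eq _

lemma ymk_mul {m : ℕ} (I J : PN K m) : ymk m (I * J) = ymk m I * ymk m J := rfl

lemma ymk_one {m : ℕ} : ymk m (1 : PN K m) = 1 := rfl

lemma YC_inv {m : ℕ} (hm : m ≠ 0) (g : YC K m) : ∃ g' : YC K m, g' * g = 1 := by
  obtain ⟨I, rfl⟩ : ∃ I : PN K m, ymk m I = g := Quotient.exists_rep g
  obtain ⟨J, hJ, h⟩ := exists_inv_ideal hm I.2
  refine ⟨ymk m ⟨J, hJ⟩, ?_⟩
  rw [← ymk_mul, ← ymk_one, ymk_eq]
  rw [← Ideal.one_eq_top] at h
  exact h

/-- the group structure -/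
noncomputable abbrev YCgroup {m : ℕ} (hm : m ≠ 0) : CommGroup (YC K m) :=
  { (inferInstance : CommMonoid (YC K m)) with
    inv := fun g => (YC_inv hm g).choose
    inv_mul_cancel := fun g => (YC_inv hm g).choose_spec }

/-- The ray class group: the classes of the nonzero ideals prime to `m`, as a finite group. -/
lemma exists_group (K : Type) [Field K] [NumberField K] {m : ℕ} (hm : m ≠ 0) :
    ∃ (G : Type) (_ : CommGroup G) (_ : Fintype G) (c : Ideal (𝓞 K) → G), c ⊤ = 1 ∧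
      (∀ I J, PrimeTo m I → PrimeTo m J → c (I * J) = c I * c J) ∧
      ∀ I J, PrimeTo m I → PrimeTo m J → (c I = c J ↔ Ray m I J) := by
  classical
  let _ := YCgroup (K := K) hm
  have := YC_finite (K := K) hm
  let _ := Fintype.ofFinite (YC K m)
  refine ⟨YC K m, inferInstance, inferInstance, fun I => if h : PrimeTo m I then ymk m ⟨I, h⟩ else 1,
    ?_, ?_, ?_⟩
  · show (if h : PrimeTo m (⊤ : Ideal (𝓞 K)) then ymk m ⟨⊤, h⟩ else 1) = 1
    rw [dif_pos (primeTo_top m)]
    refine Eq.trans ?_ (ymk_one (K := K) (m := m))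
    congr 1
    exact Subtype.ext Ideal.one_eq_top.symm
  · intro I J hI hJ
    show (if h : PrimeTo m (I * J) then ymk m ⟨I * J, h⟩ else 1) =
      (if h : PrimeTo m I then ymk m ⟨I, h⟩ else 1) * (if h : PrimeTo m J then ymk m ⟨J, h⟩ else 1)
    rw [dif_pos (primeTo_mul.2 ⟨hI, hJ⟩), dif_pos hI, dif_pos hJ]
    rfl
  · intro I J hI hJ
    show (if h : PrimeTo m I then ymk m ⟨I, h⟩ else 1) =
      (if h : PrimeTo m J then ymk m ⟨J, h⟩ else 1) ↔ _
    rw [dif_pos hI, dif_pos hJ, ymk_eq]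

section

variable {G : Type} [CommGroup G] [Fintype G]

/-- a character of the group of ray classes as a Hecke character -/
noncomputable def rayChar {m : ℕ} (hm : m ≠ 0) (c : Ideal (𝓞 K) → G) (h1 : c ⊤ = 1)
    (hmul : ∀ I J, PrimeTo m I → PrimeTo m J → c (I * J) = c I * c J)
    (heq : ∀ I J, PrimeTo m I → PrimeTo m J → (c I = c J ↔ Ray m I J))
    (χ : AddChar (Additive G) ℂ) : HeckeChar K := by
  classical
  exact
  { cond := span {(m : 𝓞 K)}
    cond_ne := by
      rw [Ne, span_singleton_eq_bot]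
      exact_mod_cast hm
    toFun := fun I => if PrimeTo m I then χ (Additive.ofMul (c I)) else 0
    map_mul' := by
      intro I J
      by_cases hI : PrimeTo m I
      · by_cases hJ : PrimeTo m J
        · rw [if_pos hI, if_pos hJ, if_pos (primeTo_mul.2 ⟨hI, hJ⟩), hmul I J hI hJ, ofMul_mul,
            AddChar.map_add_eq_mul]
        · rw [if_neg hJ, if_neg (fun h => hJ (primeTo_mul.1 h).2), mul_zero]
      · rw [if_neg hI, if_neg (fun h => hI (primeTo_mul.1 h).1), zero_mul]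
    norm_eq := by
      intro I hI hI'
      rw [if_pos (show PrimeTo m I from ⟨hI, hI'⟩)]
      exact AddChar.norm_apply χ _
    eq_zero := by
      intro I hI
      rw [if_neg (fun h : PrimeTo m I => hI h.2)]
    n := 0
    t := 0
    principal := by
      intro x hx hx1
      have hp : PrimeTo m (span {x}) :=
        ⟨by rw [Ne, span_singleton_eq_bot]; exact hx, sup_top_of_one hx1⟩
      have h2 : c (span {x}) = c ⊤ := by
        rw [heq _ _ hp (primeTo_top m)]
        exact ⟨1, x, one_ne_zero, hx, one_sub_mem m, hx1, by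
          rw [span_singleton_mul_span_singleton, one_mul, Ideal.mul_top]⟩
      rw [if_pos hp, h2, h1]
      simp [infChar] }

end

/-- **The characters of the ray class group.** -/
theorem ray_characters (K : Type) [Field K] [NumberField K] {m : ℕ} (hm : m ≠ 0)
    {B : Ideal (𝓞 K)} (hB : B ≠ ⊥) (hBm : B ⊔ span {(m : 𝓞 K)} = ⊤) :
    ∃ (ι : Type) (_ : Fintype ι) (χ : ι → HeckeChar K) (c : ι → ℂ),
      (∀ i, (χ i).cond = span {(m : 𝓞 K)} ∧ (χ i).n = 0 ∧ (χ i).t = 0) ∧
      (∀ i, ¬ (χ i).Nontriv → 0 < (c i).re ∧ (c i).im = 0) ∧ (∃ i, ¬ (χ i).Nontriv) ∧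
      (∀ I : Ideal (𝓞 K), I ≠ ⊥ → I ⊔ span {(m : 𝓞 K)} = ⊤ →
        ∑ i, c i * (χ i).toFun I = (open scoped Classical in (if Ray m I B then 1 else 0))) := by
  classical
  obtain ⟨G, _, _, c, h1, hmul, heq⟩ := exists_group K hm
  have hB' : PrimeTo m B := ⟨hB, hBm⟩
  have hcard : (Fintype.card G : ℂ) ≠ 0 := by exact_mod_cast Fintype.card_ne_zero
  refine ⟨AddChar (Additive G) ℂ, inferInstance, fun χ => rayChar hm c h1 hmul heq χ,
    fun χ => χ (Additive.ofMul (c B)⁻¹) / Fintype.card G, fun χ => ⟨rfl, rfl, rfl⟩, ?_, ?_, ?_⟩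
  · intro χ hχ
    have h2 : χ (Additive.ofMul (c B)) = 1 := by
      by_contra hc
      exact hχ ⟨B, hB, hBm, by
        show (if PrimeTo m B then χ (Additive.ofMul (c B)) else 0) ≠ 1
        rw [if_pos hB']
        exact hc⟩
    have h3 : χ (Additive.ofMul (c B)⁻¹) = 1 := by
      rw [ofMul_inv, AddChar.map_neg_eq_conj, h2, map_one]
    have h4 : χ (Additive.ofMul (c B)⁻¹) / Fintype.card G =
        (((Fintype.card G : ℝ)⁻¹ : ℝ) : ℂ) := by
      rw [h3]
      push_cast
      rw [one_div]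
    show 0 < (χ (Additive.ofMul (c B)⁻¹) / Fintype.card G).re ∧
      (χ (Additive.ofMul (c B)⁻¹) / Fintype.card G).im = 0
    rw [h4, Complex.ofReal_re, Complex.ofReal_im]
    have : (0 : ℝ) < Fintype.card G := by exact_mod_cast Fintype.card_pos
    exact ⟨by positivity, rfl⟩
  · refine ⟨1, ?_⟩
    rintro ⟨I, hI, hI', h⟩
    apply h
    show (if PrimeTo m I then (1 : AddChar (Additive G) ℂ) (Additive.ofMul (c I)) else 0) = 1
    rw [if_pos ⟨hI, hI'⟩]
    exact AddChar.one_apply _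
  · intro I hI hI'
    have hI2 : PrimeTo m I := ⟨hI, hI'⟩
    have hval : ∀ χ : AddChar (Additive G) ℂ, (rayChar hm c h1 hmul heq χ).toFun I =
        χ (Additive.ofMul (c I)) := fun χ => if_pos hI2
    have hR1 : Ray m I B ↔ Additive.ofMul (c I * (c B)⁻¹) = 0 := by
      rw [← heq I B hI2 hB']
      show _ ↔ c I * (c B)⁻¹ = 1
      rw [mul_inv_eq_one]
    calc ∑ χ : AddChar (Additive G) ℂ, χ (Additive.ofMul (c B)⁻¹) / Fintype.card G *
          (rayChar hm c h1 hmul heq χ).toFun I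
        = ∑ χ : AddChar (Additive G) ℂ, χ (Additive.ofMul (c I * (c B)⁻¹)) / Fintype.card G := by
          refine Finset.sum_congr rfl fun χ _ => ?_
          rw [hval, ofMul_mul, AddChar.map_add_eq_mul]
          ring
      _ = (if Ray m I B then 1 else 0) := by
          rw [← Finset.sum_div, AddChar.sum_apply_eq_ite]
          by_cases h : Ray m I B
          · rw [if_pos h, if_pos (hR1.1 h)]
            have : (Fintype.card (Additive G) : ℂ) = Fintype.card G := by
              rw [Fintype.card_additive]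
            rw [this, div_self hcard]
          · rw [if_neg h, if_neg (fun h' => h (hR1.2 h')), zero_div]

end Pool.Agent.Mukai.RF
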