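import Pool.Agent.Work.MP_1e087a_ag.Q.M2D
import Pool.Agent.Work.MP_1e087a_ag.Q.Odd
import Pool.Agent.Work.MP_1e087a_ag.F.M1
import Pool.Agent.Work.MP_1e087a_ag.F.Emb

set_option autoImplicit false

/-!
Primes of prime norm in ray classes, with a condition on the norm; prime elements of the order.
-/

namespace Pool.Agent.Mukai.RF

open NumberField Ideal Filter Topology IsDedekindDomain RQ
open Pool.Agent.Work.MP_2b9663_nt Pool.Agent.Work.MP_2b9663_nt.He

/-- **Primes in ray classes with a condition on the norm.** -/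
theorem exists_prime {K : Type} [Field K] [NumberField K]
    (hreal : ∀ w : InfinitePlace K, w.IsReal) {m M0 : ℕ} (hm : m ≠ 0)
    (hM0 : 1 < M0) (ψ : DirichletCharacter ℂ M0) (hψ : ψ.Odd) {x : 𝓞 K}
    (hx : x - 1 ∈ span {((m * M0 : ℕ) : 𝓞 K)}) (hneg : Algebra.norm ℤ x < 0)
    {B : Ideal (𝓞 K)} (hB0 : B ≠ ⊥) (hB : B ⊔ span {(m : 𝓞 K)} = ⊤) (X : ℕ) :
    ∃ v : HeightOneSpectrum (𝓞 K), (absNorm v.asIdeal).Prime ∧ X < absNorm v.asIdeal ∧
      ((absNorm v.asIdeal : ℕ) : ZMod M0) ≠ 1 ∧ Ray m v.asIdeal B := by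
  classical
  obtain ⟨ι, _, χ, c, h1, h2, h3, h4⟩ := ray_characters K hm hB0 hB
  refine exists_prime_family hreal hm hM0 ψ hψ hx hneg χ c h1 (fun i hi => (h2 i hi).1) h3
    (fun I => Ray m I B) (fun I hI hI' hP => ?_) X
  have h5 := h4 I hI hI'
  rwa [if_neg hP] at h5

/-- **Prime elements of the order in residue classes.** -/
theorem prime_elts_fact (n B C : ℤ) [Fact (∀ r : ℚ, r ^ 2 ≠ (-(n * C : ℤ) : ℚ) + (B : ℚ) * r)]
    (hD : 0 < B ^ 2 - 4 * n * C) (hn : n ≠ 0) : PrimeElts n B C := by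
  refine prime_elts_of n B C hD.ne' hn Ray (fun m I J h => ?_) ?_
  · exact h
  · intro m M hm hM I hI hIm X
    obtain ⟨ψ, hψ⟩ := exists_odd hM
    obtain ⟨x, hx, hneg⟩ := exists_neg (n := n) (B := B) (C := C) hD (m * M)
      (Nat.mul_ne_zero (by omega) (by omega))
    obtain ⟨v, h1, h2, h3, h4⟩ := exists_prime (real_places hD) (by omega) (by omega) ψ hψ hx hneg
      hI hIm X
    exact ⟨v.asIdeal, h1, h2, h3, h4⟩

/-- **Prime elements of the order in residue classes.** -/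
theorem prime_elts (n B C : ℤ) (hD : 0 < B ^ 2 - 4 * n * C) (hDs : ¬ IsSquare (B ^ 2 - 4 * n * C))
    (hn : n ≠ 0) : PrimeElts n B C := by
  have : Fact (∀ r : ℚ, r ^ 2 ≠ (-(n * C : ℤ) : ℚ) + (B : ℚ) * r) := ⟨fun r hr => by
    apply hDs
    have h1 : IsSquare (((B ^ 2 - 4 * n * C : ℤ) : ℚ)) := by
      refine ⟨2 * r - B, ?_⟩
      push_cast at hr ⊢
      linear_combination (-4) * hr
    exact Rat.isSquare_intCast_iff.1 h1⟩
  exact prime_elts_fact n B C hD hn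

end Pool.Agent.Mukai.RF
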