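import Pool.Agent.Work.MP_1e087a_ag.F.Defs

set_option autoImplicit false

/-!
The powers of a unit of infinite order are dense in the units congruent to one in the completion
at a prime of degree one.
-/

namespace Pool.Agent.Mukai.RF.Pad

open QuadraticAlgebra Finset

variable {n B C : ℤ}

theorem norm_ord (z : Ord n B C) : norm z = z.re ^ 2 + B * z.re * z.im + n * C * z.im ^ 2 := by
  rw [norm_def]; ring

theorem mul_star_ord (z : Ord n B C) : z * star z = ((norm z : ℤ) : Ord n B C) := by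
  rw [← algebraMap_norm_eq_mul_star]; rfl

/-- the norm of a nontrivial unit minus one is not zero -/
theorem norm_sub_one_ne {u : Ord n B C} (hD : B ^ 2 - 4 * n * C ≠ 0) (hu : norm u = 1)
    (h1 : u ≠ 1) : norm (u - 1) ≠ 0 := by
  intro h0
  apply h1
  rw [norm_ord] at hu h0
  have hre : (u - 1).re = u.re - 1 := by
    rw [re_sub]; rfl
  have him : (u - 1).im = u.im := by
    rw [im_sub]; show u.im - 0 = u.im; ring
  rw [hre, him] at h0
  have h2 : B * u.im = 2 - 2 * u.re := by linear_combination -h0 + hu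
  have h3 : u.im ^ 2 * (B ^ 2 - 4 * n * C) = 0 := by
    linear_combination (-4) * hu + (B * u.im + 2 - 2 * u.re + 4 * u.re) * h2
  have h4 : u.im = 0 := by
    rcases mul_eq_zero.mp h3 with h | h
    · exact pow_eq_zero_iff (two_ne_zero) |>.mp h
    · exact absurd h hD
  have h5 : u.re = 1 := by
    rw [h4] at h2; linarith
  ext
  · rw [h5]; rfl
  · rw [h4]; rfl

section prime

variable {p : ℕ} {π : Ord n B C}

theorem p_dvd_norm (hπ : (norm π).natAbs = p) {x : Ord n B C} (h : π ∣ x) : (p : ℤ) ∣ norm x := by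
  have h1 : norm π ∣ norm x := map_dvd QuadraticAlgebra.norm h
  rw [← hπ]
  exact Int.natAbs_dvd.mpr h1

theorem p_eq (hπ : (norm π).natAbs = p) :
    ((p : ℤ) : Ord n B C) = π * star π ∨ ((p : ℤ) : Ord n B C) = -(π * star π) := by
  rw [mul_star_ord]
  rcases Int.natAbs_eq (norm π) with h | h
  · left; rw [hπ] at h; rw [h]
  · right; rw [hπ] at h; rw [h]; push_cast; ring

theorem pi_dvd_p (hπ : (norm π).natAbs = p) : π ∣ ((p : ℤ) : Ord n B C) := by
  rcases p_eq hπ with h | h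
  · rw [h]; exact Dvd.intro _ rfl
  · rw [h]; exact (Dvd.intro _ rfl : π ∣ π * star π).neg_right

theorem pi_not_dvd_im (hp : p.Prime) (hπ : (norm π).natAbs = p) : ¬ (p : ℤ) ∣ π.im := by
  intro h
  have hpp : Prime (p : ℤ) := Nat.prime_iff_prime_int.mp hp
  have h1 : (p : ℤ) ∣ norm π := by
    rw [← hπ]; exact Int.natAbs_dvd.mpr dvd_rfl
  have h2 : (p : ℤ) ∣ π.re ^ 2 := by
    have : π.re ^ 2 = norm π - π.im * (B * π.re + n * C * π.im) := by rw [norm_ord]; ring
    rw [this]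
    exact dvd_sub h1 (h.mul_right _)
  have h3 : (p : ℤ) ∣ π.re := hpp.dvd_of_dvd_pow h2
  obtain ⟨a, ha⟩ := h3
  obtain ⟨b, hb⟩ := h
  have h4 : (p : ℤ) ^ 2 ∣ norm π := by
    rw [norm_ord, ha, hb]
    exact ⟨a ^ 2 + B * a * b + n * C * b ^ 2, by ring⟩
  have h5 : p ^ 2 ∣ (norm π).natAbs := by
    have := Int.natAbs_dvd_natAbs.mpr h4
    rwa [Int.natAbs_pow, Int.natAbs_natCast] at this
  rw [hπ] at h5
  have h6 := Nat.le_of_dvd hp.pos h5
  nlinarith [hp.two_le]

theorem exists_int (hp : p.Prime) (hπ : (norm π).natAbs = p) (x : Ord n B C) :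
    ∃ a : ℤ, π ∣ x - (a : Ord n B C) := by
  have hpp : Prime (p : ℤ) := Nat.prime_iff_prime_int.mp hp
  have hc : IsCoprime (p : ℤ) π.im :=
    (Irreducible.coprime_iff_not_dvd hpp.irreducible).mpr (pi_not_dvd_im hp hπ)
  obtain ⟨k, t, hkt⟩ := hc
  -- `t * im = 1 - k * p`
  refine ⟨x.re - x.im * π.re * t, ?_⟩
  have h1 : x - ((x.re - x.im * π.re * t : ℤ) : Ord n B C) =
      (x.im : Ord n B C) * ((t : Ord n B C) * π + (k : Ord n B C) * ((p : ℤ) : Ord n B C) * omega)
        := by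
    ext
    · simp
      ring
    · simp
      linear_combination -x.im * hkt
  rw [h1]
  apply Dvd.dvd.mul_left
  apply dvd_add
  · exact Dvd.intro_left _ rfl
  · exact ((pi_dvd_p hπ).mul_left _).mul_right _

theorem pi_dvd_int (hp : p.Prime) (hπ : (norm π).natAbs = p) (a : ℤ) :
    π ∣ (a : Ord n B C) ↔ (p : ℤ) ∣ a := by
  have hpp : Prime (p : ℤ) := Nat.prime_iff_prime_int.mp hp
  constructor
  · intro h
    have := p_dvd_norm hπ h
    rw [norm_intCast] at this
    exact hpp.dvd_of_dvd_pow this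
  · rintro ⟨b, rfl⟩
    push_cast
    have := (pi_dvd_p hπ).mul_right (b : Ord n B C)
    simpa using this

theorem pi_prime (hp : p.Prime) (hπ : (norm π).natAbs = p) {x y : Ord n B C} (h : π ∣ x * y) :
    π ∣ x ∨ π ∣ y := by
  have hpp : Prime (p : ℤ) := Nat.prime_iff_prime_int.mp hp
  obtain ⟨a, ha⟩ := exists_int hp hπ x
  obtain ⟨b, hb⟩ := exists_int hp hπ y
  have h1 : π ∣ ((a * b : ℤ) : Ord n B C) := by
    have : ((a * b : ℤ) : Ord n B C) = x * y - (x - a) * y - (a : Ord n B C) * (y - b) := by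
      push_cast; ring
    rw [this]
    exact dvd_sub (dvd_sub h (ha.mul_right _)) (hb.mul_left _)
  rw [pi_dvd_int hp hπ] at h1
  rcases hpp.dvd_or_dvd h1 with h2 | h2
  · left
    have h3 := (pi_dvd_int hp hπ a).mpr h2
    have := dvd_add ha h3
    simpa using this
  · right
    have h3 := (pi_dvd_int hp hπ b).mpr h2
    have := dvd_add hb h3
    simpa using this

theorem pi_not_dvd_star (hp : p.Prime) (hπ : (norm π).natAbs = p)
    (hD : ¬ (p : ℤ) ∣ B ^ 2 - 4 * n * C) : ¬ π ∣ star π := by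
  intro h
  have hpp : Prime (p : ℤ) := Nat.prime_iff_prime_int.mp hp
  have h1 : π ∣ π - star π := dvd_sub dvd_rfl h
  have h2 := p_dvd_norm hπ h1
  have h3 : norm (π - star π) = -(π.im ^ 2 * (B ^ 2 - 4 * n * C)) := by
    rw [norm_ord]
    simp
    ring
  rw [h3, dvd_neg] at h2
  rcases hpp.dvd_or_dvd h2 with h4 | h4
  · exact pi_not_dvd_im hp hπ (hpp.dvd_of_dvd_pow h4)
  · exact hD h4

theorem pi_cancel (hp : p.Prime) (hπ : (norm π).natAbs = p) {x y : Ord n B C}
    (h : π * x = π * y) : x = y := by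
  have h1 : ((norm π : ℤ) : Ord n B C) * x = ((norm π : ℤ) : Ord n B C) * y := by
    rw [← mul_star_ord]
    linear_combination star π * h
  have h0 : norm π ≠ 0 := by
    intro h0
    rw [h0] at hπ
    exact hp.ne_zero hπ.symm
  have hre := congrArg re h1
  have him := congrArg im h1
  simp at hre him
  ext
  · rcases hre with h | h
    · exact h
    · exact absurd h h0
  · rcases him with h | h
    · exact h
    · exact absurd h h0

theorem pi_pow_cancel (hp : p.Prime) (hπ : (norm π).natAbs = p) (m : ℕ) {x y : Ord n B C}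
    (h : π ^ m * x = π ^ m * y) : x = y := by
  induction m with
  | zero => simpa using h
  | succ m ih =>
    apply ih
    apply pi_cancel hp hπ
    rw [← mul_assoc, ← mul_assoc, ← pow_succ']
    exact h

theorem pi_pow_dvd_cancel (hp : p.Prime) (hπ : (norm π).natAbs = p) (m k : ℕ) {x : Ord n B C}
    (h : π ^ (m + k) ∣ π ^ m * x) : π ^ k ∣ x := by
  obtain ⟨y, hy⟩ := h
  refine ⟨y, pi_pow_cancel hp hπ m ?_⟩
  rw [hy, pow_add, mul_assoc]

theorem pi_not_dvd_of_norm_one (hp : p.Prime) (hπ : (norm π).natAbs = p) {u : Ord n B C}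
    (hu : norm u = 1) : ¬ π ∣ u := by
  intro h
  have := p_dvd_norm hπ h
  rw [hu] at this
  have h1 : (p : ℤ) ≤ 1 := Int.le_of_dvd one_pos this
  have := hp.two_le
  omega

/-- the geometric sum is exactly divisible by `π` -/
theorem geom (hp : p.Prime) (hp2 : p ≠ 2) (hπ : (norm π).natAbs = p)
    (hD : ¬ (p : ℤ) ∣ B ^ 2 - 4 * n * C) {y : Ord n B C} (hy : π ∣ y) :
    ∃ s : Ord n B C, ∑ i ∈ range p, (1 + y) ^ i = π * s ∧ ¬ π ∣ s := by
  obtain ⟨h, hh⟩ := (hp.odd_of_ne_two hp2)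
  have h1 : ∀ i : ℕ, ∃ c : Ord n B C, (1 + y) ^ i = 1 + (i : Ord n B C) * y + y ^ 2 * c := by
    intro i
    induction i with
    | zero => exact ⟨0, by simp⟩
    | succ i ih =>
      obtain ⟨c, hc⟩ := ih
      refine ⟨c + (i : Ord n B C) + y * c, ?_⟩
      rw [pow_succ, hc]
      push_cast
      ring
  choose c hc using h1
  have h2 : ∑ i ∈ range p, (1 + y) ^ i =
      ((p : ℤ) : Ord n B C) + ((p * h : ℕ) : Ord n B C) * y + y ^ 2 * ∑ i ∈ range p, c i := by
    simp_rw [hc]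
    rw [sum_add_distrib, sum_add_distrib, ← sum_mul, ← mul_sum]
    congr 2
    · simp
    · congr 1
      rw [← Nat.cast_sum]
      congr 1
      have h3 := Finset.sum_range_id_mul_two p
      have h4 : p - 1 = h * 2 := by omega
      rw [h4, ← mul_assoc] at h3
      exact Nat.eq_of_mul_eq_mul_right two_pos h3
  obtain ⟨w, hw⟩ := hy
  obtain ⟨q, hq⟩ : ∃ q : Ord n B C, ((p : ℤ) : Ord n B C) = π * q ∧ ¬ π ∣ q := by
    rcases p_eq hπ with h | h
    · exact ⟨star π, h, pi_not_dvd_star hp hπ hD⟩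
    · refine ⟨-star π, by rw [h]; ring, ?_⟩
      rw [dvd_neg]
      exact pi_not_dvd_star hp hπ hD
  refine ⟨q + π * (q * (h : Ord n B C) * w + w ^ 2 * ∑ i ∈ range p, c i), ?_, ?_⟩
  · rw [h2]
    have hq1 := hq.1
    have h5 : ((p * h : ℕ) : Ord n B C) = ((p : ℤ) : Ord n B C) * (h : Ord n B C) := by
      push_cast; ring
    rw [h5, hq1, hw]
    ring
  · intro hd
    apply hq.2
    have := dvd_sub hd (Dvd.intro (q * (h : Ord n B C) * w + w ^ 2 * ∑ i ∈ range p, c i) rfl :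
      π ∣ π * (q * (h : Ord n B C) * w + w ^ 2 * ∑ i ∈ range p, c i))
    simpa using this

/-- lifting the exponent -/
theorem lte (hp : p.Prime) (hp2 : p ≠ 2) (hπ : (norm π).natAbs = p)
    (hD : ¬ (p : ℤ) ∣ B ^ 2 - 4 * n * C) {x : Ord n B C} {m : ℕ} (hm : 1 ≤ m)
    (h1 : π ^ m ∣ x - 1) (h2 : ¬ π ^ (m + 1) ∣ x - 1) :
    π ^ (m + 1) ∣ x ^ p - 1 ∧ ¬ π ^ (m + 1 + 1) ∣ x ^ p - 1 := by
  obtain ⟨w, hw⟩ := h1
  have hy : π ∣ x - 1 := by
    rw [hw]
    exact (dvd_pow_self π (by omega)).mul_right _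
  have hwn : ¬ π ∣ w := by
    intro h
    apply h2
    rw [hw, pow_succ]
    exact mul_dvd_mul_left _ h
  obtain ⟨s, hs, hsn⟩ := geom hp hp2 hπ hD hy
  have h3 : x ^ p - 1 = π ^ (m + 1) * (w * s) := by
    have h4 : (x - 1) * ∑ i ∈ range p, x ^ i = x ^ p - 1 := mul_geom_sum x p
    rw [← h4]
    rw [show (1 : Ord n B C) + (x - 1) = x from by ring] at hs
    rw [hs, hw, pow_succ]
    ring
  constructor
  · rw [h3]; exact Dvd.intro _ rfl
  · intro h
    rw [h3] at h
    have h5 := pi_pow_dvd_cancel hp hπ (m + 1) 1 h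
    rw [pow_one] at h5
    rcases pi_prime hp hπ h5 with h | h
    · exact hwn h
    · exact hsn h

theorem pow_dvd_norm (hπ : (norm π).natAbs = p) {x : Ord n B C} {k : ℕ} (h : π ^ k ∣ x) :
    p ^ k ∣ (norm x).natAbs := by
  have h1 : norm (π ^ k) ∣ norm x := map_dvd QuadraticAlgebra.norm h
  rw [map_pow] at h1
  have h2 := Int.natAbs_dvd_natAbs.mpr h1
  rwa [Int.natAbs_pow, hπ] at h2

/-- the powers of a unit of infinite order congruent to one, with all precisions -/
theorem exact_powers (hp : p.Prime) (hp2 : p ≠ 2) (hπ : (norm π).natAbs = p)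
    (hD : ¬ (p : ℤ) ∣ B ^ 2 - 4 * n * C) {ε : Ord n B C} (hε : norm ε = 1)
    (hinf : ∀ i : ℕ, i ≠ 0 → ε ^ i ≠ 1) :
    ∃ c : ℕ, 1 ≤ c ∧ ∀ m : ℕ, c ≤ m → ∃ k : ℕ, π ^ m ∣ ε ^ k - 1 ∧ ¬ π ^ (m + 1) ∣ ε ^ k - 1 := by
  classical
  have hpp : Prime (p : ℤ) := Nat.prime_iff_prime_int.mp hp
  have hD0 : B ^ 2 - 4 * n * C ≠ 0 := by
    intro h; apply hD; rw [h]; exact dvd_zero _
  -- the first power
  obtain ⟨a, ha⟩ := exists_int hp hπ ε
  have han : ¬ (p : ℤ) ∣ a := by
    intro h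
    have h1 := (pi_dvd_int hp hπ a).mpr h
    have h2 := dvd_add ha h1
    rw [sub_add_cancel] at h2
    exact pi_not_dvd_of_norm_one hp hπ hε h2
  have h1 : π ∣ ε ^ (p - 1) - 1 := by
    have h2 : π ∣ ε ^ (p - 1) - (a : Ord n B C) ^ (p - 1) := ha.trans (sub_dvd_pow_sub_pow _ _ _)
    have h3 : (p : ℤ) ∣ a ^ (p - 1) - 1 := by
      have hc : IsCoprime a (p : ℤ) :=
        ((Irreducible.coprime_iff_not_dvd hpp.irreducible).mpr han).symm
      exact (Int.ModEq.pow_card_sub_one_eq_one hp hc).symm.dvd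
    have h4 := (pi_dvd_int hp hπ _).mpr h3
    push_cast at h4
    have := dvd_add h2 h4
    simpa using this
  have hne : norm (ε ^ (p - 1) - 1) ≠ 0 := by
    apply norm_sub_one_ne hD0
    · rw [map_pow, hε, one_pow]
    · apply hinf
      have := hp.two_le
      omega
  have hex : ∃ c : ℕ, ¬ π ^ (c + 1) ∣ ε ^ (p - 1) - 1 := by
    refine ⟨(norm (ε ^ (p - 1) - 1)).natAbs, fun h => ?_⟩
    have h2 := pow_dvd_norm hπ h
    have h3 := Nat.le_of_dvd (Int.natAbs_pos.mpr hne) h2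
    have h4 : (norm (ε ^ (p - 1) - 1)).natAbs < p ^ (norm (ε ^ (p - 1) - 1)).natAbs :=
      Nat.lt_pow_self hp.one_lt
    have h5 : p ^ (norm (ε ^ (p - 1) - 1)).natAbs ≤ p ^ ((norm (ε ^ (p - 1) - 1)).natAbs + 1) :=
      Nat.pow_le_pow_right hp.pos (Nat.le_succ _)
    omega
  set c := Nat.find hex with hcdef
  have hc1 : ¬ π ^ (c + 1) ∣ ε ^ (p - 1) - 1 := Nat.find_spec hex
  have hc0 : c ≠ 0 := by
    intro h
    rw [h, zero_add, pow_one] at hc1
    exact hc1 h1
  have hc2 : π ^ c ∣ ε ^ (p - 1) - 1 := by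
    have h2 : c - 1 < Nat.find hex := by omega
    have h3 := Nat.find_min hex h2
    rw [not_not, show c - 1 + 1 = c from by omega] at h3
    exact h3
  refine ⟨c, Nat.one_le_iff_ne_zero.mpr hc0, fun m hm => ?_⟩
  induction m, hm using Nat.le_induction with
  | base => exact ⟨p - 1, hc2, hc1⟩
  | succ m hm ih =>
    obtain ⟨k, hk1, hk2⟩ := ih
    refine ⟨k * p, ?_⟩
    rw [pow_mul]
    exact lte hp hp2 hπ hD (by omega) hk1 hk2

/-- the density of the powers of a unit in the completion at a prime of degree one -/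
theorem _root_.Pool.Agent.Mukai.RF.padic (n B C : ℤ) : Padic n B C := by
  intro p π ε hp hp2 hπ hD hε hinf
  have hpp : Prime (p : ℤ) := Nat.prime_iff_prime_int.mp hp
  obtain ⟨c, hc1, hc⟩ := exact_powers hp hp2 hπ hD hε hinf
  refine ⟨c, fun m α α' hm hα hαα' => ?_⟩
  induction m, hm using Nat.le_induction with
  | base => exact ⟨0, by simpa using hαα'⟩
  | succ m hm ih =>
    obtain ⟨i, β, hβ⟩ := ih
    obtain ⟨k, ⟨w, hw⟩, hk2⟩ := hc m hm
    have hwn : ¬ π ∣ w := by
      intro h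
      apply hk2
      rw [hw, pow_succ]
      exact mul_dvd_mul_left _ h
    have hεi : ¬ π ∣ ε ^ i := by
      apply pi_not_dvd_of_norm_one hp hπ
      rw [map_pow, hε, one_pow]
    obtain ⟨g, hg⟩ := exists_int hp hπ (w * (ε ^ i * α))
    obtain ⟨b, hb⟩ := exists_int hp hπ β
    have hgn : ¬ (p : ℤ) ∣ g := by
      intro h
      have h1 := (pi_dvd_int hp hπ g).mpr h
      have h2 := dvd_add hg h1
      rw [sub_add_cancel] at h2
      rcases pi_prime hp hπ h2 with h3 | h3
      · exact hwn h3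
      · rcases pi_prime hp hπ h3 with h4 | h4
        · exact hεi h4
        · exact hα h4
    obtain ⟨s, hs⟩ : ∃ s : ℕ, (p : ℤ) ∣ b + s * g := by
      have hcop : IsCoprime (p : ℤ) g :=
        (Irreducible.coprime_iff_not_dvd hpp.irreducible).mpr hgn
      obtain ⟨u, v, huv⟩ := hcop
      have hp0 : (p : ℤ) ≠ 0 := by exact_mod_cast hp.ne_zero
      refine ⟨((-(b * v)) % (p : ℤ)).toNat, ?_⟩
      rw [Int.toNat_of_nonneg (Int.emod_nonneg _ hp0)]
      have h1 : (p : ℤ) ∣ (-(b * v)) % (p : ℤ) - (-(b * v)) := by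
        rw [← dvd_neg, neg_sub]
        exact Int.dvd_self_sub_emod
      obtain ⟨r, hr⟩ := h1
      refine ⟨r * g + b * u, ?_⟩
      linear_combination g * hr - b * huv
    refine ⟨k * s + i, ?_⟩
    have h1 : ∀ j : ℕ, ∃ d : Ord n B C, (1 + π ^ m * w) ^ j =
        1 + (j : Ord n B C) * (π ^ m * w) + (π ^ m * w) ^ 2 * d := by
      intro j
      induction j with
      | zero => exact ⟨0, by simp⟩
      | succ j ih =>
        obtain ⟨d, hd⟩ := ih
        refine ⟨d + (j : Ord n B C) + (π ^ m * w) * d, ?_⟩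
        rw [pow_succ, hd]
        push_cast
        ring
    obtain ⟨d, hd⟩ := h1 s
    have h2 : ε ^ (k * s + i) * α - α' =
        π ^ m * (β + (s : Ord n B C) * (w * (ε ^ i * α))) +
          π ^ m * π ^ m * (w ^ 2 * d * (ε ^ i * α)) := by
      have h3 : ε ^ k = 1 + π ^ m * w := by rw [← hw]; ring
      rw [pow_add, pow_mul, h3, hd]
      linear_combination hβ
    rw [h2]
    apply dvd_add
    · rw [pow_succ]
      apply mul_dvd_mul_left
      have h3 : β + (s : Ord n B C) * (w * (ε ^ i * α)) =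
          (β - b) + (s : Ord n B C) * (w * (ε ^ i * α) - g) + ((b + s * g : ℤ) : Ord n B C) := by
        push_cast; ring
      rw [h3]
      exact dvd_add (dvd_add hb (hg.mul_left _)) ((pi_dvd_int hp hπ _).mpr hs)
    · apply Dvd.dvd.mul_right
      rw [← pow_add]
      exact pow_dvd_pow _ (by omega)

end prime

end Pool.Agent.Mukai.RF.Pad
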