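import Pool.Agent.Work.MP_1e087a_ag.F.Mat
import Pool.Agent.Work.MP_1e087a_ag.F.Engine2
import Pool.Agent.Work.MP_1e087a_ag.F.M2
import Pool.Agent.Work.MP_1e087a_ag.F.Padic

set_option autoImplicit false

/-!
# All matrices

Every isometry of the Mukai lattice given by a matrix of determinant one is in the group generated
by the reflections and the twists.
-/

namespace Pool.Agent.Mukai.RF.Rw

open Pool.Agent.Mukai

/-! ### Change of basis -/

section cb

variable {n B C : ℤ} {a b : ℤ × ℤ}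

/-- the shift of the generator of the order -/
def kb (n B C : ℤ) (a b : ℤ × ℤ) : ℤ := n * a.1 * b.1 + B * a.2 * b.1 + C * a.2 * b.2

theorem kb_two (h : a.1 * b.2 - a.2 * b.1 = 1) : pf n B C a b = B + 2 * kb n B C a b := by
  simp only [pf, kb]
  linear_combination B * h

/-- the isomorphism of the orders -/
def phi (a b : ℤ × ℤ) (α : Ord (qf n B C a) (pf n B C a b) (qf n B C b)) : Ord n B C :=
  ⟨α.re + kb n B C a b * α.im, α.im⟩

theorem phi_mul (h : a.1 * b.2 - a.2 * b.1 = 1)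
    (α β : Ord (qf n B C a) (pf n B C a b) (qf n B C b)) :
    phi a b (α * β) = phi a b α * phi a b β := by
  have h1 := kb_two (n := n) (B := B) (C := C) h
  have h2 : qf n B C a * qf n B C b = kb n B C a b * (B + kb n B C a b) + n * C := by
    simp only [qf, kb]
    linear_combination (n * C * (a.1 * b.2 - a.2 * b.1 + 1) +
      B * (n * a.1 * b.1 + B * a.2 * b.1 + C * a.2 * b.2)) * h
  ext
  · simp only [phi, QuadraticAlgebra.re_mul, QuadraticAlgebra.im_mul, h1]
    linear_combination (-α.im * β.im) * h2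
  · simp only [phi, QuadraticAlgebra.im_mul, h1]
    ring

theorem phi_one : phi a b (1 : Ord (qf n B C a) (pf n B C a b) (qf n B C b)) = 1 := by
  ext
  · simp [phi, QuadraticAlgebra.re_one, QuadraticAlgebra.im_one]
  · simp [phi, QuadraticAlgebra.im_one]

theorem phi_sub (α β : Ord (qf n B C a) (pf n B C a b) (qf n B C b)) :
    phi a b (α - β) = phi a b α - phi a b β := by
  ext
  · simp only [phi, QuadraticAlgebra.re_sub, QuadraticAlgebra.im_sub]
    ring
  · simp only [phi, QuadraticAlgebra.im_sub]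

theorem phi_inj {α β : Ord (qf n B C a) (pf n B C a b) (qf n B C b)}
    (h : phi a b α = phi a b β) : α = β := by
  have h1 := congrArg QuadraticAlgebra.im h
  have h2 := congrArg QuadraticAlgebra.re h
  simp only [phi] at h1 h2
  ext
  · rw [h1] at h2
    linarith
  · exact h1

theorem phi_surj (α : Ord n B C) :
    ∃ α' : Ord (qf n B C a) (pf n B C a b) (qf n B C b), phi a b α' = α := by
  refine ⟨⟨α.re - kb n B C a b * α.im, α.im⟩, ?_⟩
  ext
  · simp only [phi]
    ring
  · rfl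

theorem nm_phi (h : a.1 * b.2 - a.2 * b.1 = 1)
    (α : Ord (qf n B C a) (pf n B C a b) (qf n B C b)) : nm (phi a b α) = nm α := by
  have h1 := kb_two (n := n) (B := B) (C := C) h
  have h2 : qf n B C a * qf n B C b = kb n B C a b * (B + kb n B C a b) + n * C := by
    simp only [qf, kb]
    linear_combination (n * C * (a.1 * b.2 - a.2 * b.1 + 1) +
      B * (n * a.1 * b.1 + B * a.2 * b.1 + C * a.2 * b.2)) * h
  simp only [nm, phi, h1]
  linear_combination (-α.im ^ 2) * h2

theorem tc_phi (h : a.1 * b.2 - a.2 * b.1 = 1)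
    (α : Ord (qf n B C a) (pf n B C a b) (qf n B C b)) : tc (phi a b α) = tc α := by
  have h1 := kb_two (n := n) (B := B) (C := C) h
  simp only [tc, phi, h1]
  ring

theorem cj_phi (h : a.1 * b.2 - a.2 * b.1 = 1)
    (α : Ord (qf n B C a) (pf n B C a b) (qf n B C b)) : cj (phi a b α) = phi a b (cj α) := by
  have h1 := kb_two (n := n) (B := B) (C := C) h
  ext
  · simp only [cj, phi, h1]
    ring
  · simp only [cj, phi]

theorem Hf_cb (h : a.1 * b.2 - a.2 * b.1 = 1) (x y : ℤ × ℤ) :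
    Hf n B C (cb a b x) (cb a b y) =
      phi a b (Hf (qf n B C a) (pf n B C a b) (qf n B C b) x y) := by
  ext
  · simp only [Hf, phi, cb, qf, pf, kb]
    ring
  · simp only [Hf, phi, cb]
    linear_combination (x.2 * y.1 - x.1 * y.2) * h

theorem cb_em (h : a.1 * b.2 - a.2 * b.1 = 1)
    (α : Ord (qf n B C a) (pf n B C a b) (qf n B C b)) (x : ℤ × ℤ) :
    cb a b (em α x) = em (phi a b α) (cb a b x) := by
  ext
  · simp only [em, phi, cb, qf, pf, kb]
    linear_combination (-α.im * C * (x.1 * a.2 + x.2 * b.2)) * h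
  · simp only [em, phi, cb, qf, pf, kb]
    linear_combination (α.im * (n * (x.1 * a.1 + x.2 * b.1) + x.1 * B * a.2 + x.2 * B * b.2)) * h

theorem cb_add (x y : ℤ × ℤ) : cb a b (x + y) = cb a b x + cb a b y := by
  ext
  · simp only [cb, Prod.fst_add, Prod.snd_add]
    ring
  · simp only [cb, Prod.fst_add, Prod.snd_add]
    ring

theorem cb_smul (k : ℤ) (x : ℤ × ℤ) : cb a b (k • x) = k • cb a b x := by
  ext
  · simp only [cb, Prod.smul_fst, Prod.smul_snd, smul_eq_mul]
    ring
  · simp only [cb, Prod.smul_fst, Prod.smul_snd, smul_eq_mul]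
    ring

/-- the change of basis of the Mukai lattice -/
def Jb (a b : ℤ × ℤ) (h : a.1 * b.2 - a.2 * b.1 = 1) : Au :=
  AddEquiv.toIntLinearEquiv
  { toFun := fun x => (x.1, x.2.1, cb a b x.2.2)
    invFun := fun x => (x.1, x.2.1, cb (b.2, -a.2) (-b.1, a.1) x.2.2)
    left_inv := by
      intro x
      simp only [cb_inv' h]
    right_inv := by
      intro x
      simp only [cb_inv h]
    map_add' := by
      intro x y
      simp only [Prod.fst_add, Prod.snd_add, cb_add]
      rfl }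

theorem Jb_apply (h : a.1 * b.2 - a.2 * b.1 = 1) (x : Mu) :
    Jb a b h x = (x.1, x.2.1, cb a b x.2.2) := rfl

theorem Jb_act (h : a.1 * b.2 - a.2 * b.1 = 1)
    (α : Ord (qf n B C a) (pf n B C a b) (qf n B C b)) (β γ : ℤ × ℤ)
    (δ : Ord (qf n B C a) (pf n B C a b) (qf n B C b)) (x : Mu) :
    Jb a b h (act α β γ δ x) =
      act (phi a b α) (cb a b β) (cb a b γ) (phi a b δ) (Jb a b h x) := by
  rw [Jb_apply, Jb_apply]
  simp only [act, Hf_cb h, cb_em h, nm_phi h, qf_cb, cj_phi h, ← phi_mul h, tc_phi h, cb_add,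
    cb_smul]

theorem dt_phi (h : a.1 * b.2 - a.2 * b.1 = 1)
    (α : Ord (qf n B C a) (pf n B C a b) (qf n B C b)) (β γ : ℤ × ℤ)
    (δ : Ord (qf n B C a) (pf n B C a b) (qf n B C b)) :
    dt (phi a b α) (cb a b β) (cb a b γ) (phi a b δ) = phi a b (dt α β γ δ) := by
  rw [dt, dt, Hf_cb h, ← phi_mul h, phi_sub]

theorem Jb_Qf (h : a.1 * b.2 - a.2 * b.1 = 1) (v : Mu) :
    Qf n B C (Jb a b h v) = Qf (qf n B C a) (pf n B C a b) (qf n B C b) v := by
  rw [Jb_apply]
  simp only [Qf, qf_cb]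

theorem Jb_Pf (h : a.1 * b.2 - a.2 * b.1 = 1) (v w : Mu) :
    Pf n B C (Jb a b h v) (Jb a b h w) = Pf (qf n B C a) (pf n B C a b) (qf n B C b) v w := by
  rw [Jb_apply, Jb_apply]
  simp only [Pf, pf_cb]

theorem Jb_conj_mem (h : a.1 * b.2 - a.2 * b.1 = 1) {g : Au}
    (hg : g ∈ Wp (qf n B C a) (pf n B C a b) (qf n B C b)) :
    Jb a b h * g * (Jb a b h)⁻¹ ∈ Wp n B C := by
  have hmul : ∀ x y : Au, Jb a b h * (x * y) * (Jb a b h)⁻¹ = (Jb a b h * x * (Jb a b h)⁻¹) *
      (Jb a b h * y * (Jb a b h)⁻¹) := by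
    intro x y; group
  have hinv : ∀ x : Au, Jb a b h * x⁻¹ * (Jb a b h)⁻¹ = (Jb a b h * x * (Jb a b h)⁻¹)⁻¹ := by
    intro x; group
  induction hg using Subgroup.closure_induction with
  | mem w hw =>
    rcases hw with hw | ⟨c, rfl⟩
    · induction hw using Subgroup.closure_induction with
      | mem w hw =>
        obtain ⟨v, hv, rfl⟩ := hw
        have hv' : Unit2 n B C (Jb a b h v) := by
          unfold Unit2
          rw [Jb_Qf h]
          exact hv
        have e : Jb a b h * R (qf n B C a) (pf n B C a b) (qf n B C b) v hv * (Jb a b h)⁻¹ =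
            R n B C (Jb a b h v) hv' := by
          apply LinearEquiv.ext
          intro x
          rw [LinearEquiv.mul_apply, LinearEquiv.mul_apply, R_apply, R_apply, refl, refl, Jb_Qf h]
          have e1 : Pf n B C x (Jb a b h v) =
              Pf (qf n B C a) (pf n B C a b) (qf n B C b) ((Jb a b h)⁻¹ x) v := by
            rw [← Jb_Pf h, apply_inv]
          rw [e1, map_sub, map_smul, apply_inv]
        rw [e]
        exact W_le (R_mem hv')
      | one => simp
      | mul x y _ _ hx hy =>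
        rw [hmul]
        exact mul_mem hx hy
      | inv x _ hx =>
        rw [hinv]
        exact inv_mem hx
    · have e : Jb a b h * ex (qf n B C a) (pf n B C a b) (qf n B C b) c * (Jb a b h)⁻¹ =
          ex n B C (cb a b c) := by
        apply LinearEquiv.ext
        intro x
        rw [LinearEquiv.mul_apply, LinearEquiv.mul_apply]
        obtain ⟨y, rfl⟩ : ∃ y, Jb a b h y = x := ⟨(Jb a b h)⁻¹ x, apply_inv _ _⟩
        have e1 : (Jb a b h)⁻¹ (Jb a b h y) = y := LinearEquiv.symm_apply_apply _ _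
        rw [e1, ex_apply, ex_apply, Jb_apply, Jb_apply]
        simp only [cb_add, cb_smul, pf_cb, qf_cb]
      rw [e]
      exact ex_mem _
  | one => simp
  | mul x y _ _ hx hy =>
    rw [hmul]
    exact mul_mem hx hy
  | inv x _ hx =>
    rw [hinv]
    exact inv_mem hx

end cb

/-! ### Matrices with the same first row -/

section row

variable {n B C : ℤ}

theorem Hf_swap (x y z : ℤ × ℤ) : em (Hf n B C x y) z = em (Hf n B C z y) x := by
  obtain ⟨x0, x1⟩ := x
  obtain ⟨y0, y1⟩ := y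
  obtain ⟨z0, z1⟩ := z
  ext
  · simp only [Hf, em]
    ring
  · simp only [Hf, em]
    ring

theorem cj_Hf (x y : ℤ × ℤ) : cj (Hf n B C x y) = Hf n B C y x := by
  obtain ⟨x0, x1⟩ := x
  obtain ⟨y0, y1⟩ := y
  ext
  · simp only [Hf, cj]
    ring
  · simp only [Hf, cj]
    ring

theorem cj_mulc (x y : Ord n B C) : cj (x * y) = cj x * cj y := by
  ext
  · simp only [cj, QuadraticAlgebra.re_mul, QuadraticAlgebra.im_mul]
    ring
  · simp only [cj, QuadraticAlgebra.re_mul, QuadraticAlgebra.im_mul]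
    ring

theorem cj_addc (x y : Ord n B C) : cj (x + y) = cj x + cj y := by
  ext
  · simp only [cj, QuadraticAlgebra.re_add, QuadraticAlgebra.im_add]
    ring
  · simp only [cj, QuadraticAlgebra.im_add]
    ring

theorem cj_onec : cj (1 : Ord n B C) = 1 := by
  ext
  · simp [cj, QuadraticAlgebra.re_one, QuadraticAlgebra.im_one]
  · simp [cj, QuadraticAlgebra.im_one]

theorem em_addl (α β : Ord n B C) (x : ℤ × ℤ) : em (α + β) x = em α x + em β x := by
  ext
  · simp only [em, QuadraticAlgebra.re_add, QuadraticAlgebra.im_add, Prod.fst_add]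
    ring
  · simp only [em, QuadraticAlgebra.re_add, QuadraticAlgebra.im_add, Prod.snd_add]
    ring

theorem em_subD (α : Ord n B C) (x y : ℤ × ℤ) : em α (x - y) = em α x - em α y := by
  ext
  · simp only [em, Prod.fst_sub, Prod.snd_sub]
    ring
  · simp only [em, Prod.fst_sub, Prod.snd_sub]
    ring

theorem Hf_sub_right (x y z : ℤ × ℤ) : Hf n B C x (y - z) = Hf n B C x y - Hf n B C x z := by
  ext
  · simp only [Hf, Prod.fst_sub, Prod.snd_sub, QuadraticAlgebra.re_sub]
    ring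
  · simp only [Hf, Prod.fst_sub, Prod.snd_sub, QuadraticAlgebra.im_sub]
    ring

/-- two matrices of determinant one with the same first row differ by a twist -/
theorem same_row {α : Ord n B C} {β γ γ' : ℤ × ℤ} {δ δ' : Ord n B C} (h : dt α β γ δ = 1)
    (h' : dt α β γ' δ' = 1) :
    ∃ z : ℤ × ℤ, ∀ x, ex n B C z (act α β γ δ x) = act α β γ' δ' x := by
  refine ⟨em (cj δ) γ' - em (cj δ') γ, fun x => ?_⟩
  rw [act_l21]
  have h1 : α * δ = 1 + Hf n B C β γ := by rw [dt] at h; rw [← h]; ring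
  have h2 : α * δ' = 1 + Hf n B C β γ' := by rw [dt] at h'; rw [← h']; ring
  have e1 : γ + em (cj α) (em (cj δ) γ' - em (cj δ') γ) = γ' := by
    rw [em_subD, em_em, em_em, ← cj_mulc, ← cj_mulc, h1, h2, cj_addc, cj_addc, cj_onec, cj_Hf,
      cj_Hf, em_addl, em_addl, em_one, em_one, Hf_swap γ β γ']
    abel
  have e2 : δ + Hf n B C β (em (cj δ) γ' - em (cj δ') γ) = δ' := by
    rw [Hf_sub_right, Hf_em_right, Hf_em_right, cj_cj, cj_cj]
    linear_combination δ' * h1 - δ * h2
  rw [e1, e2]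

end row

/-! ### Primitive vectors -/

/-- `ℤ` has stable range two, in the form needed here -/
theorem exists_coprime_add {b₁ b₂ N : ℤ} (hN : N ≠ 0)
    (h : ∀ p : ℕ, p.Prime → ¬ ((p : ℤ) ∣ b₁ ∧ (p : ℤ) ∣ b₂ ∧ (p : ℤ) ∣ N)) :
    ∃ y₁ y₂ : ℤ, IsCoprime (b₁ + N * y₁) (b₂ + N * y₂) := by
  classical
  -- make the first entry nonzero
  obtain ⟨y₁, hy₁⟩ : ∃ y₁ : ℤ, b₁ + N * y₁ ≠ 0 := by
    by_cases hb : b₁ = 0
    · exact ⟨1, by rw [hb]; simpa using hN⟩
    · exact ⟨0, by simpa using hb⟩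
  set c := b₁ + N * y₁ with hc
  have h' : ∀ p : ℕ, p.Prime → ¬ ((p : ℤ) ∣ c ∧ (p : ℤ) ∣ b₂ ∧ (p : ℤ) ∣ N) := by
    rintro p hp ⟨h1, h2, h3⟩
    refine h p hp ⟨?_, h2, h3⟩
    have : b₁ = c - N * y₁ := by rw [hc]; ring
    rw [this]
    exact dvd_sub h1 (h3.mul_right _)
  set P : ℕ := ∏ p ∈ c.natAbs.primeFactors.filter (fun p : ℕ => ¬ (p : ℤ) ∣ b₂), p with hP
  refine ⟨y₁, P, ?_⟩
  rw [Int.isCoprime_iff_gcd_eq_one]
  by_contra hg
  obtain ⟨p, hp, hpd⟩ := Nat.exists_prime_and_dvd hg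
  have hpp : Prime (p : ℤ) := Nat.prime_iff_prime_int.mp hp
  have h1 : (p : ℤ) ∣ c := (Int.natCast_dvd_natCast.mpr hpd).trans (Int.gcd_dvd_left _ _)
  have h2 : (p : ℤ) ∣ b₂ + N * (P : ℤ) :=
    (Int.natCast_dvd_natCast.mpr hpd).trans (Int.gcd_dvd_right _ _)
  have hpc : p ∈ c.natAbs.primeFactors := by
    rw [Nat.mem_primeFactors]
    exact ⟨hp, Int.natCast_dvd.mp h1, Int.natAbs_ne_zero.mpr hy₁⟩
  by_cases hb : (p : ℤ) ∣ b₂
  · -- `p` does not divide `N`, and not `P`
    have h3 : (p : ℤ) ∣ N * (P : ℤ) := by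
      have := dvd_sub h2 hb
      simpa using this
    rcases hpp.dvd_or_dvd h3 with h4 | h4
    · exact h' p hp ⟨h1, hb, h4⟩
    · have h5 : p ∣ P := by exact_mod_cast h4
      rw [hP, hp.prime.dvd_finsetProd_iff] at h5
      obtain ⟨q, hq, hpq⟩ := h5
      rw [Finset.mem_filter, Nat.mem_primeFactors] at hq
      have h6 := (Nat.prime_dvd_prime_iff_eq hp hq.1.1).mp hpq
      rw [← h6] at hq
      exact hq.2 hb
  · have h3 : p ∣ P := by
      rw [hP]
      exact Finset.dvd_prod_of_mem _ (Finset.mem_filter.mpr ⟨hpc, hb⟩)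
    apply hb
    have h4 : (p : ℤ) ∣ N * (P : ℤ) := (Int.natCast_dvd_natCast.mpr h3).mul_left _
    have := dvd_sub h2 h4
    simpa using this

section main

variable {n B C : ℤ}

theorem em_cj_mul (α : Ord n B C) (x : ℤ × ℤ) : em α (em (cj α) x) = nm α • x := by
  rw [em_em]
  have : α * cj α = ((nm α : ℤ) : Ord n B C) := by
    ext
    · simp only [cj, nm, QuadraticAlgebra.re_mul, QuadraticAlgebra.re_intCast, Int.cast_id]
      ring
    · simp only [cj, QuadraticAlgebra.im_mul, QuadraticAlgebra.im_intCast]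
      ring
  rw [this]
  ext
  · simp [em]
  · simp [em]

/-- the norm is anisotropic -/
theorem nm_ne_zero (hDs : ¬ IsSquare (B ^ 2 - 4 * n * C)) {α : Ord n B C} (h : α ≠ 0) :
    nm α ≠ 0 := by
  intro h0
  have h1 : α.im ^ 2 * (B ^ 2 - 4 * n * C) = (2 * α.re + B * α.im) ^ 2 := by
    rw [nm] at h0
    linear_combination (-4) * h0
  by_cases h2 : α.im = 0
  · apply h
    rw [h2] at h1
    have h3 : α.re = 0 := by
      have : (2 * α.re) ^ 2 = 0 := by linear_combination -h1
      have := pow_eq_zero_iff (two_ne_zero) |>.mp this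
      linarith
    ext
    · exact h3
    · exact h2
  · apply hDs
    have h3 : α.im ^ 2 ∣ (2 * α.re + B * α.im) ^ 2 := ⟨_, h1.symm⟩
    rw [Int.pow_dvd_pow_iff (two_ne_zero)] at h3
    obtain ⟨c, hc⟩ := h3
    refine ⟨c, ?_⟩
    rw [hc] at h1
    have h4 : α.im ^ 2 * (B ^ 2 - 4 * n * C - c * c) = 0 := by linear_combination h1
    rcases mul_eq_zero.mp h4 with h5 | h5
    · exact absurd (pow_eq_zero_iff (two_ne_zero) |>.mp h5) h2
    · linarith

/-- a primitive second entry -/
theorem exists_prim (hDs : ¬ IsSquare (B ^ 2 - 4 * n * C)) {α δ : Ord n B C} {β γ : ℤ × ℤ}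
    (h1 : dt α β γ δ = 1) : ∃ y : ℤ × ℤ, Prim (em α y + β) := by
  by_cases hα : α = 0
  · refine ⟨0, ?_⟩
    subst hα
    have e0 : em (0 : Ord n B C) 0 = 0 := by
      ext
      · simp [em]
      · simp [em]
    rw [e0, zero_add]
    rw [dt, zero_mul, zero_sub] at h1
    -- `-H(β, γ) = 1`
    unfold Prim
    rw [Int.isCoprime_iff_gcd_eq_one]
    by_contra hg
    obtain ⟨p, hp, hpd⟩ := Nat.exists_prime_and_dvd hg
    have h2 : (p : ℤ) ∣ β.1 := (Int.natCast_dvd_natCast.mpr hpd).trans (Int.gcd_dvd_left _ _)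
    have h3 : (p : ℤ) ∣ β.2 := (Int.natCast_dvd_natCast.mpr hpd).trans (Int.gcd_dvd_right _ _)
    obtain ⟨u, hu⟩ := h2
    obtain ⟨v, hv⟩ := h3
    have h4 := congrArg QuadraticAlgebra.re h1
    simp only [Hf, QuadraticAlgebra.re_neg, QuadraticAlgebra.re_one, hu, hv] at h4
    have h5 : (p : ℤ) ∣ 1 := ⟨-(n * (u * γ.1) + C * (v * γ.2) + B * (u * γ.2)), by
      linear_combination -h4⟩
    have h6 := Int.le_of_dvd one_pos h5
    have := hp.two_le
    omega
  · have hN : nm α ≠ 0 := nm_ne_zero hDs hα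
    obtain ⟨y₁, y₂, hy⟩ := exists_coprime_add (b₁ := β.1) (b₂ := β.2) (N := nm α) hN (by
      rintro p hp ⟨⟨u, hu⟩, ⟨v, hv⟩, ⟨w, hw⟩⟩
      -- `α δ = 1` modulo `p`, so `N(α) N(δ) = 1` modulo `p`
      have h2 : α * δ = 1 + ((p : ℤ) : Ord n B C) * Hf n B C (u, v) γ := by
        rw [dt] at h1
        have : Hf n B C β γ = ((p : ℤ) : Ord n B C) * Hf n B C (u, v) γ := by
          ext
          · simp only [Hf, hu, hv, QuadraticAlgebra.re_mul, QuadraticAlgebra.re_intCast,
              QuadraticAlgebra.im_intCast, Int.cast_id]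
            ring
          · simp only [Hf, hu, hv, QuadraticAlgebra.im_mul, QuadraticAlgebra.re_intCast,
              QuadraticAlgebra.im_intCast, Int.cast_id]
            ring
        rw [← this, ← h1]
        ring
      have h3 : nm α * nm δ = nm (α * δ) := by
        rw [← norm_eq, ← norm_eq, ← norm_eq, map_mul]
      rw [h2, hw] at h3
      generalize Hf n B C (u, v) γ = H at h3
      have h4 : nm (1 + ((p : ℤ) : Ord n B C) * H) = 1 + p * tc H + p ^ 2 * nm H := by
        simp only [nm, tc, QuadraticAlgebra.re_add, QuadraticAlgebra.im_add,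
          QuadraticAlgebra.re_one, QuadraticAlgebra.im_one, QuadraticAlgebra.re_mul,
          QuadraticAlgebra.im_mul, QuadraticAlgebra.re_intCast, QuadraticAlgebra.im_intCast,
          Int.cast_id]
        ring
      rw [h4] at h3
      have h5 : (p : ℤ) ∣ 1 := ⟨w * nm δ - tc H - p * nm H, by linear_combination -h3⟩
      have h6 := Int.le_of_dvd one_pos h5
      have := hp.two_le
      omega)
    refine ⟨em (cj α) (y₁, y₂), ?_⟩
    rw [em_cj_mul]
    unfold Prim
    have e1 : (nm α • (y₁, y₂) + β).1 = β.1 + nm α * y₁ := by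
      simp only [Prod.fst_add, Prod.smul_fst, smul_eq_mul]
      ring
    have e2 : (nm α • (y₁, y₂) + β).2 = β.2 + nm α * y₂ := by
      simp only [Prod.snd_add, Prod.smul_snd, smul_eq_mul]
      ring
    rw [e1, e2]
    exact hy

/-- Every isometry given by a matrix of determinant one is in the group generated by the
reflections and the twists. -/
theorem act_mem_Wp_of
    (hE : ∀ n B C : ℤ, 0 < B ^ 2 - 4 * n * C → ¬ IsSquare (B ^ 2 - 4 * n * C) → n ≠ 0 →
      ∀ ρ : ℤ, IsCoprime ρ n → Good n B C (ρ : Ord n B C) 1)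
    (hD : 0 < B ^ 2 - 4 * n * C) (hDs : ¬ IsSquare (B ^ 2 - 4 * n * C)) {g : Au}
    {α δ : Ord n B C} {β γ : ℤ × ℤ} (h1 : dt α β γ δ = 1) (h : ∀ x, g x = act α β γ δ x) :
    g ∈ Wp n B C := by
  -- the second entry primitive
  obtain ⟨y, hy⟩ := exists_prim hDs h1
  set a := em α y + β with ha
  set g₁ : Au := g * (T n B C * ex n B C y * T n B C) with hg₁
  have hmem : T n B C * ex n B C y * T n B C ∈ Wp n B C :=
    mul_mem (mul_mem T_memp (ex_mem _)) T_memp
  suffices hs : g₁ ∈ Wp n B C by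
    have e : g = g₁ * (T n B C * ex n B C y * T n B C)⁻¹ := by rw [hg₁]; group
    rw [e]
    exact mul_mem hs (inv_mem hmem)
  have h1' : dt α a γ (δ + Hf n B C y γ) = 1 := by rw [ha, dt_e12, h1]
  have h2 : ∀ x, g₁ x = act α a γ (δ + Hf n B C y γ) x := by
    intro x
    rw [hg₁, LinearEquiv.mul_apply, LinearEquiv.mul_apply, LinearEquiv.mul_apply, h, act_e12]
  generalize δ + Hf n B C y γ = δ₁ at h1' h2
  -- the new basis
  obtain ⟨b, hab⟩ := hy.exists
  set n' := qf n B C a with hn'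
  set B' := pf n B C a b with hB'
  set C' := qf n B C b with hC'
  have hdisc : B' ^ 2 - 4 * n' * C' = B ^ 2 - 4 * n * C := disc_cb hab
  have hn0 : n' ≠ 0 := by
    intro h0
    apply hDs
    rw [← hdisc, h0]
    exact ⟨B', by ring⟩
  obtain ⟨α', hα'⟩ := phi_surj (n := n) (B := B) (C := C) (a := a) (b := b) α
  obtain ⟨δ', hδ'⟩ := phi_surj (n := n) (B := B) (C := C) (a := a) (b := b) δ₁
  set γ' := cb (b.2, -a.2) (-b.1, a.1) γ with hγ'
  have hγ : cb a b γ' = γ := cb_inv hab γ
  have hb0 : cb a b (1, 0) = a := by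
    ext
    · simp [cb]
    · simp [cb]
  have h3 : dt α' (1, 0) γ' δ' = 1 := by
    apply phi_inj (n := n) (B := B) (C := C) (a := a) (b := b)
    rw [← dt_phi hab, hα', hδ', hγ, hb0, h1', phi_one]
  -- the rational residue
  set ρ : ℤ := α'.re + α'.im * B' with hρ
  have hcop : IsCoprime ρ n' := by
    have e1 := congrArg QuadraticAlgebra.re h3
    have e2 := congrArg QuadraticAlgebra.im h3
    simp only [dt, Hf, QuadraticAlgebra.re_sub, QuadraticAlgebra.im_sub, QuadraticAlgebra.re_mul,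
      QuadraticAlgebra.im_mul, QuadraticAlgebra.re_one, QuadraticAlgebra.im_one] at e1 e2
    refine ⟨δ'.re + B' * δ'.im, -(C' * α'.im * δ'.im + γ'.1), ?_⟩
    rw [hρ]
    linear_combination e1 + B' * e2
  have hG : Good n' B' C' α' 1 := by
    have hG0 : Good n' B' C' (ρ : Ord n' B' C') 1 :=
      hE n' B' C' (by rw [hdisc]; exact hD) (by rw [hdisc]; exact hDs) hn0 ρ hcop
    have e : α' = (ρ : Ord n' B' C') + 1 * ((n' : Ord n' B' C') * ((0 : ℤ) : Ord n' B' C') +
        star QuadraticAlgebra.omega * ((-α'.im : ℤ) : Ord n' B' C')) := by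
      ext
      · simp [hρ]
        ring
      · simp
    rw [e]
    exact good_g1 _ _ _ _ hG0
  obtain ⟨w, hw, γ₂, δ₂, h4, h5⟩ := hG
  rw [em_one] at h4 h5
  -- transport
  have h6 : dt α a (cb a b γ₂) (phi a b δ₂) = 1 := by
    have := dt_phi hab α' (1, 0) γ₂ δ₂
    rwa [h4, phi_one, hα', hb0] at this
  have h7 : ∀ x, (Jb a b hab * w * (Jb a b hab)⁻¹) x = act α a (cb a b γ₂) (phi a b δ₂) x := by
    intro x
    obtain ⟨y, rfl⟩ : ∃ y, Jb a b hab y = x := ⟨(Jb a b hab)⁻¹ x, apply_inv _ _⟩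
    have e1 : (Jb a b hab)⁻¹ (Jb a b hab y) = y := LinearEquiv.symm_apply_apply _ _
    rw [LinearEquiv.mul_apply, LinearEquiv.mul_apply, e1, h5, Jb_act hab, hα', hb0]
  obtain ⟨z, hz⟩ := same_row h6 h1'
  have e : g₁ = ex n B C z * (Jb a b hab * w * (Jb a b hab)⁻¹) := by
    apply LinearEquiv.ext
    intro x
    show g₁ x = ex n B C z ((Jb a b hab * w * (Jb a b hab)⁻¹) x)
    rw [h7, hz, h2]
  rw [e]
  exact mul_mem (ex_mem _) (Jb_conj_mem hab hw)

/-- **All matrices.** Every isometry given by a matrix of determinant one is in the group generated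
by the reflections and the twists. -/
theorem _root_.Pool.Agent.Mukai.RF.act_mem_Wp (hD : 0 < B ^ 2 - 4 * n * C)
    (hDs : ¬ IsSquare (B ^ 2 - 4 * n * C)) {g : Au} {α δ : Ord n B C} {β γ : ℤ × ℤ}
    (h1 : dt α β γ δ = 1) (h : ∀ x, g x = act α β γ δ x) : g ∈ Wp n B C :=
  act_mem_Wp_of (fun n B C hD hDs hn _ h => engine_int moves (prime_elts n B C hD hDs hn)
    (padic n B C) hn hD hDs h) hD hDs h1 h

end main

end Pool.Agent.Mukai.RF.Rw
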