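import Pool.Agent.Work.MP_1e087a_ag.F.Mat

set_option autoImplicit false

/-!
# Every isometry of the Mukai lattice is a rational matrix, up to the reflection `T`
-/

namespace Pool.Agent.Mukai.RF

open Pool.Agent.Mukai

variable {n B C : ℤ}

/-! ### The norm -/

theorem sq_of_mul_sq {a b m : ℤ} (hb : b ≠ 0) (h : a ^ 2 = m * b ^ 2) : IsSquare m := by
  have h1 : b ^ 2 ∣ a ^ 2 := ⟨m, by rw [h]; ring⟩
  rw [Int.pow_dvd_pow_iff (by norm_num)] at h1
  obtain ⟨c, rfl⟩ := h1
  refine ⟨c, ?_⟩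
  have h2 : b ^ 2 ≠ 0 := pow_ne_zero 2 hb
  apply mul_right_cancel₀ h2
  rw [← h]
  ring

theorem nm_ne_zero (hDs : ¬ IsSquare (B ^ 2 - 4 * n * C)) {b : Ord n B C} (hb : b ≠ 0) :
    nm b ≠ 0 := by
  intro h
  apply hb
  have h1 : (2 * b.re + B * b.im) ^ 2 = (B ^ 2 - 4 * n * C) * b.im ^ 2 := by
    simp only [nm] at h
    linear_combination 4 * h
  have h2 : b.im = 0 := by
    by_contra h3
    exact hDs (sq_of_mul_sq h3 h1)
  have h3 : b.re = 0 := by
    rw [h2] at h1
    have h4 : (2 * b.re) ^ 2 = 0 := by linear_combination h1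
    have h5 := pow_eq_zero_iff (two_ne_zero) |>.1 h4
    linarith
  ext
  · exact h3
  · exact h2

theorem qf_eq_zero (hDs : ¬ IsSquare (B ^ 2 - 4 * n * C)) (hn : n ≠ 0) {x : ℤ × ℤ}
    (h : qf n B C x = 0) : x = 0 := by
  obtain ⟨u, v⟩ := x
  simp only [qf] at h
  have h1 : (2 * n * u + B * v) ^ 2 = (B ^ 2 - 4 * n * C) * v ^ 2 := by
    linear_combination 4 * n * h
  have h2 : v = 0 := by
    by_contra h3
    exact hDs (sq_of_mul_sq h3 h1)
  rw [h2] at h1
  have h4 : (2 * n * u) ^ 2 = 0 := by linear_combination h1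
  have h5 := pow_eq_zero_iff (two_ne_zero) |>.1 h4
  have h6 : u = 0 := by
    rcases mul_eq_zero.1 h5 with h6 | h6
    · exfalso
      apply hn
      linarith
    · exact h6
  rw [h6, h2]
  rfl

theorem n_ne_zero (hDs : ¬ IsSquare (B ^ 2 - 4 * n * C)) : n ≠ 0 := by
  rintro rfl
  exact hDs ⟨B, by ring⟩

/-! ### Formal rules -/

theorem nm_cj (b : Ord n B C) : nm (cj b) = nm b := by
  simp only [nm, cj]
  ring

theorem nm_mul (a b : Ord n B C) : nm (a * b) = nm a * nm b := by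
  rw [← norm_eq, ← norm_eq, ← norm_eq, map_mul]

theorem em_int (k : ℤ) (x : ℤ × ℤ) : em (k : Ord n B C) x = k • x := by
  ext
  · simp [em, QuadraticAlgebra.re_intCast, QuadraticAlgebra.im_intCast]
  · simp [em, QuadraticAlgebra.re_intCast, QuadraticAlgebra.im_intCast]

theorem mul_cj_eq (b : Ord n B C) : b * cj b = ((nm b : ℤ) : Ord n B C) := by
  ext
  · simp only [cj, nm, QuadraticAlgebra.re_mul, QuadraticAlgebra.re_intCast, Int.cast_id]
    ring
  · simp only [cj, QuadraticAlgebra.im_mul, QuadraticAlgebra.im_intCast]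
    ring

theorem em_mul_cj (b : Ord n B C) (x : ℤ × ℤ) : em b (em (cj b) x) = nm b • x := by
  rw [em_em, mul_cj_eq, em_int]

theorem Hf_smul_left (k : ℤ) (x y : ℤ × ℤ) : Hf n B C (k • x) y = (k : Ord n B C) * Hf n B C x y := by
  rw [← em_int (n := n) (B := B) (C := C), Hf_em_left]

theorem cj_int (k : ℤ) : cj (k : Ord n B C) = (k : Ord n B C) := by
  ext
  · simp [cj, QuadraticAlgebra.re_intCast, QuadraticAlgebra.im_intCast]
  · simp [cj, QuadraticAlgebra.im_intCast]

theorem cj_mul' (a b : Ord n B C) : cj (a * b) = cj a * cj b := by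
  ext
  · simp only [cj, QuadraticAlgebra.re_mul, QuadraticAlgebra.im_mul]
    ring
  · simp only [cj, QuadraticAlgebra.re_mul, QuadraticAlgebra.im_mul]
    ring

theorem Hf_smul_right (k : ℤ) (x y : ℤ × ℤ) :
    Hf n B C x (k • y) = (k : Ord n B C) * Hf n B C x y := by
  rw [← em_int (n := n) (B := B) (C := C), Hf_em_right, cj_int]

theorem tc_int_mul (k : ℤ) (x : Ord n B C) : tc ((k : Ord n B C) * x) = k * tc x := by
  simp only [tc, QuadraticAlgebra.re_mul, QuadraticAlgebra.im_mul, QuadraticAlgebra.re_intCast,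
    QuadraticAlgebra.im_intCast, Int.cast_id]
  ring

theorem tc_Hf (x y : ℤ × ℤ) : tc (Hf n B C x y) = pf n B C x y := by
  simp only [tc, Hf, pf]
  ring

/-! ### The identities -/

section Ident

variable {r s r' s' ra sa : ℤ} {D D' Da : ℤ × ℤ}

/-- the entry `κ` -/
def kap (n B C s r' : ℤ) (D D' : ℤ × ℤ) : Ord n B C := ((s * r' : ℤ) : Ord n B C) - Hf n B C D' D

theorem id_r (h1 : qf n B C D = r * s) (h3 : pf n B C D D' = r * s' + s * r' - 1)
    (h4 : pf n B C D Da = ra * s + sa * r) (h5 : pf n B C D' Da = ra * s' + sa * r') :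
    tc (kap n B C s r' D D' * Hf n B C (s • Da - sa • D) D) = s ^ 2 * ra := by
  obtain ⟨x, y⟩ := D
  obtain ⟨x', y'⟩ := D'
  obtain ⟨u, v⟩ := Da
  simp only [qf, pf] at h1 h3 h4 h5
  simp only [kap, tc, Hf, QuadraticAlgebra.re_mul, QuadraticAlgebra.im_mul,
    QuadraticAlgebra.re_sub, QuadraticAlgebra.im_sub, QuadraticAlgebra.re_intCast,
    QuadraticAlgebra.im_intCast, Int.cast_id, Prod.fst_sub, Prod.snd_sub, Prod.smul_fst,
    Prod.smul_snd, smul_eq_mul]
  linear_combination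
    (s ^ 2 * r' - s * (2 * n * (x * x') + B * (x * y' + y * x') + 2 * C * (y * y'))) * h4 +
    (-(s * (ra * s + sa * r)) + sa * (n * x ^ 2 + B * (x * y) + C * y ^ 2)) * h3 +
    (s * (n * x ^ 2 + B * (x * y) + C * y ^ 2)) * h5 +
    (-(2 * sa * s * r') + s * (ra * s' + sa * r') + sa * (r * s' + s * r' - 1)) * h1

theorem id_s (h1 : qf n B C D = r * s) (h3 : pf n B C D D' = r * s' + s * r' - 1)
    (h4 : pf n B C D Da = ra * s + sa * r) (h5 : pf n B C D' Da = ra * s' + sa * r') :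
    pf n B C (s • D' - s' • D) (s • Da - sa • D) = s * sa := by
  obtain ⟨x, y⟩ := D
  obtain ⟨x', y'⟩ := D'
  obtain ⟨u, v⟩ := Da
  simp only [qf, pf] at h1 h3 h4 h5
  simp only [pf, Prod.fst_sub, Prod.snd_sub, Prod.smul_fst, Prod.smul_snd, smul_eq_mul]
  linear_combination (s ^ 2) * h5 - (s * sa) * h3 - (s' * s) * h4 + (2 * s' * sa) * h1

theorem id_D (h1 : qf n B C D = r * s) (h3 : pf n B C D D' = r * s' + s * r' - 1)
    (h4 : pf n B C D Da = ra * s + sa * r) (h5 : pf n B C D' Da = ra * s' + sa * r') :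
    em (Hf n B C D (s • Da - sa • D)) (s • D' - s' • D) +
      s • em (kap n B C s r' D D') (s • Da - sa • D) = (s ^ 2) • Da := by
  obtain ⟨x, y⟩ := D
  obtain ⟨x', y'⟩ := D'
  obtain ⟨u, v⟩ := Da
  simp only [qf, pf] at h1 h3 h4 h5
  simp only [em, kap, Hf, QuadraticAlgebra.re_sub, QuadraticAlgebra.im_sub,
    QuadraticAlgebra.re_intCast, QuadraticAlgebra.im_intCast, Int.cast_id]
  ext
  · simp only [Prod.fst_add, Prod.fst_sub, Prod.snd_sub, Prod.smul_fst, Prod.smul_snd,
      smul_eq_mul]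
    linear_combination (-(s ^ 2 * u)) * h3 + (s ^ 2 * x) * h5 - (s * s' * x) * h4 +
      (s * s' * u + sa * s' * x) * h1
  · simp only [Prod.snd_add, Prod.fst_sub, Prod.snd_sub, Prod.smul_fst, Prod.smul_snd,
      smul_eq_mul]
    linear_combination (-(s ^ 2 * v)) * h3 + (s ^ 2 * y) * h5 - (s * s' * y) * h4 +
      (s * s' * v + sa * s' * y) * h1

theorem id_nm (h1 : qf n B C D = r * s) (h2 : qf n B C D' = r' * s')
    (h3 : pf n B C D D' = r * s' + s * r' - 1) : nm (kap n B C s r' D D') = s * r' := by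
  obtain ⟨x, y⟩ := D
  obtain ⟨x', y'⟩ := D'
  simp only [qf, pf] at h1 h2 h3
  simp only [nm, kap, Hf, QuadraticAlgebra.re_sub, QuadraticAlgebra.im_sub,
    QuadraticAlgebra.re_intCast, QuadraticAlgebra.im_intCast, Int.cast_id]
  linear_combination (-(s * r')) * h3 + (n * x' ^ 2 + B * (x' * y') + C * y' ^ 2) * h1 +
    (r * s) * h2

theorem id_q (h1 : qf n B C D = r * s) (h2 : qf n B C D' = r' * s')
    (h3 : pf n B C D D' = r * s' + s * r' - 1) : qf n B C (s • D' - s' • D) = s * s' := by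
  obtain ⟨x, y⟩ := D
  obtain ⟨x', y'⟩ := D'
  simp only [qf, pf] at h1 h2 h3
  simp only [qf, Prod.fst_sub, Prod.snd_sub, Prod.smul_fst, Prod.smul_snd, smul_eq_mul]
  linear_combination (s ^ 2) * h2 - (s * s') * h3 + (s' ^ 2) * h1

theorem id_D' (h1 : qf n B C D = r * s) (h2 : qf n B C D' = r' * s')
    (h3 : pf n B C D D' = r * s' + s * r' - 1) :
    em (kap n B C s r' D D') (s • D' - s' • D) = s • D' := by
  obtain ⟨x, y⟩ := D
  obtain ⟨x', y'⟩ := D'
  simp only [qf, pf] at h1 h2 h3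
  simp only [em, kap, Hf, QuadraticAlgebra.re_sub, QuadraticAlgebra.im_sub,
    QuadraticAlgebra.re_intCast, QuadraticAlgebra.im_intCast, Int.cast_id]
  ext
  · simp only [Prod.fst_sub, Prod.snd_sub, Prod.smul_fst, Prod.smul_snd, smul_eq_mul]
    linear_combination (-(s * x')) * h3 + (s * x) * h2 + (s' * x') * h1
  · simp only [Prod.fst_sub, Prod.snd_sub, Prod.smul_fst, Prod.smul_snd, smul_eq_mul]
    linear_combination (-(s * y')) * h3 + (s * y) * h2 + (s' * y') * h1

theorem id_dt (h1 : qf n B C D = r * s) (h3 : pf n B C D D' = r * s' + s * r' - 1) :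
    (s : Ord n B C) * kap n B C s r' D D' - Hf n B C D (s • D' - s' • D) = (s : Ord n B C) := by
  obtain ⟨x, y⟩ := D
  obtain ⟨x', y'⟩ := D'
  simp only [qf, pf] at h1 h3
  ext
  · simp only [kap, Hf, QuadraticAlgebra.re_sub, QuadraticAlgebra.im_sub,
      QuadraticAlgebra.re_mul, QuadraticAlgebra.re_intCast,
      QuadraticAlgebra.im_intCast, Int.cast_id, Prod.fst_sub, Prod.snd_sub, Prod.smul_fst,
      Prod.smul_snd, smul_eq_mul]
    linear_combination (-s) * h3 + s' * h1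
  · simp only [kap, Hf, QuadraticAlgebra.re_sub, QuadraticAlgebra.im_sub,
      QuadraticAlgebra.im_mul, QuadraticAlgebra.re_intCast,
      QuadraticAlgebra.im_intCast, Int.cast_id, Prod.fst_sub, Prod.snd_sub, Prod.smul_fst,
      Prod.smul_snd, smul_eq_mul]
    ring

/-- the determinant of the matrix -/
theorem core_dt (b : Ord n B C) (h1 : qf n B C D = r * s)
    (h3 : pf n B C D D' = r * s' + s * r' - 1) :
    dt (b * kap n B C s r' D D') (em (cj b) D) (em (cj b) (s • D' - s' • D))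
      ((s : Ord n B C) * cj b) = ((nm b * s : ℤ) : Ord n B C) := by
  have e := id_dt h1 h3
  have e1 := mul_cj_eq b
  rw [dt, Hf_em_left, Hf_em_right, cj_cj]
  calc b * kap n B C s r' D D' * (↑s * cj b) - cj b * (b * Hf n B C D (s • D' - s' • D))
      = (b * cj b) * ((s : Ord n B C) * kap n B C s r' D D' -
        Hf n B C D (s • D' - s' • D)) := by ring
    _ = ((nm b * s : ℤ) : Ord n B C) := by
        rw [e, e1]
        push_cast
        ring

/-- the first basis vector -/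
theorem core_1 (b : Ord n B C) (h1 : qf n B C D = r * s) (h2 : qf n B C D' = r' * s')
    (h3 : pf n B C D D' = r * s' + s * r' - 1) :
    act (b * kap n B C s r' D D') (em (cj b) D) (em (cj b) (s • D' - s' • D))
      ((s : Ord n B C) * cj b) (1, 0, 0) = (nm b * s) • ((r', s', D') : Mu) := by
  have z1 : ∀ x : ℤ × ℤ, Hf n B C 0 x = 0 := fun x => by
    ext
    · simp [Hf]
    · simp [Hf]
  have z2 : ∀ x : ℤ × ℤ, Hf n B C x 0 = 0 := fun x => by
    ext
    · simp [Hf]
    · simp [Hf]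
  have z3 : ∀ x : Ord n B C, em x 0 = 0 := fun x => by
    ext
    · simp [em]
    · simp [em]
  have z4 : ∀ x : ℤ × ℤ, em (0 : Ord n B C) x = 0 := fun x => by
    ext
    · simp [em]
    · simp [em]
  have z5 : tc (0 : Ord n B C) = 0 := by simp [tc]
  have e1 : em (b * kap n B C s r' D D') (em (cj b) (s • D' - s' • D)) =
      (nm b * s) • D' := by
    rw [em_em]
    have : b * kap n B C s r' D D' * cj b = (b * cj b) * kap n B C s r' D D' := by ring
    rw [this, ← em_em, id_D' h1 h2 h3, mul_cj_eq, em_int, smul_smul]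
  simp only [act, z1, z2, z3, z4, z5, mul_zero, zero_mul, zero_smul, add_zero, one_mul, mul_one,
    one_smul, e1, nm_mul, id_nm h1 h2 h3, qf_em, nm_cj, id_q h1 h2 h3]
  ext
  · simp
    ring
  · simp
    ring
  · simp
  · simp

/-- the second basis vector -/
theorem core_2 (b : Ord n B C) (h1 : qf n B C D = r * s) :
    act (b * kap n B C s r' D D') (em (cj b) D) (em (cj b) (s • D' - s' • D))
      ((s : Ord n B C) * cj b) (0, 1, 0) = (nm b * s) • ((r, s, D) : Mu) := by
  have z1 : ∀ x : ℤ × ℤ, Hf n B C 0 x = 0 := fun x => by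
    ext
    · simp [Hf]
    · simp [Hf]
  have z2 : ∀ x : ℤ × ℤ, Hf n B C x 0 = 0 := fun x => by
    ext
    · simp [Hf]
    · simp [Hf]
  have z3 : ∀ x : Ord n B C, em x 0 = 0 := fun x => by
    ext
    · simp [em]
    · simp [em]
  have z4 : ∀ x : ℤ × ℤ, em (0 : Ord n B C) x = 0 := fun x => by
    ext
    · simp [em]
    · simp [em]
  have z5 : tc (0 : Ord n B C) = 0 := by simp [tc]
  have e1 : em (cj ((s : Ord n B C) * cj b)) (em (cj b) D) = (nm b * s) • D := by
    rw [cj_mul', cj_int, cj_cj, em_em]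
    have : (s : Ord n B C) * b * cj b = (s : Ord n B C) * (b * cj b) := by ring
    rw [this, mul_cj_eq, ← em_em, em_int, em_int, smul_smul, mul_comm]
  have e2 : nm (s : Ord n B C) = s ^ 2 := by
    simp [nm, QuadraticAlgebra.re_intCast, QuadraticAlgebra.im_intCast]
    ring
  simp only [act, z1, z2, z3, z4, z5, mul_zero, zero_mul, zero_smul, add_zero, zero_add, one_mul,
    mul_one, one_smul, e1, nm_mul, qf_em, nm_cj, h1, e2]
  ext
  · simp
    ring
  · simp
    ring
  · simp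
  · simp

/-- the other basis vectors -/
theorem core_3 (b : Ord n B C) {a : ℤ × ℤ} (hs : s ≠ 0) (h1 : qf n B C D = r * s)
    (h3 : pf n B C D D' = r * s' + s * r' - 1)
    (h4 : pf n B C D Da = ra * s + sa * r) (h5 : pf n B C D' Da = ra * s' + sa * r')
    (hb : em (cj b) (s • Da - sa • D) = s • em b a) :
    act (b * kap n B C s r' D D') (em (cj b) D) (em (cj b) (s • D' - s' • D))
      ((s : Ord n B C) * cj b) (0, 0, a) = (nm b * s) • ((ra, sa, Da) : Mu) := by
  -- `s b² a = N(b) F`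
  have hb2 : s • em b (em b a) = nm b • (s • Da - sa • D) := by
    rw [← em_smul, ← hb, em_mul_cj]
  have c1 : tc (b * kap n B C s r' D D' * Hf n B C a (em (cj b) D)) = nm b * s * ra := by
    apply mul_left_cancel₀ hs
    have e : b * kap n B C s r' D D' * Hf n B C a (em (cj b) D) =
        kap n B C s r' D D' * Hf n B C (em b (em b a)) D := by
      rw [Hf_em_right, cj_cj, Hf_em_left, Hf_em_left]
      ring
    have e2 : (s : Ord n B C) * (kap n B C s r' D D' * Hf n B C (em b (em b a)) D) =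
        (nm b : Ord n B C) * (kap n B C s r' D D' * Hf n B C (s • Da - sa • D) D) := by
      have e3 : (s : Ord n B C) * Hf n B C (em b (em b a)) D =
          (nm b : Ord n B C) * Hf n B C (s • Da - sa • D) D := by
        rw [← Hf_smul_left, ← Hf_smul_left, hb2]
      linear_combination (kap n B C s r' D D') * e3
    rw [e, ← tc_int_mul, e2, tc_int_mul, id_r h1 h3 h4 h5]
    ring
  have c2 : tc ((s : Ord n B C) * cj b * Hf n B C (em (cj b) (s • D' - s' • D)) a) =
      nm b * s * sa := by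
    have e : (s : Ord n B C) * cj b * Hf n B C (em (cj b) (s • D' - s' • D)) a =
        Hf n B C (s • D' - s' • D) (s • em b (em b a)) := by
      rw [Hf_smul_right, Hf_em_left, Hf_em_right, Hf_em_right]
      ring
    rw [e, hb2, Hf_smul_right, tc_int_mul, tc_Hf, id_s h1 h3 h4 h5]
    ring
  have c3 : em (Hf n B C (em (cj b) D) a) (em (cj b) (s • D' - s' • D)) +
      em (b * kap n B C s r' D D') (em (cj ((s : Ord n B C) * cj b)) a) =
      (nm b * s) • Da := by
    have e1 : em (Hf n B C (em (cj b) D) a) (em (cj b) (s • D' - s' • D)) =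
        em (Hf n B C D (em b (em b a))) (s • D' - s' • D) := by
      rw [em_em, Hf_em_left, Hf_em_right, Hf_em_right]
      congr 1
      ring
    have e2 : em (b * kap n B C s r' D D') (em (cj ((s : Ord n B C) * cj b)) a) =
        em (kap n B C s r' D D') (s • em b (em b a)) := by
      rw [cj_mul', cj_int, cj_cj, ← em_int (n := n) (B := B) (C := C) s, em_em, em_em, em_em,
        em_em]
      congr 1
      ring
    have inj : ∀ x y : ℤ × ℤ, s • x = s • y → x = y := by
      intro x y h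
      have h1 := congrArg Prod.fst h
      have h2 := congrArg Prod.snd h
      simp only [Prod.smul_fst, Prod.smul_snd, smul_eq_mul] at h1 h2
      ext
      · exact mul_left_cancel₀ hs h1
      · exact mul_left_cancel₀ hs h2
    apply inj
    have e3 : s • em (Hf n B C D (em b (em b a))) (s • D' - s' • D) =
        nm b • em (Hf n B C D (s • Da - sa • D)) (s • D' - s' • D) := by
      calc s • em (Hf n B C D (em b (em b a))) (s • D' - s' • D)
          = em ((s : Ord n B C) * Hf n B C D (em b (em b a))) (s • D' - s' • D) := by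
            rw [← em_em, em_int]
        _ = em (Hf n B C D (s • em b (em b a))) (s • D' - s' • D) := by rw [Hf_smul_right]
        _ = em (Hf n B C D (nm b • (s • Da - sa • D))) (s • D' - s' • D) := by rw [hb2]
        _ = em ((nm b : Ord n B C) * Hf n B C D (s • Da - sa • D)) (s • D' - s' • D) := by
            rw [Hf_smul_right]
        _ = nm b • em (Hf n B C D (s • Da - sa • D)) (s • D' - s' • D) := by
            rw [← em_em, em_int]
    rw [smul_add, e1, e2, e3, hb2, em_smul, smul_comm s (nm b), ← smul_add, id_D h1 h3 h4 h5,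
      smul_smul, smul_smul]
    congr 1
    ring
  simp only [act, zero_mul, zero_smul, add_zero, zero_add, c1, c2, c3]
  ext
  · simp
  · simp
  · simp
  · simp

end Ident

/-! ### The unit of Hilbert 90 -/

theorem exists_b (hn : n ≠ 0) {s : ℤ} (hs : s ≠ 0) {x y : ℤ × ℤ}
    (h1 : qf n B C x = s ^ 2 * n) (h2 : pf n B C x y = s ^ 2 * B)
    (hd : x.1 * y.2 - x.2 * y.1 = s ^ 2) :
    ∃ b : Ord n B C, b ≠ 0 ∧ ∀ a : ℤ × ℤ, em (cj b) (a.1 • x + a.2 • y) = s • em b a := by
  obtain ⟨x1, x2⟩ := x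
  obtain ⟨y1, y2⟩ := y
  simp only [qf, pf] at h1 h2 hd
  have hs2 : s ^ 2 ≠ 0 := pow_ne_zero 2 hs
  have k1 : n * y1 = -(C * x2) := by
    apply mul_left_cancel₀ (mul_ne_zero two_ne_zero hs2)
    linear_combination (-2 * y1) * h1 + x1 * h2 - (B * x1 + 2 * C * x2) * hd
  have k2 : n * y2 = n * x1 + B * x2 := by
    apply mul_left_cancel₀ (mul_ne_zero two_ne_zero hs2)
    linear_combination (-2 * y2) * h1 + x2 * h2 + (2 * n * x1 + B * x2) * hd
  by_cases hb : (⟨n * (s + x1), x2⟩ : Ord n B C) = 0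
  · have hx2 : x2 = 0 := congrArg QuadraticAlgebra.im hb
    have hx1 : n * (s + x1) = 0 := congrArg QuadraticAlgebra.re hb
    have hx1' : x1 = -s := by
      rcases mul_eq_zero.1 hx1 with h | h
      · exact absurd h hn
      · linarith
    subst hx2
    subst hx1'
    have hy1 : y1 = 0 := by
      apply mul_left_cancel₀ hn
      rw [k1]
      ring
    have hy2 : y2 = -s := by
      apply mul_left_cancel₀ hn
      rw [k2]
      ring
    subst hy1
    subst hy2
    refine ⟨⟨-B, 2⟩, ?_, ?_⟩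
    · intro h
      have := congrArg QuadraticAlgebra.im h
      simp at this
    · rintro ⟨a1, a2⟩
      ext
      · simp [em, cj]
        ring
      · simp [em, cj]
        ring
  · refine ⟨⟨n * (s + x1), x2⟩, hb, ?_⟩
    rintro ⟨a1, a2⟩
    ext
    · apply mul_left_cancel₀ hn
      simp only [em, cj, Prod.fst_add, Prod.snd_add, Prod.smul_fst, Prod.smul_snd, smul_eq_mul]
      linear_combination (n * a1) * h1 + (a2 * (n * (s + x1) + B * x2)) * k1 +
        (a2 * x2 * C) * k2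
    · apply mul_left_cancel₀ hn
      simp only [em, cj, Prod.fst_add, Prod.snd_add, Prod.smul_fst, Prod.smul_snd, smul_eq_mul]
      linear_combination (n * a2) * h1 + (-(a2 * x2 * n)) * k1 +
        (a2 * (n * (s + x1))) * k2

/-! ### The matrix -/

/-- `d g` is the action of a matrix with the determinant `d` -/
def HasM (g : Au) : Prop :=
  ∃ (α : Ord n B C) (β γ : ℤ × ℤ) (δ : Ord n B C) (d : ℤ), d ≠ 0 ∧
    dt α β γ δ = (d : Ord n B C) ∧ ∀ x, d • g x = act α β γ δ x

theorem act_lin (α : Ord n B C) (β γ : ℤ × ℤ) (δ : Ord n B C) (x : Mu) :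
    act α β γ δ x = x.1 • act α β γ δ (1, 0, 0) + x.2.1 • act α β γ δ (0, 1, 0) +
      act α β γ δ (0, 0, x.2.2) := by
  obtain ⟨a0, a1⟩ := α
  obtain ⟨d0, d1⟩ := δ
  obtain ⟨b0, b1⟩ := β
  obtain ⟨c0, c1⟩ := γ
  obtain ⟨r, s, u, v⟩ := x
  simp only [act, Hf, em, nm, tc, cj, qf, QuadraticAlgebra.re_mul, QuadraticAlgebra.im_mul,
    Prod.fst_add, Prod.snd_add, Prod.smul_fst, Prod.smul_snd, smul_eq_mul, Prod.fst_zero,
    Prod.snd_zero]
  ext
  · simp only [Prod.fst_add, Prod.snd_add, Prod.smul_fst, Prod.smul_snd, smul_eq_mul]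
    ring
  · simp only [Prod.fst_add, Prod.snd_add, Prod.smul_fst, Prod.smul_snd, smul_eq_mul]
    ring
  · simp only [Prod.fst_add, Prod.snd_add, Prod.smul_fst, Prod.smul_snd, smul_eq_mul]
    ring
  · simp only [Prod.fst_add, Prod.snd_add, Prod.smul_fst, Prod.smul_snd, smul_eq_mul]
    ring

theorem au_lin (g : Au) (x : Mu) :
    g x = x.1 • g (1, 0, 0) + x.2.1 • g (0, 1, 0) + g (0, 0, x.2.2) := by
  rw [← map_zsmul, ← map_zsmul, ← map_add, ← map_add]
  congr 1
  ext <;> simp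

theorem au_lin' (g : Au) (a : ℤ × ℤ) :
    g (0, 0, a) = a.1 • g (0, 0, (1, 0)) + a.2 • g (0, 0, (0, 1)) := by
  rw [← map_zsmul, ← map_zsmul, ← map_add]
  congr 1
  ext <;> simp

/-- the determinant of two vectors -/
def dd (x y : ℤ × ℤ) : ℤ := x.1 * y.2 - x.2 * y.1

/-- the case `s ≠ 0`, positive determinant -/
theorem hasM_of_pos (hDs : ¬ IsSquare (B ^ 2 - 4 * n * C)) {g : Au} (hg : Isom n B C g)
    (hs : (g (0, 1, 0)).2.1 ≠ 0)
    (hd : dd ((g (0, 1, 0)).2.1 • (g (0, 0, (1, 0))).2.2 -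
        (g (0, 0, (1, 0))).2.1 • (g (0, 1, 0)).2.2)
      ((g (0, 1, 0)).2.1 • (g (0, 0, (0, 1))).2.2 -
        (g (0, 0, (0, 1))).2.1 • (g (0, 1, 0)).2.2) = (g (0, 1, 0)).2.1 ^ 2) :
    HasM (n := n) (B := B) (C := C) g := by
  have hn := n_ne_zero hDs
  -- the images
  have Pg := fun x y => hg.Pf x y
  have q2 := hg (0, 1, 0)
  have q1 := hg (1, 0, 0)
  have p12 := Pg (0, 1, 0) (1, 0, 0)
  have q3 := hg (0, 0, (1, 0))
  have q4 := hg (0, 0, (0, 1))
  have p34 := Pg (0, 0, (1, 0)) (0, 0, (0, 1))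
  have p2 : ∀ a, Pf n B C (g (0, 1, 0)) (g (0, 0, a)) = 0 := fun a => by
    rw [Pg]; simp [Pf, pf]
  have p1 : ∀ a, Pf n B C (g (1, 0, 0)) (g (0, 0, a)) = 0 := fun a => by
    rw [Pg]; simp [Pf, pf]
  have hlin := au_lin' g
  have hlin2 := au_lin g
  rcases hy : g (0, 1, 0) with ⟨r, s, D⟩
  rcases hz : g (1, 0, 0) with ⟨r', s', D'⟩
  rw [hy] at q2 p12 hs hd p2
  rw [hz] at q1 p12 p1
  have h1 : qf n B C D = r * s := by
    simp only [Qf] at q2
    simp [qf] at q2
    simp only [qf]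
    linear_combination q2
  have h2 : qf n B C D' = r' * s' := by
    simp only [Qf] at q1
    simp [qf] at q1
    simp only [qf]
    linear_combination q1
  have h3 : pf n B C D D' = r * s' + s * r' - 1 := by
    simp only [Pf] at p12
    simp [pf] at p12
    simp only [pf]
    linear_combination p12
  have h4 : ∀ a, pf n B C D (g (0, 0, a)).2.2 =
      (g (0, 0, a)).1 * s + (g (0, 0, a)).2.1 * r := fun a => by
    have := p2 a
    simp only [Pf] at this
    linear_combination this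
  have h5 : ∀ a, pf n B C D' (g (0, 0, a)).2.2 =
      (g (0, 0, a)).1 * s' + (g (0, 0, a)).2.1 * r' := fun a => by
    have := p1 a
    simp only [Pf] at this
    linear_combination this
  -- the map `F`
  have h40 := h4 (1, 0)
  have h41 := h4 (0, 1)
  rcases h0 : g (0, 0, (1, 0)) with ⟨r0, s0, D0⟩
  rcases h1' : g (0, 0, (0, 1)) with ⟨r1, s1, D1⟩
  rw [h0] at q3 p34 hd h40
  rw [h1'] at q4 p34 hd h41
  simp only at hd h40 h41 hs
  have k1 : qf n B C (s • D0 - s0 • D) = s ^ 2 * n := by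
    have e1 : qf n B C D0 = n + r0 * s0 := by
      simp only [Qf] at q3
      simp [qf] at q3
      simp only [qf]
      linear_combination q3
    obtain ⟨x, y⟩ := D
    obtain ⟨u, v⟩ := D0
    simp only [qf, pf] at e1 h1 h40
    simp only [qf, Prod.fst_sub, Prod.snd_sub, Prod.smul_fst, Prod.smul_snd, smul_eq_mul]
    linear_combination s ^ 2 * e1 + s0 ^ 2 * h1 - s * s0 * h40
  have k2 : pf n B C (s • D0 - s0 • D) (s • D1 - s1 • D) = s ^ 2 * B := by
    have e1 : pf n B C D0 D1 = B + r0 * s1 + s0 * r1 := by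
      simp only [Pf] at p34
      simp [pf] at p34
      simp only [pf]
      linear_combination p34
    obtain ⟨x, y⟩ := D
    obtain ⟨u, v⟩ := D0
    obtain ⟨u', v'⟩ := D1
    simp only [qf, pf] at e1 h1 h40 h41
    simp only [pf, Prod.fst_sub, Prod.snd_sub, Prod.smul_fst, Prod.smul_snd, smul_eq_mul]
    linear_combination s ^ 2 * e1 + 2 * s0 * s1 * h1 - s * s0 * h41 - s * s1 * h40
  obtain ⟨b, hb0, hb⟩ := exists_b hn hs k1 k2 hd
  refine ⟨b * kap n B C s r' D D', em (cj b) D, em (cj b) (s • D' - s' • D),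
    (s : Ord n B C) * cj b, nm b * s, mul_ne_zero (nm_ne_zero hDs hb0) hs, core_dt b h1 h3,
    fun x => ?_⟩
  have hb' : em (cj b) (s • (g (0, 0, x.2.2)).2.2 - (g (0, 0, x.2.2)).2.1 • D) =
      s • em b x.2.2 := by
    rw [← hb x.2.2, hlin x.2.2, h0, h1']
    congr 1
    ext
    · simp
      ring
    · simp
      ring
  rw [act_lin, core_1 b h1 h2 h3, core_2 b h1, core_3 b hs h1 h3 (h4 x.2.2) (h5 x.2.2) hb',
    hlin2 x, hy, hz, smul_comm, smul_comm x.2.1, ← smul_add, ← smul_add]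

theorem T_isom : Isom n B C (T n B C) := by
  intro x
  rw [T_apply]
  simp only [Qf]
  ring

/-- the case `r s ≠ 0` -/
theorem hasM_of_ne (hD : 0 < B ^ 2 - 4 * n * C) (hDs : ¬ IsSquare (B ^ 2 - 4 * n * C)) {g : Au}
    (hg : Isom n B C g) (hr : (g (0, 1, 0)).1 ≠ 0) (hs : (g (0, 1, 0)).2.1 ≠ 0) :
    HasM (n := n) (B := B) (C := C) g ∨ HasM (n := n) (B := B) (C := C) (T n B C * g) := by
  have hΔ : B ^ 2 - 4 * n * C ≠ 0 := hD.ne'
  have Pg := fun x y => hg.Pf x y
  have q2 := hg (0, 1, 0)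
  have q3 := hg (0, 0, (1, 0))
  have q4 := hg (0, 0, (0, 1))
  have p34 := Pg (0, 0, (1, 0)) (0, 0, (0, 1))
  have p2 : ∀ a, Pf n B C (g (0, 1, 0)) (g (0, 0, a)) = 0 := fun a => by
    rw [Pg]; simp [Pf, pf]
  have p20 := p2 (1, 0)
  have p21 := p2 (0, 1)
  have P := hasM_of_pos hDs hg hs
  have P' := hasM_of_pos (g := T n B C * g) hDs (T_isom.mul hg)
  rw [LinearEquiv.mul_apply, LinearEquiv.mul_apply, LinearEquiv.mul_apply, T_apply, T_apply,
    T_apply] at P'
  replace P' := P' hr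
  rcases hy : g (0, 1, 0) with ⟨r, s, D⟩
  rcases h0 : g (0, 0, (1, 0)) with ⟨r0, s0, D0⟩
  rcases h1' : g (0, 0, (0, 1)) with ⟨r1, s1, D1⟩
  rw [hy] at q2 p20 p21 hs hr
  rw [h0] at q3 p34 p20
  rw [h1'] at q4 p34 p21
  rw [hy, h0, h1'] at P P'
  simp only at P P' hr hs
  have h1 : qf n B C D = r * s := by
    simp only [Qf] at q2
    simp [qf] at q2
    simp only [qf]
    linear_combination q2
  have h40 : pf n B C D D0 = r0 * s + s0 * r := by
    simp only [Pf] at p20
    linear_combination p20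
  have h41 : pf n B C D D1 = r1 * s + s1 * r := by
    simp only [Pf] at p21
    linear_combination p21
  have e0 : qf n B C D0 = n + r0 * s0 := by
    simp only [Qf] at q3
    simp [qf] at q3
    simp only [qf]
    linear_combination q3
  have e1 : qf n B C D1 = C + r1 * s1 := by
    simp only [Qf] at q4
    simp [qf] at q4
    simp only [qf]
    linear_combination q4
  have e2 : pf n B C D0 D1 = B + r0 * s1 + s0 * r1 := by
    simp only [Pf] at p34
    simp [pf] at p34
    simp only [pf]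
    linear_combination p34
  obtain ⟨x, y⟩ := D
  obtain ⟨u, v⟩ := D0
  obtain ⟨u', v'⟩ := D1
  simp only [qf, pf] at h1 h40 h41 e0 e1 e2
  simp only [dd, Prod.fst_sub, Prod.snd_sub, Prod.smul_fst, Prod.smul_snd, smul_eq_mul] at P P'
  set E : ℤ := (s * u - s0 * x) * (s * v' - s1 * y) - (s * v - s0 * y) * (s * u' - s1 * x)
    with hE
  set E' : ℤ := (r * u - r0 * x) * (r * v' - r1 * y) - (r * v - r0 * y) * (r * u' - r1 * x)
    with hE'
  have k0 : n * (s * u - s0 * x) ^ 2 + B * ((s * u - s0 * x) * (s * v - s0 * y)) +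
      C * (s * v - s0 * y) ^ 2 = s ^ 2 * n := by
    linear_combination s ^ 2 * e0 + s0 ^ 2 * h1 - s * s0 * h40
  have k1 : n * (s * u' - s1 * x) ^ 2 + B * ((s * u' - s1 * x) * (s * v' - s1 * y)) +
      C * (s * v' - s1 * y) ^ 2 = s ^ 2 * C := by
    linear_combination s ^ 2 * e1 + s1 ^ 2 * h1 - s * s1 * h41
  have k2 : 2 * n * ((s * u - s0 * x) * (s * u' - s1 * x)) +
      B * ((s * u - s0 * x) * (s * v' - s1 * y) + (s * v - s0 * y) * (s * u' - s1 * x)) +
      2 * C * ((s * v - s0 * y) * (s * v' - s1 * y)) = s ^ 2 * B := by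
    linear_combination s ^ 2 * e2 + 2 * s0 * s1 * h1 - s * s0 * h41 - s * s1 * h40
  have hE2 : (E - s ^ 2) * (E + s ^ 2) = 0 := by
    apply mul_left_cancel₀ hΔ
    rw [mul_zero, hE]
    set a := s * u - s0 * x
    set b := s * v - s0 * y
    set a' := s * u' - s1 * x
    set b' := s * v' - s1 * y
    linear_combination (-4 * (n * a' ^ 2 + B * (a' * b') + C * b' ^ 2)) * k0 -
      4 * s ^ 2 * n * k1 + ((2 * n * (a * a') + B * (a * b' + b * a') + 2 * C * (b * b')) +
        s ^ 2 * B) * k2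
  have hEE : r ^ 2 * E + s ^ 2 * E' = 0 := by
    rw [hE, hE']
    linear_combination (-(2 * r * s * (u * v' - v * u'))) * h1 -
      (r * s * (u' * y - v' * x)) * h40 - (r * s * (x * v - y * u)) * h41
  rcases mul_eq_zero.1 hE2 with h | h
  · left
    exact P (by linarith)
  · right
    refine P' ?_
    have hs2 : s ^ 2 ≠ 0 := pow_ne_zero 2 hs
    apply mul_left_cancel₀ hs2
    linear_combination hEE - r ^ 2 * h

theorem hasM_ex {g : Au} (z : ℤ × ℤ) (h : HasM (n := n) (B := B) (C := C) g) :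
    HasM (n := n) (B := B) (C := C) (ex n B C z * g) := by
  obtain ⟨α, β, γ, δ, d, hd, h1, h2⟩ := h
  refine ⟨α, β, γ + em (cj α) z, δ + Hf n B C β z, d, hd, ?_, fun x => ?_⟩
  · rw [← h1]
    obtain ⟨a0, a1⟩ := α
    obtain ⟨d0, d1⟩ := δ
    obtain ⟨b0, b1⟩ := β
    obtain ⟨c0, c1⟩ := γ
    obtain ⟨y0, y1⟩ := z
    ext
    · simp only [dt, Hf, em, cj, QuadraticAlgebra.re_mul, QuadraticAlgebra.im_mul,
        QuadraticAlgebra.re_add, QuadraticAlgebra.im_add, QuadraticAlgebra.re_sub,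
        QuadraticAlgebra.im_sub, Prod.fst_add, Prod.snd_add]
      ring
    · simp only [dt, Hf, em, cj, QuadraticAlgebra.re_mul, QuadraticAlgebra.im_mul,
        QuadraticAlgebra.re_add, QuadraticAlgebra.im_add, QuadraticAlgebra.re_sub,
        QuadraticAlgebra.im_sub, Prod.fst_add, Prod.snd_add]
      ring
  · rw [LinearEquiv.mul_apply, ← map_zsmul, h2, act_l21]

theorem act_T (α : Ord n B C) (β γ : ℤ × ℤ) (δ : Ord n B C) (x : Mu) :
    T n B C (act α β γ δ (T n B C x)) = act (cj δ) γ β (cj α) x := by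
  obtain ⟨a0, a1⟩ := α
  obtain ⟨d0, d1⟩ := δ
  obtain ⟨b0, b1⟩ := β
  obtain ⟨c0, c1⟩ := γ
  obtain ⟨r, s, u, v⟩ := x
  rw [T_apply, T_apply]
  simp only [act, Hf, em, nm, tc, cj, qf, QuadraticAlgebra.re_mul, QuadraticAlgebra.im_mul,
    Prod.fst_add, Prod.snd_add, Prod.smul_fst, Prod.smul_snd, smul_eq_mul]
  ext
  · simp only
    ring
  · simp only
    ring
  · simp only [Prod.fst_add, Prod.snd_add, Prod.smul_fst, Prod.smul_snd, smul_eq_mul]
    ring
  · simp only [Prod.fst_add, Prod.snd_add, Prod.smul_fst, Prod.smul_snd, smul_eq_mul]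
    ring

theorem hasM_T {g : Au} (h : HasM (n := n) (B := B) (C := C) g) :
    HasM (n := n) (B := B) (C := C) (T n B C * g * T n B C) := by
  obtain ⟨α, β, γ, δ, d, hd, h1, h2⟩ := h
  refine ⟨cj δ, γ, β, cj α, d, hd, ?_, fun x => ?_⟩
  · have h3 : cj (dt α β γ δ) = (d : Ord n B C) := by rw [h1, cj_int]
    rw [← h3]
    obtain ⟨a0, a1⟩ := α
    obtain ⟨d0, d1⟩ := δ
    obtain ⟨b0, b1⟩ := β
    obtain ⟨c0, c1⟩ := γ
    ext
    · simp only [dt, Hf, cj, QuadraticAlgebra.re_mul, QuadraticAlgebra.im_mul,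
        QuadraticAlgebra.re_sub, QuadraticAlgebra.im_sub]
      ring
    · simp only [dt, Hf, cj, QuadraticAlgebra.re_mul, QuadraticAlgebra.im_mul,
        QuadraticAlgebra.re_sub, QuadraticAlgebra.im_sub]
      ring
  · rw [LinearEquiv.mul_apply, LinearEquiv.mul_apply, ← map_zsmul, h2, act_T]

theorem hasM_TexT {g : Au} (z : ℤ × ℤ) (h : HasM (n := n) (B := B) (C := C) g) :
    HasM (n := n) (B := B) (C := C) (T n B C * ex n B C z * T n B C * g) := by
  have h1 := hasM_T (hasM_ex z (hasM_T h))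
  have e : T n B C * (ex n B C z * (T n B C * g * T n B C)) * T n B C =
      T n B C * ex n B C z * T n B C * g * (T n B C * T n B C) := by group
  rw [e, T_mul, mul_one] at h1
  exact h1

/-- the case `r ≠ 0` -/
theorem hasM_of_r (hD : 0 < B ^ 2 - 4 * n * C) (hDs : ¬ IsSquare (B ^ 2 - 4 * n * C)) {g : Au}
    (hg : Isom n B C g) (hr : (g (0, 1, 0)).1 ≠ 0) :
    HasM (n := n) (B := B) (C := C) g ∨ HasM (n := n) (B := B) (C := C) (T n B C * g) := by
  by_cases hs : (g (0, 1, 0)).2.1 = 0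
  · have hn := n_ne_zero hDs
    have q2 := hg (0, 1, 0)
    have hD0 : (g (0, 1, 0)).2.2 = 0 := by
      apply qf_eq_zero hDs hn
      simp only [Qf] at q2
      rw [hs] at q2
      simp [qf] at q2
      simp only [qf]
      linear_combination q2
    have e1 : ((ex n B C (1, 0) * g) (0, 1, 0)).1 = (g (0, 1, 0)).1 := by
      rw [LinearEquiv.mul_apply, ex_apply]
    have e2 : ((ex n B C (1, 0) * g) (0, 1, 0)).2.1 = (g (0, 1, 0)).1 * n := by
      rw [LinearEquiv.mul_apply, ex_apply, hs, hD0]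
      simp [pf, qf]
    have ee : ex n B C (-(1, 0)) * ex n B C (1, 0) = 1 := by
      rw [ex_neg, inv_mul_cancel]
    rcases hasM_of_ne hD hDs ((ex_isom (1, 0)).mul hg) (by rw [e1]; exact hr)
      (by rw [e2]; exact mul_ne_zero hr hn) with h | h
    · left
      have h1 := hasM_ex (-(1, 0)) h
      rwa [← mul_assoc, ee, one_mul] at h1
    · right
      have h1 := hasM_TexT (-(1, 0)) h
      have e : T n B C * ex n B C (-(1, 0)) * T n B C * (T n B C * (ex n B C (1, 0) * g)) =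
          T n B C * ex n B C (-(1, 0)) * (T n B C * T n B C) * ex n B C (1, 0) * g := by group
      rw [e, T_mul, mul_one, mul_assoc (T n B C), ee, mul_one] at h1
      exact h1
  · exact hasM_of_ne hD hDs hg hr hs

/-- **Every isometry is a rational matrix**, up to the reflection `T`. -/
theorem hasM (hD : 0 < B ^ 2 - 4 * n * C) (hDs : ¬ IsSquare (B ^ 2 - 4 * n * C)) {g : Au}
    (hg : Isom n B C g) :
    HasM (n := n) (B := B) (C := C) g ∨ HasM (n := n) (B := B) (C := C) (T n B C * g) := by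
  by_cases hr : (g (0, 1, 0)).1 = 0
  · have hn := n_ne_zero hDs
    have q2 := hg (0, 1, 0)
    have hD0 : (g (0, 1, 0)).2.2 = 0 := by
      apply qf_eq_zero hDs hn
      simp only [Qf] at q2
      rw [hr] at q2
      simp [qf] at q2
      simp only [qf]
      linear_combination q2
    have hs : (g (0, 1, 0)).2.1 ≠ 0 := by
      intro hs
      have h1 : g (0, 1, 0) = 0 := by
        ext
        · exact hr
        · exact hs
        · rw [hD0]; rfl
        · rw [hD0]; rfl
      have h2 : ((0, 1, 0) : Mu) = 0 := by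
        apply g.injective
        rw [h1, map_zero]
      have h3 := congrArg (fun x : Mu => x.2.1) h2
      simp at h3
    have h := hasM_of_r (g := T n B C * g) hD hDs (T_isom.mul hg)
      (by rw [LinearEquiv.mul_apply, T_apply]; exact hs)
    rw [← mul_assoc, T_mul, one_mul] at h
    exact h.symm
  · exact hasM_of_r hD hDs hg hr

/-! ### Primitive matrices -/

theorem act_smul (k : ℤ) (α : Ord n B C) (β γ : ℤ × ℤ) (δ : Ord n B C) (x : Mu) :
    act ((k : Ord n B C) * α) (k • β) (k • γ) ((k : Ord n B C) * δ) x =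
      (k ^ 2) • act α β γ δ x := by
  obtain ⟨a0, a1⟩ := α
  obtain ⟨d0, d1⟩ := δ
  obtain ⟨b0, b1⟩ := β
  obtain ⟨c0, c1⟩ := γ
  obtain ⟨r, s, u, v⟩ := x
  simp only [act, Hf, em, nm, tc, cj, qf, QuadraticAlgebra.re_mul, QuadraticAlgebra.im_mul,
    QuadraticAlgebra.re_intCast, QuadraticAlgebra.im_intCast, Int.cast_id, Prod.smul_fst,
    Prod.smul_snd, smul_eq_mul]
  ext
  · simp only [Prod.smul_fst, smul_eq_mul]
    ring
  · simp only [Prod.smul_fst, Prod.smul_snd, smul_eq_mul]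
    ring
  · simp only [Prod.fst_add, Prod.smul_fst, Prod.smul_snd, smul_eq_mul]
    ring
  · simp only [Prod.snd_add, Prod.smul_snd, smul_eq_mul]
    ring

theorem dt_smul (k : ℤ) (α : Ord n B C) (β γ : ℤ × ℤ) (δ : Ord n B C) :
    dt ((k : Ord n B C) * α) (k • β) (k • γ) ((k : Ord n B C) * δ) =
      ((k ^ 2 : ℤ) : Ord n B C) * dt α β γ δ := by
  rw [dt, dt, Hf_smul_left, Hf_smul_right]
  push_cast
  ring

/-- the matrix may be chosen primitive -/
theorem prim_aux {g : Au} : ∀ (N : ℕ) (α : Ord n B C) (β γ : ℤ × ℤ) (δ : Ord n B C) (d : ℤ),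
    d.natAbs ≤ N → d ≠ 0 → dt α β γ δ = (d : Ord n B C) → (∀ x, d • g x = act α β γ δ x) →
    ∃ (α δ : Ord n B C) (β γ : ℤ × ℤ) (d : ℤ), d ≠ 0 ∧ dt α β γ δ = (d : Ord n B C) ∧
      (∀ p : ℕ, p.Prime → ¬ ((p : ℤ) ∣ α.re ∧ (p : ℤ) ∣ α.im ∧ (p : ℤ) ∣ δ.re ∧ (p : ℤ) ∣ δ.im ∧
        (p : ℤ) ∣ β.1 ∧ (p : ℤ) ∣ β.2 ∧ (p : ℤ) ∣ γ.1 ∧ (p : ℤ) ∣ γ.2)) ∧
      ∀ x, d • g x = act α β γ δ x := by
  intro N
  induction N with
  | zero =>
    intro α β γ δ d hN hd
    exact absurd (Int.natAbs_eq_zero.1 (Nat.le_zero.1 hN)) hd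
  | succ N ih =>
    intro α β γ δ d hN hd h1 h2
    by_cases hp : ∀ p : ℕ, p.Prime → ¬ ((p : ℤ) ∣ α.re ∧ (p : ℤ) ∣ α.im ∧ (p : ℤ) ∣ δ.re ∧
        (p : ℤ) ∣ δ.im ∧ (p : ℤ) ∣ β.1 ∧ (p : ℤ) ∣ β.2 ∧ (p : ℤ) ∣ γ.1 ∧ (p : ℤ) ∣ γ.2)
    · exact ⟨α, δ, β, γ, d, hd, h1, hp, h2⟩
    · push_neg at hp
      obtain ⟨p, hpp, ⟨a0, ha0⟩, ⟨a1, ha1⟩, ⟨d0, hd0⟩, ⟨d1, hd1⟩, ⟨b0, hb0⟩, ⟨b1, hb1⟩,
        ⟨c0, hc0⟩, ⟨c1, hc1⟩⟩ := hp
      have eα : α = ((p : ℤ) : Ord n B C) * (⟨a0, a1⟩ : Ord n B C) := by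
        ext
        · simpa [QuadraticAlgebra.re_mul, QuadraticAlgebra.re_intCast,
            QuadraticAlgebra.im_intCast] using ha0
        · simpa [QuadraticAlgebra.im_mul, QuadraticAlgebra.re_intCast,
            QuadraticAlgebra.im_intCast] using ha1
      have eδ : δ = ((p : ℤ) : Ord n B C) * (⟨d0, d1⟩ : Ord n B C) := by
        ext
        · simpa [QuadraticAlgebra.re_mul, QuadraticAlgebra.re_intCast,
            QuadraticAlgebra.im_intCast] using hd0
        · simpa [QuadraticAlgebra.im_mul, QuadraticAlgebra.re_intCast,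
            QuadraticAlgebra.im_intCast] using hd1
      have eβ : β = (p : ℤ) • ((b0, b1) : ℤ × ℤ) := by
        ext
        · simpa using hb0
        · simpa using hb1
      have eγ : γ = (p : ℤ) • ((c0, c1) : ℤ × ℤ) := by
        ext
        · simpa using hc0
        · simpa using hc1
      have hp0 : ((p : ℤ) ^ 2) ≠ 0 := pow_ne_zero 2 (by exact_mod_cast hpp.ne_zero)
      rw [eα, eδ, eβ, eγ, dt_smul] at h1
      have h3 := congrArg QuadraticAlgebra.re h1
      have h4 := congrArg QuadraticAlgebra.im h1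
      simp only [QuadraticAlgebra.re_mul, QuadraticAlgebra.im_mul, QuadraticAlgebra.re_intCast,
        QuadraticAlgebra.im_intCast, Int.cast_id] at h3 h4
      set w := dt (⟨a0, a1⟩ : Ord n B C) (b0, b1) (c0, c1) (⟨d0, d1⟩ : Ord n B C) with hw
      have h3' : d = (p : ℤ) ^ 2 * w.re := by
        rw [← h3]
        ring
      have h4' : w.im = 0 := by
        have : (p : ℤ) ^ 2 * w.im = 0 := by
          rw [← h4]
          ring
        rcases mul_eq_zero.1 this with h | h
        · exact absurd h hp0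
        · exact h
      have hd' : w.re ≠ 0 := by
        intro h
        rw [h, mul_zero] at h3'
        exact hd h3'
      refine ih ⟨a0, a1⟩ (b0, b1) (c0, c1) ⟨d0, d1⟩ w.re ?_ hd' ?_ fun x => ?_
      · have h5 : d.natAbs = p ^ 2 * w.re.natAbs := by
          rw [h3', Int.natAbs_mul, Int.natAbs_pow, Int.natAbs_natCast]
        have h6 : 0 < w.re.natAbs := Int.natAbs_pos.2 hd'
        have h7 : 2 ^ 2 ≤ p ^ 2 := Nat.pow_le_pow_left hpp.two_le 2
        have h8 : 2 ^ 2 * w.re.natAbs ≤ p ^ 2 * w.re.natAbs := Nat.mul_le_mul_right _ h7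
        omega
      · rw [← hw]
        ext
        · simp [QuadraticAlgebra.re_intCast]
        · simp [QuadraticAlgebra.im_intCast, h4']
      · have h5 := h2 x
        rw [eα, eδ, eβ, eγ, act_smul, h3', mul_smul] at h5
        exact smul_right_injective Mu hp0 h5

/-- **Every isometry is the action of a primitive integral matrix**, up to the reflection `T` and
the factor `d`, the determinant of the matrix. -/
theorem exists_act (hD : 0 < B ^ 2 - 4 * n * C) (hDs : ¬ IsSquare (B ^ 2 - 4 * n * C)) {g : Au}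
    (hg : Isom n B C g) : ∃ ρ : Au, (ρ = 1 ∨ ρ = T n B C) ∧
    ∃ (α δ : Ord n B C) (β γ : ℤ × ℤ) (d : ℤ), d ≠ 0 ∧ dt α β γ δ = (d : Ord n B C) ∧
      (∀ p : ℕ, p.Prime → ¬ ((p : ℤ) ∣ α.re ∧ (p : ℤ) ∣ α.im ∧ (p : ℤ) ∣ δ.re ∧ (p : ℤ) ∣ δ.im ∧
        (p : ℤ) ∣ β.1 ∧ (p : ℤ) ∣ β.2 ∧ (p : ℤ) ∣ γ.1 ∧ (p : ℤ) ∣ γ.2)) ∧
      ∀ x, d • (ρ * g) x = act α β γ δ x := by
  rcases hasM hD hDs hg with ⟨α, β, γ, δ, d, hd, h1, h2⟩ | ⟨α, β, γ, δ, d, hd, h1, h2⟩
  · refine ⟨1, Or.inl rfl, prim_aux d.natAbs α β γ δ d le_rfl hd h1 ?_⟩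
    intro x
    rw [one_mul]
    exact h2 x
  · exact ⟨T n B C, Or.inr rfl, prim_aux d.natAbs α β γ δ d le_rfl hd h1 h2⟩

end Pool.Agent.Mukai.RF
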