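import Pool.Agent.Work.MP_1e087a_ag.F.Par
import Pool.Agent.Work.MP_1e087a_ag.R4.Core

/-!
# Parity: isometries in the group generated by reflections and twists
-/

namespace Pool.Agent.Mukai

variable {n B C : ℤ}

theorem int_cast_zero {a : ℤ} (h : (a : ZMod 2) = 0) : Even a := by
  obtain ⟨b, hb⟩ := cast_two_eq_zero h
  exact ⟨b, hb⟩

theorem int_cast_one {a : ℤ} (h : (a : ZMod 2) = 1) : Odd a := by
  obtain ⟨b, hb⟩ := cast_two_eq_one h
  exact ⟨b, hb⟩

/-! ### The form is hyperbolic modulo two -/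

/-- a twist is a product of reflections if it preserves the class of an odd vector -/
theorem ex_mem_of_Rl (hB : Odd B) (hnC : Even (n * C)) {a : ℤ × ℤ} {v : Mu}
    (hv : Odd (Qf n B C v)) (h : Rl (red (ex n B C a v)) (red v)) : ex n B C a ∈ W n B C := by
  set γ : Mu →+ Mu := (ex n B C a).toLinearMap.toAddMonoidHom with hγ
  have hγx : ∀ x, γ x = ex n B C a x := fun x => rfl
  have hodd : Odd (Qf n B C (1, 1, 0)) := by
    simp [Qf, qf]
  have h4 := Rl_all hB hnC (γ := γ) (fun x => by rw [hγx, ex_isom]) hv h hodd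
  have h5 : γ (1, 1, 0) = (1, qf n B C a + 1, a) := by
    rw [hγx, ex_apply]
    ext
    · simp
    · simp [pf]
      ring
    · simp
    · simp
  rw [h5] at h4
  rcases h4 with h4 | h4
  · simp only [red, Prod.mk.injEq] at h4
    obtain ⟨_, _, h7, h8⟩ := h4
    exact ex_zero_mem (by simpa using h7) (by simpa using h8)
  · apply ex_odd_mem'
    simp only [p2, red] at h4
    push_cast at h4
    have h9 : ∀ z : ZMod 2, a.1 * 0 + a.2 * 0 + 1 * 1 + (z + 1) * 1 = 1 → z = 1 := by
      intro z hz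
      have : z + 2 = 1 := by linear_combination hz
      rw [two_zero, add_zero] at this
      exact this
    apply h9
    simpa using h4

/-! ### The form is zero modulo two -/

set_option synthInstance.maxSize 100000 in
set_option maxRecDepth 100000 in
theorem zero_aux : ∀ v1 v2 v3 v4 x1 x2 x3 x4 : ZMod 2, v1 * v2 = 1 → x1 + x2 = 0 →
    (x1 + (x1 * v2 + x2 * v1) * v1 = x1 ∧ x2 + (x1 * v2 + x2 * v1) * v2 = x2 ∧
      x3 + (x1 * v2 + x2 * v1) * v3 = x3 ∧ x4 + (x1 * v2 + x2 * v1) * v4 = x4) := by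
  decide

/-- reflections fix the vectors `(r, s, D)` with `r + s` even modulo two -/
theorem refl_fix2 (hn : (n : ZMod 2) = 0) (hB : (B : ZMod 2) = 0) (hC : (C : ZMod 2) = 0) {v : Mu}
    (hv : Unit2 n B C v) {x : Mu} (hx : (x.1 : ZMod 2) + x.2.1 = 0) :
    m2 (refl n B C v x) = m2 x := by
  obtain ⟨v1, v2, v3, v4⟩ := v
  obtain ⟨x1, x2, x3, x4⟩ := x
  have hQ : (Qf n B C (v1, v2, v3, v4) : ZMod 2) = 1 := by
    rcases hv with h | h <;> rw [h]
    · simp
    · decide
  have hQ' : (v1 * v2 : ZMod 2) = 1 := by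
    rw [← hQ]
    simp only [Qf, qf]
    push_cast
    rw [hn, hB, hC, sub_eq_add_neg, neg_two']
    ring
  have hP : (Pf n B C (x1, x2, x3, x4) (v1, v2, v3, v4) : ZMod 2) = x1 * v2 + x2 * v1 := by
    simp only [Pf, pf]
    push_cast
    rw [hn, hB, hC]
    simp only [sub_eq_add_neg, neg_two']
    ring
  have h := zero_aux v1 v2 v3 v4 x1 x2 x3 x4 hQ' hx
  simp only [refl, m2, Prod.fst_sub, Prod.snd_sub, Prod.smul_fst, Prod.smul_snd, smul_eq_mul]
  push_cast
  rw [hQ, hP, one_mul]
  simp only [sub_eq_add_neg, neg_two']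
  rw [h.1, h.2.1, h.2.2.1, h.2.2.2]

/-- products of reflections fix the vectors `(r, s, D)` with `r + s` even modulo two -/
theorem W_fix2 (hn : (n : ZMod 2) = 0) (hB : (B : ZMod 2) = 0) (hC : (C : ZMod 2) = 0) {w : Au}
    (hw : w ∈ W n B C) : ∀ x : Mu, (x.1 : ZMod 2) + x.2.1 = 0 → m2 (w x) = m2 x := by
  have key : ∀ {y x : Mu}, m2 y = m2 x → (x.1 : ZMod 2) + x.2.1 = 0 →
      (y.1 : ZMod 2) + y.2.1 = 0 := by
    intro y x h hx
    simp only [m2, Prod.mk.injEq] at h
    rw [h.1, h.2.1]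
    exact hx
  induction hw using Subgroup.closure_induction_left with
  | one => exact fun x _ => rfl
  | mul_left g hg y _ hy =>
    obtain ⟨v, hv, rfl⟩ := hg
    intro x hx
    have h1 := hy x hx
    rw [LinearEquiv.mul_apply, R_apply, refl_fix2 hn hB hC hv (key h1 hx), h1]
  | inv_mul_cancel g hg y _ hy =>
    obtain ⟨v, hv, rfl⟩ := hg
    intro x hx
    have h1 := hy x hx
    rw [LinearEquiv.mul_apply, R_inv, R_apply, refl_fix2 hn hB hC hv (key h1 hx), h1]

theorem m2_neg (x : Mu) : m2 (-x) = m2 x := by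
  simp only [m2, Prod.fst_neg, Prod.snd_neg]
  push_cast
  simp only [neg_two']

/-! ### The theorem -/

/-- **An isometry in the group generated by the reflections and the twists is a product of
reflections** if the discriminant is not `1` modulo `8` and the form has odd values, or if the
isometry maps a vector of odd norm to itself or to its negative. -/
theorem mem_W_of_par {g : Au} (hg : g ∈ Wp n B C)
    (hp : ((B ^ 2 - 4 * n * C) % 8 ≠ 1 ∧ ∃ a, Odd (qf n B C a)) ∨
      ∃ v : Mu, Odd (Qf n B C v) ∧ (g v = v ∨ g v = -v)) : g ∈ W n B C := by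
  obtain ⟨w, hw, a, rfl⟩ := Wp_decomp hg
  refine mul_mem hw ?_
  by_cases h : Hyp n B C
  swap
  · exact ex_mem_of_not_hyp h a
  have hwi : w⁻¹ ∈ W n B C := inv_mem hw
  have hex : ∀ v, ex n B C a v = w⁻¹ ((w * ex n B C a) v) := fun v => by
    rw [LinearEquiv.mul_apply]
    exact (LinearEquiv.symm_apply_apply w _).symm
  rcases h with ⟨hn, hB, hC⟩ | ⟨hB, hnC⟩
  · rcases hp with ⟨_, b, hb⟩ | ⟨v, hv, hgv⟩
    · exfalso
      have h1 := odd_cast hb
      rw [qf_cast, hn, hB, hC] at h1
      simp at h1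
    · have h1 := odd_cast hv
      have h2 : (v.1 * v.2.1 : ZMod 2) = 1 := by
        rw [← h1]
        simp only [Qf, qf]
        push_cast
        rw [hn, hB, hC, sub_eq_add_neg, neg_two']
        ring
      have h3 : ∀ x y : ZMod 2, x * y = 1 → x = 1 ∧ x + y = 0 := by decide
      obtain ⟨h4, h5⟩ := h3 _ _ h2
      have h6 : m2 (ex n B C a v) = m2 v := by
        rw [hex]
        rcases hgv with h | h
        · rw [h, W_fix2 hn hB hC hwi v h5]
        · rw [h, map_neg, m2_neg, W_fix2 hn hB hC hwi v h5]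
      rw [ex_apply] at h6
      simp only [m2, Prod.mk.injEq, Prod.fst_add, Prod.snd_add, Prod.smul_fst, Prod.smul_snd,
        smul_eq_mul] at h6
      obtain ⟨_, _, h7, h8⟩ := h6
      push_cast at h7 h8
      rw [h4, one_mul, add_eq_left] at h7 h8
      exact ex_zero_mem h7 h8
  · have hBo : Odd B := int_cast_one hB
    have hnCe : Even (n * C) := int_cast_zero (by push_cast; exact hnC)
    rcases hp with ⟨h8, _⟩ | ⟨v, hv, hgv⟩
    · exfalso
      apply h8
      obtain ⟨k, hk⟩ := hBo
      obtain ⟨l, hl⟩ := hnCe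
      obtain ⟨j, hj⟩ := Int.even_mul_succ_self k
      have : B ^ 2 - 4 * n * C = 8 * (j - l) + 1 := by
        have e1 : B ^ 2 = 4 * (k * (k + 1)) + 1 := by rw [hk]; ring
        rw [e1, hj, mul_assoc, hl]
        ring
      omega
    · refine ex_mem_of_Rl hBo hnCe hv ?_
      rw [hex]
      have h1 := W_Rl hBo hnCe hwi hv
      rcases hgv with h | h
      · rw [h]
        exact h1
      · rw [h, map_neg, red_neg]
        exact h1

/-- the same statement for the isometries of the Mukai lattice that act as `ν = ± 1` on the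
discriminant group -/
theorem isProd_of_Wp {ν : ℤ} (hν : ν = 1 ∨ ν = -1) {g : Mu →+ Mu} {g' : Au}
    (hg' : ∀ x, g' x = ν • g x) (h : g' ∈ Wp n B C)
    (hp : ((B ^ 2 - 4 * n * C) % 8 ≠ 1 ∧ ∃ a, Odd (qf n B C a)) ∨
      ∃ v : Mu, Odd (Qf n B C v) ∧ (g v = v ∨ g v = -v)) : IsProd n B C (fun x => ν • g x) := by
  have h1 : g' ∈ W n B C := by
    refine mem_W_of_par h ?_
    rcases hp with hp | ⟨v, hv, hgv⟩
    · exact Or.inl hp
    · refine Or.inr ⟨v, hv, ?_⟩
      rw [hg']
      rcases hν with rfl | rfl <;> rcases hgv with h | h <;> rw [h]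
      · left
        rw [one_smul]
      · right
        rw [one_smul]
      · right
        rw [neg_smul, one_smul]
      · left
        rw [neg_smul, one_smul, neg_neg]
  obtain ⟨l, h2, h3⟩ := isProd_of_mem h1
  exact ⟨l, h2, fun x => by rw [← h3, hg']⟩

end Pool.Agent.Mukai
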