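import Pool.Agent.Work.MP_1e087a_ag.F.Mat

set_option autoImplicit false

/-!
# The determinant of the matrix of an isometry

An isometry which is trivial on the discriminant group has a matrix of determinant `± 1`.
-/

namespace Pool.Agent.Mukai.RF

open Pool.Agent.Mukai

variable {n B C : ℤ}

/-- the alternating form -/
def al (x y : ℤ × ℤ) : ℤ := x.2 * y.1 - x.1 * y.2

/-- the vector with the coordinates `[m, y₁]`, `[m, y₂]` -/
def yy (y₁ y₂ m : ℤ × ℤ) : ℤ × ℤ := (al m y₁, al m y₂)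

/-- the data obtained from the triviality on the discriminant group -/
structure DD (n B C : ℤ) (α : Ord n B C) (β γ : ℤ × ℤ) (δ : Ord n B C) (d : ℤ)
    (yr ys y₁ y₂ : ℤ × ℤ) : Prop where
  det : dt α β γ δ = (d : Ord n B C)
  hR : ∀ y, tc (α * Hf n B C y β) = d * pf n B C yr y
  hS : ∀ y, tc (δ * Hf n B C γ y) = d * pf n B C ys y
  hL : ∀ y, em (Hf n B C β y) γ + em α (em (cj δ) y) =
    d • y + (d * pf n B C y₁ y, d * pf n B C y₂ y)

variable {α δ : Ord n B C} {β γ : ℤ × ℤ} {d : ℤ} {yr ys y₁ y₂ : ℤ × ℤ}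

/-- the first entry -/
lemma DD.r (h : DD n B C α β γ δ d yr ys y₁ y₂) (hD : B ^ 2 - 4 * n * C ≠ 0) (m : ℤ × ℤ) :
    (α * Hf n B C m β).im = d * al m yr := by
  obtain ⟨a0, a1⟩ := α
  obtain ⟨b1, b2⟩ := β
  obtain ⟨r1, r2⟩ := yr
  have h1 := h.hR (1, 0)
  have h2 := h.hR (0, 1)
  obtain ⟨m1, m2⟩ := m
  simp only [tc, Hf, pf, QuadraticAlgebra.re_mul, QuadraticAlgebra.im_mul] at h1 h2
  simp only [al, Hf, QuadraticAlgebra.im_mul]
  apply mul_left_cancel₀ hD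
  linear_combination (-B * m1 - 2 * C * m2) * h1 + (2 * n * m1 + B * m2) * h2

/-- the last entry -/
lemma DD.s (h : DD n B C α β γ δ d yr ys y₁ y₂) (hD : B ^ 2 - 4 * n * C ≠ 0) (m : ℤ × ℤ) :
    (δ * Hf n B C γ m).im = -(d * al m ys) := by
  obtain ⟨d0, d1⟩ := δ
  obtain ⟨c1, c2⟩ := γ
  obtain ⟨r1, r2⟩ := ys
  have h1 := h.hS (1, 0)
  have h2 := h.hS (0, 1)
  obtain ⟨m1, m2⟩ := m
  simp only [tc, Hf, pf, QuadraticAlgebra.re_mul, QuadraticAlgebra.im_mul] at h1 h2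
  simp only [al, Hf, QuadraticAlgebra.im_mul]
  apply mul_left_cancel₀ hD
  linear_combination (B * m1 + 2 * C * m2) * h1 - (2 * n * m1 + B * m2) * h2

/-- the middle entry -/
lemma DD.l (h : DD n B C α β γ δ d yr ys y₁ y₂) (hD : B ^ 2 - 4 * n * C ≠ 0) (m : ℤ × ℤ) :
    al m γ • β - δ.im • em α m = d • yy y₁ y₂ m := by
  obtain ⟨a0, a1⟩ := α
  obtain ⟨d0, d1⟩ := δ
  obtain ⟨b1, b2⟩ := β
  obtain ⟨c1, c2⟩ := γ
  obtain ⟨p1, p2⟩ := y₁
  obtain ⟨q1, q2⟩ := y₂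
  have h1 := h.hL (1, 0)
  have h2 := h.hL (0, 1)
  have hd := h.det
  have hd0 := congrArg QuadraticAlgebra.re hd
  have hd1 := congrArg QuadraticAlgebra.im hd
  have h11 := congrArg Prod.fst h1
  have h12 := congrArg Prod.snd h1
  have h21 := congrArg Prod.fst h2
  have h22 := congrArg Prod.snd h2
  obtain ⟨m1, m2⟩ := m
  simp only [dt, Hf, QuadraticAlgebra.re_mul, QuadraticAlgebra.im_mul, QuadraticAlgebra.re_sub,
    QuadraticAlgebra.im_sub, QuadraticAlgebra.re_intCast, QuadraticAlgebra.im_intCast,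
    Int.cast_id] at hd0 hd1
  simp only [em, Hf, pf, cj, Prod.fst_add, Prod.snd_add, Prod.smul_fst, Prod.smul_snd,
    smul_eq_mul] at h11 h12 h21 h22
  ext
  · simp only [em, al, yy, Prod.fst_sub, Prod.smul_fst, smul_eq_mul]
    apply mul_left_cancel₀ hD
    linear_combination (-B * m1 - 2 * C * m2) * h11 + (2 * n * m1 + B * m2) * h21 -
      (-B * m1 - 2 * C * m2) * hd0 + (2 * n * m1 + B * m2) * C * hd1
  · simp only [em, al, yy, Prod.snd_sub, Prod.smul_snd, smul_eq_mul]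
    apply mul_left_cancel₀ hD
    linear_combination (-B * m1 - 2 * C * m2) * h12 + (2 * n * m1 + B * m2) * h22 -
      (-B * m1 - 2 * C * m2) * n * hd1 - (2 * n * m1 + B * m2) * (hd0 + B * hd1)

/-- the matrix of `g X - X`, `X = m / √D`: first identity -/
lemma DD.i1 (h : DD n B C α β γ δ d yr ys y₁ y₂) (hD : B ^ 2 - 4 * n * C ≠ 0) (hd : d ≠ 0)
    (m : ℤ × ℤ) : ((al m β : ℤ) : Ord n B C) =
      ((al m yr : ℤ) : Ord n B C) * cj δ - Hf n B C (yy y₁ y₂ m) β := by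
  have hr := h.r hD m
  have hl1 := congrArg Prod.fst (h.l hD m)
  have hl2 := congrArg Prod.snd (h.l hD m)
  have hd0 := congrArg QuadraticAlgebra.re h.det
  have hd1 := congrArg QuadraticAlgebra.im h.det
  generalize al m yr = rm at *
  generalize yy y₁ y₂ m = ym at *
  obtain ⟨a0, a1⟩ := α
  obtain ⟨d0, d1⟩ := δ
  obtain ⟨b1, b2⟩ := β
  obtain ⟨c1, c2⟩ := γ
  obtain ⟨u1, u2⟩ := ym
  obtain ⟨m1, m2⟩ := m
  simp only [dt, Hf, em, al, QuadraticAlgebra.re_mul, QuadraticAlgebra.im_mul,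
    QuadraticAlgebra.re_sub, QuadraticAlgebra.im_sub, QuadraticAlgebra.re_intCast,
    QuadraticAlgebra.im_intCast, Int.cast_id, Prod.fst_sub, Prod.snd_sub, Prod.smul_fst,
    Prod.smul_snd, smul_eq_mul] at hr hl1 hl2 hd0 hd1
  ext
  · simp only [Hf, al, cj, QuadraticAlgebra.re_mul, QuadraticAlgebra.re_sub,
      QuadraticAlgebra.re_intCast, QuadraticAlgebra.im_intCast, Int.cast_id]
    apply mul_left_cancel₀ hd
    linear_combination (-(m2 * b1 - m1 * b2)) * hd0 -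
      (B * (m2 * b1 - m1 * b2) + (n * (m1 * b1) + C * (m2 * b2) + B * (m1 * b2))) * hd1 +
      (d0 + B * d1) * hr - (n * b1 + B * b2) * hl1 - (C * b2) * hl2
  · simp only [Hf, al, cj, QuadraticAlgebra.im_mul, QuadraticAlgebra.im_sub,
      QuadraticAlgebra.re_intCast, QuadraticAlgebra.im_intCast, Int.cast_id]
    apply mul_left_cancel₀ hd
    linear_combination (-d1) * hr - b1 * hl2 + b2 * hl1

lemma DD.i2 (h : DD n B C α β γ δ d yr ys y₁ y₂) (hD : B ^ 2 - 4 * n * C ≠ 0) (hd : d ≠ 0)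
    (m : ℤ × ℤ) : α.im • m = em (cj α) (yy y₁ y₂ m) - al m yr • γ := by
  have hr := h.r hD m
  have hl1 := congrArg Prod.fst (h.l hD m)
  have hl2 := congrArg Prod.snd (h.l hD m)
  have hd0 := congrArg QuadraticAlgebra.re h.det
  have hd1 := congrArg QuadraticAlgebra.im h.det
  generalize al m yr = rm at *
  generalize yy y₁ y₂ m = ym at *
  obtain ⟨a0, a1⟩ := α
  obtain ⟨d0, d1⟩ := δ
  obtain ⟨b1, b2⟩ := β
  obtain ⟨c1, c2⟩ := γ
  obtain ⟨u1, u2⟩ := ym
  obtain ⟨m1, m2⟩ := m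
  simp only [dt, Hf, em, al, QuadraticAlgebra.re_mul, QuadraticAlgebra.im_mul,
    QuadraticAlgebra.re_sub, QuadraticAlgebra.im_sub, QuadraticAlgebra.re_intCast,
    QuadraticAlgebra.im_intCast, Int.cast_id, Prod.fst_sub, Prod.snd_sub, Prod.smul_fst,
    Prod.smul_snd, smul_eq_mul] at hr hl1 hl2 hd0 hd1
  ext
  · simp only [em, cj, Prod.fst_sub, Prod.smul_fst, smul_eq_mul]
    apply mul_left_cancel₀ hd
    linear_combination (-(a1 * m1)) * hd0 + (a0 * m1) * hd1 + (a0 + B * a1) * hl1 +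
      (a1 * C) * hl2 - c1 * hr
  · simp only [em, cj, Prod.snd_sub, Prod.smul_snd, smul_eq_mul]
    apply mul_left_cancel₀ hd
    linear_combination (-(a1 * m2)) * hd0 + (a0 * m2) * hd1 + (-a1 * n) * hl1 +
      a0 * hl2 - c2 * hr

lemma DD.i3 (h : DD n B C α β γ δ d yr ys y₁ y₂) (hD : B ^ 2 - 4 * n * C ≠ 0) (hd : d ≠ 0)
    (m : ℤ × ℤ) : δ.im • m = al m ys • β - em δ (yy y₁ y₂ m) := by
  have hs := h.s hD m
  have hl1 := congrArg Prod.fst (h.l hD m)
  have hl2 := congrArg Prod.snd (h.l hD m)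
  have hd0 := congrArg QuadraticAlgebra.re h.det
  have hd1 := congrArg QuadraticAlgebra.im h.det
  generalize al m ys = sm at *
  generalize yy y₁ y₂ m = ym at *
  obtain ⟨a0, a1⟩ := α
  obtain ⟨d0, d1⟩ := δ
  obtain ⟨b1, b2⟩ := β
  obtain ⟨c1, c2⟩ := γ
  obtain ⟨u1, u2⟩ := ym
  obtain ⟨m1, m2⟩ := m
  simp only [dt, Hf, em, al, QuadraticAlgebra.re_mul, QuadraticAlgebra.im_mul,
    QuadraticAlgebra.re_sub, QuadraticAlgebra.im_sub, QuadraticAlgebra.re_intCast,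
    QuadraticAlgebra.im_intCast, Int.cast_id, Prod.fst_sub, Prod.snd_sub, Prod.smul_fst,
    Prod.smul_snd, smul_eq_mul] at hs hl1 hl2 hd0 hd1
  ext
  · simp only [em, Prod.fst_sub, Prod.smul_fst, smul_eq_mul]
    apply mul_left_cancel₀ hd
    linear_combination (-(d1 * m1)) * hd0 - (d1 * (-C * m2)) * hd1 - d0 * hl1 +
      (d1 * C) * hl2 - b1 * hs
  · simp only [em, Prod.snd_sub, Prod.smul_snd, smul_eq_mul]
    apply mul_left_cancel₀ hd
    linear_combination (-(d1 * m2)) * hd0 - (d1 * (n * m1 + B * m2)) * hd1 - (d1 * n) * hl1 -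
      (d0 + d1 * B) * hl2 - b2 * hs

lemma DD.i4 (h : DD n B C α β γ δ d yr ys y₁ y₂) (hD : B ^ 2 - 4 * n * C ≠ 0) (hd : d ≠ 0)
    (m : ℤ × ℤ) : ((al m γ : ℤ) : Ord n B C) =
      ((al m ys : ℤ) : Ord n B C) * cj α - Hf n B C γ (yy y₁ y₂ m) := by
  have hs := h.s hD m
  have hl1 := congrArg Prod.fst (h.l hD m)
  have hl2 := congrArg Prod.snd (h.l hD m)
  have hd0 := congrArg QuadraticAlgebra.re h.det
  have hd1 := congrArg QuadraticAlgebra.im h.det
  generalize al m ys = sm at *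
  generalize yy y₁ y₂ m = ym at *
  obtain ⟨a0, a1⟩ := α
  obtain ⟨d0, d1⟩ := δ
  obtain ⟨b1, b2⟩ := β
  obtain ⟨c1, c2⟩ := γ
  obtain ⟨u1, u2⟩ := ym
  obtain ⟨m1, m2⟩ := m
  simp only [dt, Hf, em, al, QuadraticAlgebra.re_mul, QuadraticAlgebra.im_mul,
    QuadraticAlgebra.re_sub, QuadraticAlgebra.im_sub, QuadraticAlgebra.re_intCast,
    QuadraticAlgebra.im_intCast, Int.cast_id, Prod.fst_sub, Prod.snd_sub, Prod.smul_fst,
    Prod.smul_snd, smul_eq_mul] at hs hl1 hl2 hd0 hd1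
  ext
  · simp only [Hf, al, cj, QuadraticAlgebra.re_mul, QuadraticAlgebra.re_sub,
      QuadraticAlgebra.re_intCast, QuadraticAlgebra.im_intCast, Int.cast_id]
    apply mul_left_cancel₀ hd
    linear_combination (-(m2 * c1 - m1 * c2)) * hd0 - (B * (m2 * c1 - m1 * c2)) * hd1 -
      (a0 + B * a1) * hs - (n * c1) * hl1 - (C * c2 + B * c1) * hl2
  · simp only [Hf, al, cj, QuadraticAlgebra.im_mul, QuadraticAlgebra.im_sub,
      QuadraticAlgebra.re_intCast, QuadraticAlgebra.im_intCast, Int.cast_id]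
    apply mul_left_cancel₀ hd
    linear_combination (m2 * c1 - m1 * c2) * hd1 + a1 * hs - c2 * hl1 + c1 * hl2

lemma nm_int (a : ℤ) : nm ((a : ℤ) : Ord n B C) = a ^ 2 := by
  simp only [nm, QuadraticAlgebra.re_intCast, QuadraticAlgebra.im_intCast, Int.cast_id]
  ring

lemma nm_one (r : ℤ) (δ : Ord n B C) (y β : ℤ × ℤ) :
    nm ((r : Ord n B C) * cj δ - Hf n B C y β) =
      r ^ 2 * nm δ - r * pf n B C (em (cj δ) β) y + qf n B C y * qf n B C β := by
  obtain ⟨d0, d1⟩ := δ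
  obtain ⟨b1, b2⟩ := β
  obtain ⟨y1, y2⟩ := y
  simp only [nm, Hf, cj, em, pf, qf, QuadraticAlgebra.re_mul, QuadraticAlgebra.im_mul,
    QuadraticAlgebra.re_sub, QuadraticAlgebra.im_sub, QuadraticAlgebra.re_intCast,
    QuadraticAlgebra.im_intCast, Int.cast_id]
  ring

lemma nm_two (r : ℤ) (α : Ord n B C) (y γ : ℤ × ℤ) :
    nm ((r : Ord n B C) * cj α - Hf n B C γ y) =
      r ^ 2 * nm α - r * pf n B C y (em α γ) + qf n B C y * qf n B C γ := by
  obtain ⟨d0, d1⟩ := α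
  obtain ⟨b1, b2⟩ := γ
  obtain ⟨y1, y2⟩ := y
  simp only [nm, Hf, cj, em, pf, qf, QuadraticAlgebra.re_mul, QuadraticAlgebra.im_mul,
    QuadraticAlgebra.re_sub, QuadraticAlgebra.im_sub, QuadraticAlgebra.re_intCast,
    QuadraticAlgebra.im_intCast, Int.cast_id]
  ring

lemma qf_three (s : ℤ) (δ : Ord n B C) (y β : ℤ × ℤ) :
    qf n B C (s • β - em δ y) =
      s ^ 2 * qf n B C β - s * pf n B C (em (cj δ) β) y + nm δ * qf n B C y := by
  obtain ⟨d0, d1⟩ := δ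
  obtain ⟨b1, b2⟩ := β
  obtain ⟨y1, y2⟩ := y
  simp only [nm, cj, em, pf, qf, Prod.fst_sub, Prod.snd_sub, Prod.smul_fst, Prod.smul_snd,
    smul_eq_mul]
  ring

lemma qf_four (r : ℤ) (α : Ord n B C) (y γ : ℤ × ℤ) :
    qf n B C (em (cj α) y - r • γ) =
      r ^ 2 * qf n B C γ - r * pf n B C y (em α γ) + nm α * qf n B C y := by
  obtain ⟨d0, d1⟩ := α
  obtain ⟨b1, b2⟩ := γ
  obtain ⟨y1, y2⟩ := y
  simp only [nm, cj, em, pf, qf, Prod.fst_sub, Prod.snd_sub, Prod.smul_fst, Prod.smul_snd,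
    smul_eq_mul]
  ring

lemma qf_smul' (a : ℤ) (m : ℤ × ℤ) : qf n B C (a • m) = a ^ 2 * qf n B C m := by
  simp only [qf, Prod.smul_fst, Prod.smul_snd, smul_eq_mul]
  ring

lemma pf_smul_left' (a : ℤ) (m x : ℤ × ℤ) : pf n B C (a • m) x = a * pf n B C m x := by
  simp only [pf, Prod.smul_fst, Prod.smul_snd, smul_eq_mul]
  ring

lemma pf_smul_right' (a : ℤ) (m x : ℤ × ℤ) : pf n B C x (a • m) = a * pf n B C x m := by
  simp only [pf, Prod.smul_fst, Prod.smul_snd, smul_eq_mul]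
  ring

/-- a prime dividing `z² q(m)` for all `m`, and `z` if it divides the content, divides `z` -/
lemma dvd_im {p z : ℤ} (hp : Prime p) (h : ∀ m, p ∣ z ^ 2 * qf n B C m)
    (h2 : p ∣ n → p ∣ B → p ∣ C → p ∣ z) : p ∣ z := by
  by_contra hz
  have h3 : ∀ m, p ∣ qf n B C m := fun m =>
    (hp.dvd_or_dvd (h m)).resolve_left fun h4 => hz (hp.dvd_of_dvd_pow h4)
  have e1 : p ∣ n := by simpa [qf] using h3 (1, 0)
  have e2 : p ∣ C := by simpa [qf] using h3 (0, 1)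
  have e3 : p ∣ n + B + C := by simpa [qf] using h3 (1, 1)
  have e4 : p ∣ B := by
    have : B = (n + B + C) - n - C := by ring
    rw [this]
    exact dvd_sub (dvd_sub e3 e1) e2
  exact hz (h2 e1 e4 e2)

/-- a prime dividing the norm and the coefficient of `ω` divides the other coefficient -/
lemma dvd_re {p : ℤ} (hp : Prime p) {α : Ord n B C} (h : p ∣ nm α) (h1 : p ∣ α.im) : p ∣ α.re := by
  have h2 : p ∣ α.re ^ 2 := by
    have e : α.re ^ 2 = nm α - α.im * (α.re * B + α.im * n * C) := by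
      rw [nm]
      ring
    rw [e]
    exact dvd_sub h (dvd_mul_of_dvd_left h1 _)
  exact hp.dvd_of_dvd_pow h2

lemma dvd_re' {p : ℤ} (hp : Prime p) {α : Ord n B C} (h : p ∣ nm α) (h1 : p ∣ n) (h2 : p ∣ B) :
    p ∣ α.re := by
  have h3 : p ∣ α.re ^ 2 := by
    have e : α.re ^ 2 = nm α - B * (α.re * α.im) - n * (α.im ^ 2 * C) := by
      rw [nm]
      ring
    rw [e]
    exact dvd_sub (dvd_sub h (dvd_mul_of_dvd_left h2 _)) (dvd_mul_of_dvd_left h1 _)
  exact hp.dvd_of_dvd_pow h3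

/-- **The determinant.** The primitive matrix of an isometry which is trivial on the discriminant
group has determinant `± 1`. -/
theorem det_unit (hD : B ^ 2 - 4 * n * C ≠ 0) (hd : d ≠ 0) {g : Au}
    (hdt : dt α β γ δ = (d : Ord n B C)) (hg : ∀ x, d • g x = act α β γ δ x)
    (hprim : ∀ p : ℕ, p.Prime → ¬ ((p : ℤ) ∣ α.re ∧ (p : ℤ) ∣ α.im ∧ (p : ℤ) ∣ δ.re ∧
      (p : ℤ) ∣ δ.im ∧ (p : ℤ) ∣ β.1 ∧ (p : ℤ) ∣ β.2 ∧ (p : ℤ) ∣ γ.1 ∧ (p : ℤ) ∣ γ.2))
    (hdisc : ∀ φ : Mu →+ ℤ, ∃ a : Mu, ∀ x, φ (g x) - φ x = Pf n B C a x) :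
    d = 1 ∨ d = -1 := by
  obtain ⟨⟨ar1, ar2, yr⟩, hr⟩ := hdisc (AddMonoidHom.fst ℤ (ℤ × (ℤ × ℤ)))
  obtain ⟨⟨as1, as2, ys⟩, hs⟩ := hdisc ((AddMonoidHom.fst ℤ (ℤ × ℤ)).comp
    (AddMonoidHom.snd ℤ (ℤ × (ℤ × ℤ))))
  obtain ⟨⟨a11, a12, y₁⟩, h1⟩ := hdisc ((AddMonoidHom.fst ℤ ℤ).comp
    ((AddMonoidHom.snd ℤ (ℤ × ℤ)).comp (AddMonoidHom.snd ℤ (ℤ × (ℤ × ℤ)))))
  obtain ⟨⟨a21, a22, y₂⟩, h2⟩ := hdisc ((AddMonoidHom.snd ℤ ℤ).comp
    ((AddMonoidHom.snd ℤ (ℤ × ℤ)).comp (AddMonoidHom.snd ℤ (ℤ × (ℤ × ℤ)))))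
  have hDD : DD n B C α β γ δ d yr ys y₁ y₂ := by
    refine ⟨hdt, fun y => ?_, fun y => ?_, fun y => ?_⟩
    · have e1 := hr (0, 0, y)
      have e2 := congrArg Prod.fst (hg (0, 0, y))
      simp only [AddMonoidHom.coe_fst, Pf] at e1
      simp only [act, Prod.smul_fst, smul_eq_mul] at e2
      linear_combination d * e1 - e2
    · have e1 := hs (0, 0, y)
      have e2 := congrArg (fun z : Mu => z.2.1) (hg (0, 0, y))
      simp only [AddMonoidHom.coe_comp, AddMonoidHom.coe_fst, AddMonoidHom.coe_snd,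
        Function.comp_apply, Pf] at e1
      simp only [act, Prod.smul_fst, Prod.smul_snd, smul_eq_mul] at e2
      linear_combination d * e1 - e2
    · have e1 := h1 (0, 0, y)
      have e2 := h2 (0, 0, y)
      have e3 := congrArg (fun z : Mu => z.2.2.1) (hg (0, 0, y))
      have e4 := congrArg (fun z : Mu => z.2.2.2) (hg (0, 0, y))
      simp only [AddMonoidHom.coe_comp, AddMonoidHom.coe_fst, AddMonoidHom.coe_snd,
        Function.comp_apply, Pf] at e1 e2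
      simp only [act, Prod.smul_fst, Prod.smul_snd, smul_eq_mul, Prod.fst_add, Prod.snd_add]
        at e3 e4
      ext
      · simp only [Prod.fst_add, Prod.smul_fst, smul_eq_mul]
        linear_combination d * e1 - e3
      · simp only [Prod.snd_add, Prod.smul_snd, smul_eq_mul]
        linear_combination d * e2 - e4
  -- the images of the isotropic vectors
  have n1 : d ∣ nm δ := ⟨(g (0, 1, 0)).2.1, by
    have := congrArg (fun z : Mu => z.2.1) (hg (0, 1, 0))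
    simp [act, Hf, tc] at this
    exact this.symm⟩
  have n2 : d ∣ qf n B C β := ⟨(g (0, 1, 0)).1, by
    have := congrArg Prod.fst (hg (0, 1, 0))
    simp [act, Hf, tc] at this
    exact this.symm⟩
  obtain ⟨z, n3⟩ : ∃ z, em (cj δ) β = d • z := ⟨(g (0, 1, 0)).2.2, by
    have := congrArg (fun z : Mu => z.2.2) (hg (0, 1, 0))
    simp [act, Hf, em] at this
    simp [em]
    exact this.symm⟩
  have n4 : d ∣ nm α := ⟨(g (1, 0, 0)).1, by
    have := congrArg Prod.fst (hg (1, 0, 0))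
    simp [act, Hf, tc] at this
    exact this.symm⟩
  have n5 : d ∣ qf n B C γ := ⟨(g (1, 0, 0)).2.1, by
    have := congrArg (fun z : Mu => z.2.1) (hg (1, 0, 0))
    simp [act, Hf, tc] at this
    exact this.symm⟩
  obtain ⟨z', n6⟩ : ∃ z', em α γ = d • z' := ⟨(g (1, 0, 0)).2.2, by
    have := congrArg (fun z : Mu => z.2.2) (hg (1, 0, 0))
    simp [act, Hf, em] at this
    simp [em]
    exact this.symm⟩
  have hab : d.natAbs = 1 := by
    by_contra hne
    obtain ⟨p, hp, hpd⟩ := Nat.exists_prime_and_dvd hne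
    have hpZ : Prime (p : ℤ) := Nat.prime_iff_prime_int.1 hp
    have hpd' : (p : ℤ) ∣ d := by
      rw [← Int.dvd_natAbs]
      exact_mod_cast hpd
    -- the off-diagonal entries
    have hβ : ∀ m, (p : ℤ) ∣ al m β := by
      intro m
      refine hpZ.dvd_of_dvd_pow (n := 2) (hpd'.trans ?_)
      have e := congrArg nm (hDD.i1 hD hd m)
      rw [nm_int, nm_one, n3, pf_smul_left'] at e
      rw [e]
      exact dvd_add (dvd_sub (dvd_mul_of_dvd_right n1 _)
        (dvd_mul_of_dvd_right (Dvd.intro _ rfl) _)) (dvd_mul_of_dvd_right n2 _)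
    have hγ : ∀ m, (p : ℤ) ∣ al m γ := by
      intro m
      refine hpZ.dvd_of_dvd_pow (n := 2) (hpd'.trans ?_)
      have e := congrArg nm (hDD.i4 hD hd m)
      rw [nm_int, nm_two, n6, pf_smul_right'] at e
      rw [e]
      exact dvd_add (dvd_sub (dvd_mul_of_dvd_right n4 _)
        (dvd_mul_of_dvd_right (Dvd.intro _ rfl) _)) (dvd_mul_of_dvd_right n5 _)
    have hβ1 : (p : ℤ) ∣ β.1 := by simpa [al] using hβ (0, 1)
    have hβ2 : (p : ℤ) ∣ β.2 := by simpa [al] using hβ (1, 0)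
    have hγ1 : (p : ℤ) ∣ γ.1 := by simpa [al] using hγ (0, 1)
    have hγ2 : (p : ℤ) ∣ γ.2 := by simpa [al] using hγ (1, 0)
    -- the coefficients of `ω`
    have hδ : (p : ℤ) ∣ δ.im := by
      refine dvd_im (n := n) (B := B) (C := C) hpZ (fun m => hpd'.trans ?_) fun p1 p2 p3 => ?_
      · have e := congrArg (qf n B C) (hDD.i3 hD hd m)
        rw [qf_smul', qf_three, n3, pf_smul_left'] at e
        rw [e]
        exact dvd_add (dvd_sub (dvd_mul_of_dvd_right n2 _)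
          (dvd_mul_of_dvd_right (Dvd.intro _ rfl) _)) (dvd_mul_of_dvd_left n1 _)
      · have e := congrArg Prod.fst (hDD.i3 hD hd (1, 0))
        have h0 := dvd_re' hpZ (hpd'.trans n1) p1 p2
        simp only [em, Prod.fst_sub, Prod.smul_fst, smul_eq_mul, mul_one] at e
        rw [e]
        exact dvd_sub (dvd_mul_of_dvd_right hβ1 _) (dvd_sub (dvd_mul_of_dvd_left h0 _)
          (dvd_mul_of_dvd_left (dvd_mul_of_dvd_right p3 _) _))
    have hα : (p : ℤ) ∣ α.im := by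
      refine dvd_im (n := n) (B := B) (C := C) hpZ (fun m => hpd'.trans ?_) fun p1 p2 p3 => ?_
      · have e := congrArg (qf n B C) (hDD.i2 hD hd m)
        rw [qf_smul', qf_four, n6, pf_smul_right'] at e
        rw [e]
        exact dvd_add (dvd_sub (dvd_mul_of_dvd_right n5 _)
          (dvd_mul_of_dvd_right (Dvd.intro _ rfl) _)) (dvd_mul_of_dvd_left n4 _)
      · have e := congrArg Prod.fst (hDD.i2 hD hd (1, 0))
        have h0 := dvd_re' hpZ (hpd'.trans n4) p1 p2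
        simp only [em, cj, Prod.fst_sub, Prod.smul_fst, smul_eq_mul, mul_one] at e
        rw [e]
        refine dvd_sub (dvd_sub (dvd_mul_of_dvd_left (dvd_add h0 (dvd_mul_of_dvd_left p2 _)) _)
          (dvd_mul_of_dvd_left (dvd_mul_of_dvd_right p3 _) _)) (dvd_mul_of_dvd_right hγ1 _)
    exact hprim p hp ⟨dvd_re hpZ (hpd'.trans n4) hα, hα, dvd_re hpZ (hpd'.trans n1) hδ, hδ, hβ1,
      hβ2, hγ1, hγ2⟩
  omega

end Pool.Agent.Mukai.RF
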