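import Pool.Agent.Work.MP_1e087a_ag.F.Final
import Pool.Agent.Work.MP_1e087a_ag.F.Exist
import Pool.Agent.Work.MP_1e087a_ag.F.Unit
import Pool.Agent.Work.MP_1e087a_ag.F.ParN

set_option autoImplicit false

/-!
# The isometries of the Mukai lattice, given that the unimodular matrices act in the group
-/

namespace Pool.Agent.Mukai.RF

open Pool.Agent.Mukai

variable {n B C : ℤ}

/-- the Mukai pairing is nondegenerate -/
theorem Pf_nondeg (hD : B ^ 2 - 4 * n * C ≠ 0) {x : Mu} (h : ∀ y, Pf n B C y x = 0) : x = 0 := by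
  obtain ⟨r, s, u, w⟩ := x
  have h1 := h (1, 0, 0)
  have h2 := h (0, 1, 0)
  have h3 := h (0, 0, (1, 0))
  have h4 := h (0, 0, (0, 1))
  simp [Pf, pf] at h1 h2 h3 h4
  have h5 : (B ^ 2 - 4 * n * C) * u = 0 := by linear_combination B * h4 - 2 * C * h3
  have h6 : (B ^ 2 - 4 * n * C) * w = 0 := by linear_combination B * h3 - 2 * n * h4
  rw [h1, h2, (mul_eq_zero.1 h5).resolve_left hD, (mul_eq_zero.1 h6).resolve_left hD]
  rfl

theorem Pf_add_right (x y z : Mu) : Pf n B C x (y + z) = Pf n B C x y + Pf n B C x z := by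
  simp only [Pf, pf, Prod.fst_add, Prod.snd_add]
  ring

theorem Pf_comm (x y : Mu) : Pf n B C x y = Pf n B C y x := by
  simp only [Pf, pf]
  ring

theorem Pf_smul_left (k : ℤ) (x y : Mu) : Pf n B C (k • x) y = k * Pf n B C x y := by
  simp only [Pf, pf, Prod.smul_fst, Prod.smul_snd, smul_eq_mul]
  ring

theorem Pf_ext (hD : B ^ 2 - 4 * n * C ≠ 0) {y z : Mu}
    (h : ∀ x, Pf n B C x y = Pf n B C x z) : y = z := by
  rw [← sub_eq_zero]
  refine Pf_nondeg hD fun x => ?_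
  have e := Pf_add_right (n := n) (B := B) (C := C) x (y - z) z
  rw [sub_add_cancel, h x] at e
  linarith

/-- an isometry acting as `ν` on the discriminant group, as an automorphism -/
theorem exists_au (hD : B ^ 2 - 4 * n * C ≠ 0) {ν : ℤ} (hν : ν = 1 ∨ ν = -1) {g : Mu →+ Mu}
    (hg : ∀ x, Qf n B C (g x) = Qf n B C x) (hd : DiscActN n B C ν g) :
    ∃ g' : Au, (∀ x, g' x = ν • g x) ∧ Isom n B C g' ∧
      ∀ φ : Mu →+ ℤ, ∃ a : Mu, ∀ x, φ (g' x) - φ x = Pf n B C a x := by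
  have hνν : ν * ν = 1 := by rcases hν with rfl | rfl <;> norm_num
  have hP : ∀ x y, Pf n B C (g x) (g y) = Pf n B C x y := by
    intro x y
    rw [Pf_eq, Pf_eq, ← map_add, hg, hg, hg]
  -- the adjoint map
  have hadj : ∀ y, ∃ z, ∀ x, Pf n B C (g x) y = Pf n B C x z := by
    intro y
    obtain ⟨a, ha⟩ := hd (AddMonoidHom.mk' (fun x => Pf n B C x y) fun x x' => by
      rw [Pf_comm, Pf_add_right, Pf_comm y x, Pf_comm y x'])
    refine ⟨ν • y + a, fun x => ?_⟩
    have h1 := ha x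
    simp only [AddMonoidHom.mk'_apply] at h1
    rw [Pf_add_right, Pf_comm x (ν • y), Pf_smul_left, Pf_comm y x, Pf_comm x a]
    linarith
  choose h hh using hadj
  have hadd : ∀ y y', h (y + y') = h y + h y' := fun y y' => Pf_ext hD fun x => by
    rw [← hh, Pf_add_right, Pf_add_right, hh, hh]
  let H : Mu →+ Mu := AddMonoidHom.mk' h hadd
  have hHg : ∀ x, H (g x) = x := fun x => Pf_ext hD fun x' => by
    show Pf n B C x' (h (g x)) = _
    rw [← hh, hP]
  have hinj : Function.Injective H.toIntLinearMap :=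
    OrzechProperty.injective_of_surjective_endomorphism _ fun x => ⟨g x, hHg x⟩
  have hgH : ∀ y, g (H y) = y := fun y => hinj (hHg (H y))
  refine ⟨AddEquiv.toIntLinearEquiv
    { toFun := fun x => ν • g x
      invFun := fun y => ν • H y
      left_inv := fun x => ?_
      right_inv := fun y => ?_
      map_add' := fun x y => ?_ }, fun x => rfl, fun x => ?_, fun φ => ?_⟩
  · show ν • H (ν • g x) = x
    rw [map_zsmul, hHg, smul_smul, hνν, one_smul]
  · show ν • g (ν • H y) = y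
    rw [map_zsmul, hgH, smul_smul, hνν, one_smul]
  · rw [map_add, smul_add]
  · show Qf n B C (ν • g x) = _
    rw [← hg x]
    simp only [Qf, qf, Prod.smul_fst, Prod.smul_snd, smul_eq_mul]
    linear_combination (n * (g x).2.2.1 ^ 2 + B * ((g x).2.2.1 * (g x).2.2.2) +
      C * (g x).2.2.2 ^ 2 - (g x).1 * (g x).2.1) * hνν
  · obtain ⟨a, ha⟩ := hd φ
    refine ⟨ν • a, fun x => ?_⟩
    rw [Pf_smul_left, ← ha]
    show φ (ν • g x) - φ x = _
    rw [map_zsmul, smul_eq_mul]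
    linear_combination φ x * hνν

/-- the matrix `diag (1, -1) A` -/
theorem act_neg_row (α δ : Ord n B C) (β γ : ℤ × ℤ) (x : Mu) :
    act α β (-γ) (-δ) x = T n B C (T' n B C (-act α β γ δ x)) := by
  obtain ⟨a0, a1⟩ := α
  obtain ⟨d0, d1⟩ := δ
  obtain ⟨b0, b1⟩ := β
  obtain ⟨c0, c1⟩ := γ
  obtain ⟨r, s, u, w⟩ := x
  rw [T'_apply, T_apply]
  ext
  · simp only [act, Prod.fst_neg, Prod.snd_neg, neg_neg]
  · simp only [act, qf, tc, Hf, nm, Prod.fst_neg, Prod.snd_neg, neg_neg,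
      QuadraticAlgebra.re_mul, QuadraticAlgebra.im_mul, QuadraticAlgebra.re_neg,
      QuadraticAlgebra.im_neg]
    ring
  · simp only [act, em, cj, Hf, Prod.fst_neg, Prod.snd_neg, Prod.fst_add, Prod.snd_add,
      Prod.smul_fst, Prod.smul_snd, smul_eq_mul, QuadraticAlgebra.re_neg,
      QuadraticAlgebra.im_neg]
    ring
  · simp only [act, em, cj, Hf, Prod.fst_neg, Prod.snd_neg, Prod.fst_add, Prod.snd_add,
      Prod.smul_fst, Prod.smul_snd, smul_eq_mul, QuadraticAlgebra.re_neg,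
      QuadraticAlgebra.im_neg]
    ring

theorem dt_neg_row (α δ : Ord n B C) (β γ : ℤ × ℤ) :
    dt α β (-γ) (-δ) = -dt α β γ δ := by
  ext
  · simp only [dt, Hf, Prod.fst_neg, Prod.snd_neg, QuadraticAlgebra.re_neg,
      QuadraticAlgebra.im_neg, QuadraticAlgebra.re_sub, QuadraticAlgebra.re_mul]
    ring
  · simp only [dt, Hf, Prod.fst_neg, Prod.snd_neg, QuadraticAlgebra.re_neg,
      QuadraticAlgebra.im_neg, QuadraticAlgebra.im_sub, QuadraticAlgebra.im_mul]
    ring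

/-- **All isometries**: if the matrices of determinant one act in the group generated by the
reflections and the twists, then so does every isometry which is trivial on the discriminant
group. -/
theorem mem_Wp_of (hD : 0 < B ^ 2 - 4 * n * C) (hDs : ¬ IsSquare (B ^ 2 - 4 * n * C))
    (hrows : ∀ (α : Ord n B C) (β γ : ℤ × ℤ) (δ : Ord n B C) (g : Au),
      dt α β γ δ = 1 → (∀ x, g x = act α β γ δ x) → g ∈ RF.Wp n B C)
    {g : Au} (hg : Isom n B C g)
    (hdisc : ∀ φ : Mu →+ ℤ, ∃ a : Mu, ∀ x, φ (g x) - φ x = Pf n B C a x) :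
    g ∈ Mukai.Wp n B C := by
  obtain ⟨ρ, hρ, α, δ, β, γ, d, hd, h1, h2, h3⟩ := exists_act hD hDs hg
  have hρW : ρ ∈ W n B C := by
    rcases hρ with rfl | rfl
    · exact one_mem _
    · exact T_mem
  have hdisc' : ∀ φ : Mu →+ ℤ, ∃ a : Mu, ∀ x, φ ((ρ * g) x) - φ x = Pf n B C a x := by
    intro φ
    obtain ⟨p, hp⟩ := W_disc hρW φ
    obtain ⟨q, hq⟩ := hdisc φ
    refine ⟨g⁻¹ p + q, fun x => ?_⟩
    have e1 : Pf n B C (g⁻¹ p) x = Pf n B C p (g x) := by
      rw [← hg.Pf, apply_inv]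
    have e2 : Pf n B C (g⁻¹ p + q) x = Pf n B C (g⁻¹ p) x + Pf n B C q x := by
      simp only [Pf, pf, Prod.fst_add, Prod.snd_add]
      ring
    rw [e2, e1, ← hp (g x), ← hq x, LinearEquiv.mul_apply]
    ring
  have key : ρ * g ∈ Mukai.Wp n B C := by
    rcases det_unit hD.ne' hd h1 h3 h2 hdisc' with rfl | rfl
    · refine Wp_le (hrows α β γ δ _ ?_ fun x => ?_)
      · rw [h1]
        simp
      · rw [← h3 x, one_smul]
    · have h4 : T n B C * T' n B C * (ρ * g) ∈ Mukai.Wp n B C := by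
        refine Wp_le (hrows α β (-γ) (-δ) _ ?_ fun x => ?_)
        · rw [dt_neg_row, h1]
          simp
        · rw [act_neg_row, ← h3 x, LinearEquiv.mul_apply, LinearEquiv.mul_apply, neg_smul,
            one_smul, neg_neg]
      have h5 : ρ * g = (T n B C * T' n B C)⁻¹ * (T n B C * T' n B C * (ρ * g)) := by group
      rw [h5]
      exact mul_mem (inv_mem (W_le_Wp (mul_mem T_mem T'_mem))) h4
  have h6 : g = ρ⁻¹ * (ρ * g) := by group
  rw [h6]
  exact mul_mem (inv_mem (W_le_Wp hρW)) key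

/-- **The theorem**, given that the matrices of determinant one act in the group. -/
theorem all_of (hD : 0 < B ^ 2 - 4 * n * C) (hDs : ¬ IsSquare (B ^ 2 - 4 * n * C))
    (hrows : ∀ (α : Ord n B C) (β γ : ℤ × ℤ) (δ : Ord n B C) (g : Au),
      dt α β γ δ = 1 → (∀ x, g x = act α β γ δ x) → g ∈ RF.Wp n B C)
    {ν : ℤ} (hν : ν = 1 ∨ ν = -1) {g : Mu →+ Mu} (hg : ∀ x, Qf n B C (g x) = Qf n B C x)
    (hd : DiscActN n B C ν g) :
    (∃ a : ℤ × ℤ, IsProd n B C (fun x => ν • g (x.1, x.2.1 + pf n B C a x.2.2 + x.1 * qf n B C a,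
      x.2.2 + x.1 • a))) ∧
    (((B ^ 2 - 4 * n * C) % 8 ≠ 1 ∧ (∃ a, Odd (qf n B C a))) ∨
      (∃ v : Mu, Odd (Qf n B C v) ∧ (g v = v ∨ g v = -v)) → IsProd n B C (fun x => ν • g x)) := by
  obtain ⟨g', hg', hI, hdisc⟩ := exists_au hD.ne' hν hg hd
  have hW := mem_Wp_of hD hDs hrows hI hdisc
  refine ⟨?_, fun hp => isProd_of_Wp hν hg' hW hp⟩
  obtain ⟨w, hw, a, h⟩ := Wp_decomp hW
  obtain ⟨l, h1, h2⟩ := isProd_of_mem hw
  refine ⟨-a, l, h1, fun x => ?_⟩
  have h3 : w = g' * ex n B C (-a) := by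
    rw [h, ex_neg]
    group
  rw [← h2, h3, LinearEquiv.mul_apply, ex_apply, hg']

end Pool.Agent.Mukai.RF
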