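import Pool.Agent.Work.MP_1e087a_ag.F.Resid

set_option autoImplicit false

/-!
The engine: every unit of `ℤ[ω]` is reached by the moves.
-/

namespace Pool.Agent.Mukai.RF

open QuadraticAlgebra

variable {n B C : ℤ} {G : Ord n B C → Ord n B C → Prop}

lemma norm_int (a : ℤ) : norm ((a : ℤ) : Ord n B C) = a ^ 2 := norm_intCast a

lemma star_mul_self {u : Ord n B C} (hu : norm u = 1) : star u * u = 1 := by
  have h := algebraMap_norm_eq_mul_star u
  rw [hu, map_one] at h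
  rw [mul_comm, ← h]

lemma mul_star_eq (u : Ord n B C) : u * star u = ((norm u : ℤ) : Ord n B C) := by
  rw [← algebraMap_norm_eq_mul_star]
  rfl

namespace Moves

variable (hG : Moves n B C G)
include hG

lemma one_one : G 1 1 := by
  have h := hG.g5 1 1 one_ne_zero (Or.inl (one_dvd _))
  simpa using h

lemma g1n (α w z : Ord n B C) (h : G α w) : G (α + w * ((n : Ord n B C) * z)) w := by
  have h1 := hG.g1 α w (z.re + z.im * B) (-(n * z.im)) h
  have h2 : (n : Ord n B C) * ((z.re + z.im * B : ℤ) : Ord n B C) +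
      star omega * ((-(n * z.im) : ℤ) : Ord n B C) = (n : Ord n B C) * z := by
    ext
    · simp
      ring
    · simp
  rwa [h2] at h1

lemma g1_iff {α α' w z : Ord n B C} (h : α' = α + w * ((n : Ord n B C) * z)) :
    G α w ↔ G α' w := by
  constructor
  · intro h1
    rw [h]
    exact hG.g1n _ _ _ h1
  · intro h1
    have h2 := hG.g1n _ _ (-z) h1
    have h3 : α' + w * ((n : Ord n B C) * -z) = α := by rw [h]; ring
    rwa [h3] at h2

lemma g2_iff {α w w' y : Ord n B C} (h : w' = w + α * y) : G α w ↔ G α w' := by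
  constructor
  · intro h1
    rw [h]
    exact hG.g2 _ _ _ h1
  · intro h1
    have h2 := hG.g2 _ _ (-y) h1
    have h3 : w' + α * -y = w := by rw [h]; ring
    rwa [h3] at h2

lemma g3_iff {α w u : Ord n B C} (hu : norm u = 1) : G α w ↔ G α (u * w) := by
  constructor
  · exact hG.g3 _ _ _ hu
  · intro h1
    have h2 := hG.g3 _ _ (star u) (by rw [QuadraticAlgebra.norm_star]; exact hu) h1
    rwa [← mul_assoc, star_mul_self hu, one_mul] at h2

lemma neg_iff {α w : Ord n B C} : G α w ↔ G α (-w) := by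
  have h := hG.g3_iff (α := α) (w := w) (u := -1) (by rw [QuadraticAlgebra.norm_neg, map_one])
  rwa [neg_one_mul] at h

lemma g6_iff {α w : Ord n B C} : G α w ↔ G (-α) w :=
  ⟨hG.g6 _ _, fun h => by simpa using hG.g6 _ _ h⟩

/-- the units congruent to `1` modulo `n` -/
lemma unit_zero {u z : Ord n B C} (hu : norm u = 1) (h : u = 1 + (n : Ord n B C) * z) : G u 0 := by
  have h1 : G u 1 := (hG.g1_iff (α := 1) (α' := u) (w := 1) (z := z) (by rw [one_mul, h])).1 hG.one_one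
  refine (hG.g2_iff (α := u) (w := 1) (w' := 0) (y := -star u) ?_).1 h1
  have h2 := star_mul_self hu
  linear_combination h2

lemma g4_iff {α w u z : Ord n B C} (hu : norm u = 1) (h : u = 1 + (n : Ord n B C) * z) :
    G α w ↔ G (u * α) w := by
  constructor
  · exact hG.g4 _ _ _ hu (hG.unit_zero hu h)
  · intro h1
    have hs : norm (star u) = 1 := by rw [QuadraticAlgebra.norm_star]; exact hu
    have h2 := hG.g4 (u * α) w (star u) hs (hG.unit_zero (z := star z) hs (by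
      rw [h, star_add, star_one, StarMul.star_mul]
      have : star ((n : ℤ) : Ord n B C) = (n : Ord n B C) := by
        ext <;> simp
      rw [this]
      ring)) h1
    rwa [← mul_assoc, star_mul_self hu, one_mul] at h2

end Moves

lemma pow_one_mod {u z : Ord n B C} (h : u = 1 + (n : Ord n B C) * z) (i : ℕ) :
    ∃ z' : Ord n B C, u ^ i = 1 + (n : Ord n B C) * z' := by
  induction i with
  | zero => exact ⟨0, by simp⟩
  | succ i ih =>
    obtain ⟨z', hz'⟩ := ih
    refine ⟨z' * u + z, ?_⟩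
    rw [pow_succ, hz']
    linear_combination h

/-- divisibility by coprime elements -/
lemma dvd_of_coprime {π y : Ord n B C} {m : ℕ} (hc : IsCoprime (norm π) n)
    (h1 : π ^ m ∣ y) (h2 : (n : Ord n B C) ∣ y) : ∃ z, y = π ^ m * ((n : Ord n B C) * z) := by
  obtain ⟨u, hu⟩ := h1
  obtain ⟨v, hv⟩ := h2
  have hc' : IsCoprime (norm (π ^ m)) n := by
    rw [map_pow]
    exact hc.pow_left
  obtain ⟨a, b, hab⟩ := hc'
  have h3 : (a : Ord n B C) * ((norm (π ^ m) : ℤ) : Ord n B C) + b * (n : Ord n B C) = 1 := by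
    exact_mod_cast congrArg (fun t : ℤ => (t : Ord n B C)) hab
  rw [← mul_star_eq] at h3
  refine ⟨a * (star (π ^ m) * v) + b * u, ?_⟩
  calc y = (a * (π ^ m * star (π ^ m)) + b * (n : Ord n B C)) * y := by rw [h3, one_mul]
    _ = a * (π ^ m * star (π ^ m)) * y + b * (n : Ord n B C) * y := by ring
    _ = a * (π ^ m * star (π ^ m)) * ((n : Ord n B C) * v) +
        b * (n : Ord n B C) * (π ^ m * u) := by rw [← hv, ← hu]
    _ = _ := by ring

section engine

variable (hG : Moves n B C G)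
include hG

/-- the change of `α` modulo `n π ^ c` -/
lemma padic_iff {π ε z₀ : Ord n B C} {c m : ℕ} (hc : IsCoprime (norm π) n)
    (hε : norm ε = 1) (hε1 : ε = 1 + (n : Ord n B C) * z₀)
    (hA : ∀ (m : ℕ) (α α' : Ord n B C), c ≤ m → ¬ π ∣ α → π ^ c ∣ α - α' →
      ∃ i : ℕ, π ^ m ∣ ε ^ i * α - α') (hm : c ≤ m) {α α' z : Ord n B C}
    (hα : ¬ π ∣ α) (h : α' = α + (n : Ord n B C) * (π ^ c * z)) :
    G α (π ^ m) ↔ G α' (π ^ m) := by
  obtain ⟨i, hi⟩ := hA m α α' hm hα (by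
    rw [h]
    exact ⟨-(n : Ord n B C) * z, by ring⟩)
  obtain ⟨z', hz'⟩ := pow_one_mod hε1 i
  have hεi : norm (ε ^ i) = 1 := by rw [map_pow, hε, one_pow]
  rw [hG.g4_iff (α := α) hεi hz']
  obtain ⟨z'', hz''⟩ := dvd_of_coprime hc hi (by
    rw [h, hz']
    exact ⟨z' * α - π ^ c * z, by ring⟩)
  refine hG.g1_iff (z := -z'') ?_
  rw [mul_neg, mul_neg, ← hz'']
  ring

/-- the power trick -/
lemma pow_iff {x π : Ord n B C} {q m : ℕ} (hq : q.Prime) (hx : (norm x).natAbs = q)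
    (hπ : ¬ (q : ℤ) ∣ norm π) : G x (π ^ m) ↔ G x (π ^ (m + q / 2)) := by
  rcases fermat hq hx hπ with ⟨y, hy⟩ | ⟨y, hy⟩
  · refine hG.g2_iff (y := π ^ m * y) ?_
    rw [pow_add]
    linear_combination (π ^ m) * hy
  · rw [hG.neg_iff (w := π ^ m)]
    refine hG.g2_iff (y := π ^ m * y) ?_
    rw [pow_add]
    linear_combination (π ^ m) * hy

/-- multiples -/
lemma pow_iff' {x π : Ord n B C} {q m : ℕ} (hq : q.Prime) (hx : (norm x).natAbs = q)
    (hπ : ¬ (q : ℤ) ∣ norm π) (t : ℕ) : G x (π ^ m) ↔ G x (π ^ (m + t * (q / 2))) := by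
  induction t with
  | zero => simp
  | succ t ih =>
    rw [ih, pow_iff hG hq hx hπ (m := m + t * (q / 2))]
    have : m + t * (q / 2) + q / 2 = m + (t + 1) * (q / 2) := by ring
    rw [this]

end engine

/-- The key step: the class of `(ρ, π ^ m)` does not depend on `m ≥ c`, and is the one of `(ρ, 1)`. -/
theorem key (hG : Moves n B C G) (hP : PrimeElts n B C) {π ε z₀ : Ord n B C} {c p : ℕ} {ρ : ℤ}
    (hn : n ≠ 0) (hΔ : B ^ 2 - 4 * n * C ≠ 0) (hp : p.Prime) (hπ : (norm π).natAbs = p)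
    (hpn : ¬ (p : ℤ) ∣ 2 * n * (B ^ 2 - 4 * n * C)) (hρ : IsCoprime ρ (2 * n * (B ^ 2 - 4 * n * C)))
    (hρp : ¬ (p : ℤ) ∣ ρ)
    (hε : norm ε = 1) (hε1 : ε = 1 + (n : Ord n B C) * z₀)
    (hA : ∀ (m : ℕ) (α α' : Ord n B C), c ≤ m → ¬ π ∣ α → π ^ c ∣ α - α' →
      ∃ i : ℕ, π ^ m ∣ ε ^ i * α - α') {m : ℕ} (hm : c ≤ m) (h : G (ρ : Ord n B C) (π ^ m)) :
    G (ρ : Ord n B C) 1 := by
  have hpp : Prime (p : ℤ) := Nat.prime_iff_prime_int.1 hp
  have hnp : norm π = p ∨ norm π = -p := by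
    rcases Int.natAbs_eq (norm π) with h | h
    · left; rw [h, hπ]
    · right; rw [h, hπ]
  have hcp : IsCoprime (norm π) (2 * n * (B ^ 2 - 4 * n * C)) := by
    have h1 : IsCoprime (p : ℤ) (2 * n * (B ^ 2 - 4 * n * C)) :=
      (Irreducible.coprime_iff_not_dvd hpp.irreducible).2 hpn
    rcases hnp with h2 | h2
    · rw [h2]; exact h1
    · rw [h2]; exact h1.neg_left
  have hcn : IsCoprime (norm π) n := hcp.of_isCoprime_of_dvd_right ⟨2 * (B ^ 2 - 4 * n * C), by ring⟩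
  have hρπ : ¬ π ∣ (ρ : Ord n B C) := by
    rintro ⟨y, hy⟩
    have h1 : norm ((ρ : ℤ) : Ord n B C) = norm (π * y) := by rw [hy]
    rw [norm_int, map_mul] at h1
    apply hρp
    apply hpp.dvd_of_dvd_pow (n := 2)
    rw [h1]
    rcases hnp with h2 | h2
    · rw [h2]; exact Dvd.intro _ rfl
    · rw [h2]; exact ⟨-norm y, by ring⟩
  -- the elements `x`
  have hx : ∀ l : ℕ, l.Prime → ∃ (x z : Ord n B C) (q : ℕ), q.Prime ∧ (norm x).natAbs = q ∧
      p < q ∧ ¬ q ≡ 1 [MOD if l = 2 then 4 else l] ∧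
      x = (ρ : Ord n B C) + (n : Ord n B C) * (π ^ c * z) := by
    intro l hl
    set m₀ : ℕ := (2 * n * (B ^ 2 - 4 * n * C) * p ^ c).natAbs with hm₀
    have hm₀' : m₀ ≠ 0 := by
      rw [hm₀, Int.natAbs_ne_zero]
      have := hp.ne_zero
      positivity
    have hdvd : (2 * n * (B ^ 2 - 4 * n * C)) ∣ (m₀ : ℤ) := by
      rw [hm₀, Int.dvd_natAbs]
      exact Dvd.intro _ rfl
    have hcop : IsCoprime (norm ((ρ : ℤ) : Ord n B C)) (m₀ : ℤ) := by
      rw [norm_int]
      have h1 : IsCoprime (ρ ^ 2) (2 * n * (B ^ 2 - 4 * n * C) * p ^ c) := by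
        refine IsCoprime.pow_left (IsCoprime.mul_right hρ (IsCoprime.pow_right ?_))
        exact ((Irreducible.coprime_iff_not_dvd hpp.irreducible).2 hρp).symm
      rw [hm₀]
      rcases Int.natAbs_eq (2 * n * (B ^ 2 - 4 * n * C) * p ^ c) with h2 | h2
      · rw [← h2]; exact h1
      · have h3 : (((2 * n * (B ^ 2 - 4 * n * C) * p ^ c).natAbs : ℕ) : ℤ) =
            -(2 * n * (B ^ 2 - 4 * n * C) * p ^ c) := by linarith
        rw [h3]; exact h1.neg_right
    obtain ⟨x, z, hxz, hxp, hxX, hxl⟩ := hP m₀ hm₀' hdvd (ρ : Ord n B C) hcop l p hl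
    -- `m₀ = n π ^ c z'`
    obtain ⟨z', hz'⟩ : ∃ z' : Ord n B C, (m₀ : Ord n B C) = (n : Ord n B C) * (π ^ c * z') := by
      obtain ⟨s, hs⟩ : ∃ s : ℤ, (m₀ : ℤ) = n * (norm π ^ c) * s := by
        have h1 : n * norm π ^ c ∣ 2 * n * (B ^ 2 - 4 * n * C) * p ^ c := by
          rcases hnp with h2 | h2
          · rw [h2]
            exact ⟨2 * (B ^ 2 - 4 * n * C), by ring⟩
          · rw [h2, neg_pow]
            have h3 : ((-1 : ℤ) ^ c) * (-1) ^ c = 1 := by rw [← mul_pow]; simp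
            refine ⟨2 * (B ^ 2 - 4 * n * C) * (-1) ^ c, ?_⟩
            linear_combination (-(2 * n * (B ^ 2 - 4 * n * C) * (p : ℤ) ^ c)) * h3
        rw [hm₀]
        exact Int.dvd_natAbs.2 h1
      refine ⟨star (π ^ c) * s, ?_⟩
      have h4 : (m₀ : Ord n B C) = ((m₀ : ℤ) : Ord n B C) := by simp
      rw [h4, hs, ← map_pow]
      push_cast
      rw [← mul_star_eq]
      ring
    refine ⟨x, z' * z, (norm x).natAbs, hxp, rfl, hxX, hxl, ?_⟩
    rw [hxz, hz']
    ring
  -- the change from `ρ` to `x`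
  have hρx : ∀ (x z : Ord n B C) (m : ℕ), c ≤ m →
      x = (ρ : Ord n B C) + (n : Ord n B C) * (π ^ c * z) →
      (G (ρ : Ord n B C) (π ^ m) ↔ G x (π ^ m)) := by
    intro x z m hm hxz
    exact padic_iff hG hcn hε hε1 hA hm hρπ hxz
  have hqπ : ∀ q : ℕ, q.Prime → p < q → ¬ (q : ℤ) ∣ norm π := by
    intro q hq hpq hd
    have h1 : q ∣ p := by
      rw [← hπ]
      exact Int.natCast_dvd.1 hd
    exact absurd (Nat.le_of_dvd hp.pos h1) (not_le.2 hpq)
  have hstep : ∀ (x z : Ord n B C) (q m t : ℕ), q.Prime → (norm x).natAbs = q → p < q → c ≤ m →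
      x = (ρ : Ord n B C) + (n : Ord n B C) * (π ^ c * z) →
      (G (ρ : Ord n B C) (π ^ m) ↔ G (ρ : Ord n B C) (π ^ (m + t * (q / 2)))) := by
    intro x z q m t hq hxq hpq hm hxz
    rw [hρx x z m hm hxz, pow_iff' hG hq hxq (hqπ q hq hpq) t,
      hρx x z (m + t * (q / 2)) (by omega) hxz]
  obtain ⟨x₀, y₀, q₀, hq₀, hx₀q, hpq₀, -, hx₀⟩ := hx 2 Nat.prime_two
  have hk₀ : 0 < q₀ / 2 := by
    have := hq₀.two_le
    omega
  -- the group of the differences
  let J : AddSubgroup ℤ :=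
    { carrier := {j | ∀ m m' : ℕ, c ≤ m → c ≤ m' → (m' : ℤ) = m + j →
        (G (ρ : Ord n B C) (π ^ m) ↔ G (ρ : Ord n B C) (π ^ m'))}
      zero_mem' := by
        intro m m' _ _ h
        have : m' = m := by omega
        rw [this]
      add_mem' := by
        intro j₁ j₂ h₁ h₂ m m' hm hm' h
        -- move up
        obtain ⟨t, ht⟩ : ∃ t : ℕ, (0 : ℤ) ≤ t * (q₀ / 2 : ℕ) + j₁ := by
          refine ⟨j₁.natAbs, ?_⟩
          have h1 : (1 : ℤ) ≤ (q₀ / 2 : ℕ) := by exact_mod_cast hk₀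
          have h2 : -(j₁.natAbs : ℤ) ≤ j₁ := by omega
          nlinarith [Int.natCast_nonneg j₁.natAbs]
        rw [hstep x₀ y₀ q₀ m t hq₀ hx₀q hpq₀ hm hx₀, hstep x₀ y₀ q₀ m' t hq₀ hx₀q hpq₀ hm' hx₀]
        obtain ⟨e, he⟩ : ∃ e : ℕ, (e : ℤ) = t * (q₀ / 2 : ℕ) + j₁ := Int.eq_ofNat_of_zero_le ht |>.imp
          fun _ h => h.symm
        have e1 := h₁ (m + t * (q₀ / 2)) (m + e) (by omega) (by omega) (by
          push_cast at he ⊢; linarith)
        have e2 := h₂ (m + e) (m' + t * (q₀ / 2)) (by omega) (by omega) (by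
          push_cast at he h ⊢; linarith)
        exact e1.trans e2
      neg_mem' := by
        intro j hj m m' hm hm' h
        exact (hj m' m hm' hm (by linarith)).symm }
  have hJ : ∀ l : ℕ, l.Prime → ∃ q : ℕ, q.Prime ∧ 2 < q ∧ ((q / 2 : ℕ) : ℤ) ∈ J ∧
      ¬ q ≡ 1 [MOD if l = 2 then 4 else l] := by
    intro l hl
    obtain ⟨x, z, q, hq, hxq, hpq, hql, hxz⟩ := hx l hl
    refine ⟨q, hq, lt_of_le_of_lt hp.two_le hpq, ?_, hql⟩
    intro m m' hm _ h
    have h1 := hstep x z q m 1 hq hxq hpq hm hxz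
    have h2 : m' = m + 1 * (q / 2) := by
      push_cast at h
      omega
    rw [h2]
    exact h1
  -- it is everything
  have hJtop : ∀ j : ℤ, j ∈ J := by
    obtain ⟨a, ha⟩ := Int.subgroup_cyclic J
    have hmem : ∀ j : ℤ, j ∈ J ↔ a ∣ j := by
      intro j
      rw [ha, AddSubgroup.mem_closure_singleton]
      constructor
      · rintro ⟨k, rfl⟩
        exact ⟨k, by simp [mul_comm]⟩
      · rintro ⟨k, rfl⟩
        exact ⟨k, by simp [mul_comm]⟩
    by_cases ha1 : a.natAbs = 1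
    · intro j
      rw [hmem]
      exact (Int.isUnit_iff_natAbs_eq.2 ha1).dvd
    · exfalso
      obtain ⟨l, hl, hla⟩ := Nat.exists_prime_and_dvd ha1
      obtain ⟨q, hq, hq2, hqJ, hql⟩ := hJ l hl
      rw [hmem] at hqJ
      have h1 : l ∣ q / 2 := by
        have h2 : (l : ℤ) ∣ ((q / 2 : ℕ) : ℤ) := (Int.natCast_dvd.2 hla).trans hqJ
        exact_mod_cast h2
      apply hql
      have hodd : q % 2 = 1 := by
        rcases hq.eq_two_or_odd with h | h
        · omega
        · exact h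
      obtain ⟨k, hk⟩ := h1
      split_ifs with hl2
      · subst hl2
        have : q = 1 + 4 * k := by omega
        rw [this]
        exact (Nat.modEq_iff_dvd' (by omega)).2 ⟨k, by omega⟩ |>.symm
      · have h3 : q = 1 + l * (2 * k) := by
          have h4 : q = 1 + 2 * (q / 2) := by omega
          rw [hk] at h4
          rw [h4]; ring
        rw [h3]
        exact (Nat.modEq_iff_dvd' (by omega)).2 ⟨2 * k, by omega⟩ |>.symm
  -- the end
  set M : ℕ := (c + 1) * (q₀ / 2) with hM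
  have hcM : c ≤ M := by
    have : (c + 1) * 1 ≤ (c + 1) * (q₀ / 2) := Nat.mul_le_mul_left _ hk₀
    omega
  have e1 := (hJtop (M - m) m M hm hcM (by ring)).1 h
  rw [hρx x₀ y₀ M hcM hx₀] at e1
  have e2 := (pow_iff' hG (m := 0) hq₀ hx₀q (hqπ q₀ hq₀ hpq₀) (c + 1)).2 (by
    rw [zero_add]; exact e1)
  rw [pow_zero] at e2
  exact (hG.g1_iff (α := (ρ : Ord n B C)) (α' := x₀) (w := 1) (z := π ^ c * y₀)
    (by rw [one_mul]; exact hx₀)).2 e2

end Pool.Agent.Mukai.RF
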