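import Pool.Agent.Work.MP_1e087a_ag.Crit

/-!
# Parity: from the group generated by reflections and twists to the group of the reflections
-/

namespace Pool.Agent.Mukai

variable {n B C : ℤ}

/-- the group generated by the reflections and all twists -/
def Wp (n B C : ℤ) : Subgroup Au :=
  Subgroup.closure ({g | ∃ v, ∃ hv : Unit2 n B C v, g = R n B C v hv} ∪ Set.range (ex n B C))

theorem W_le_Wp : W n B C ≤ Wp n B C := Subgroup.closure_mono Set.subset_union_left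

theorem ex_mem_Wp (a : ℤ × ℤ) : ex n B C a ∈ Wp n B C :=
  Subgroup.subset_closure (Or.inr ⟨a, rfl⟩)

theorem R_mem_Wp {v : Mu} (hv : Unit2 n B C v) : R n B C v hv ∈ Wp n B C := W_le_Wp (R_mem hv)

/-- the elements of the larger group -/
theorem Wp_decomp {g : Au} (hg : g ∈ Wp n B C) : ∃ w ∈ W n B C, ∃ a, g = w * ex n B C a := by
  induction hg using Subgroup.closure_induction with
  | mem g hg =>
    rcases hg with ⟨v, hv, rfl⟩ | ⟨a, rfl⟩
    · exact ⟨_, R_mem hv, 0, by rw [ex_zero, mul_one]⟩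
    · exact ⟨1, one_mem _, a, by rw [one_mul]⟩
  | one => exact ⟨1, one_mem _, 0, by rw [ex_zero, mul_one]⟩
  | mul g h _ _ hg hh =>
    obtain ⟨w, hw, a, rfl⟩ := hg
    obtain ⟨w', hw', b, rfl⟩ := hh
    refine ⟨w * (ex n B C a * w' * (ex n B C a)⁻¹), mul_mem hw (conj_mem (ex_isom a) hw'),
      a + b, ?_⟩
    rw [ex_add]
    group
  | inv g _ hg =>
    obtain ⟨w, hw, a, rfl⟩ := hg
    refine ⟨(ex n B C a)⁻¹ * w⁻¹ * (ex n B C a)⁻¹⁻¹,
      conj_mem (ex_isom a).inv (inv_mem hw), -a, ?_⟩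
    rw [ex_neg]
    group

/-- the image modulo two -/
def m2 (x : Mu) : ZMod 2 × ZMod 2 × ZMod 2 × ZMod 2 := (x.1, x.2.1, x.2.2.1, x.2.2.2)

/-- the form modulo two is zero or hyperbolic -/
def Hyp (n B C : ZMod 2) : Prop := (n = 0 ∧ B = 0 ∧ C = 0) ∨ (B = 1 ∧ n * C = 0)

instance : DecidablePred fun x : ZMod 2 × ZMod 2 × ZMod 2 => Hyp x.1 x.2.1 x.2.2 :=
  fun _ => by unfold Hyp; infer_instance

/-- the invariant set modulo two -/
def Inv2 (n B C : ZMod 2) (x : ZMod 2 × ZMod 2 × ZMod 2 × ZMod 2) : Prop :=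
  x = (1, 1, 0, 0) ∨ (B = 1 ∧ (x = (1, 0, 1 + C, 1 + n) ∨ x = (0, 1, 1 + C, 1 + n)))

set_option synthInstance.maxSize 100000 in
set_option maxRecDepth 100000 in
theorem par_aux : ∀ n B C v1 v2 v3 v4 x1 x2 x3 x4 : ZMod 2,
    ((n = 0 ∧ B = 0 ∧ C = 0) ∨ (B = 1 ∧ n * C = 0)) →
    n * v3 ^ 2 + B * (v3 * v4) + C * v4 ^ 2 + v1 * v2 = 1 →
    ((x1, x2, x3, x4) = ((1, 1, 0, 0) : ZMod 2 × ZMod 2 × ZMod 2 × ZMod 2) ∨
      (B = 1 ∧ ((x1, x2, x3, x4) = ((1, 0, 1 + C, 1 + n) : ZMod 2 × ZMod 2 × ZMod 2 × ZMod 2) ∨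
        (x1, x2, x3, x4) = ((0, 1, 1 + C, 1 + n) : ZMod 2 × ZMod 2 × ZMod 2 × ZMod 2)))) →
    ((x1 + (B * (x3 * v4 + x4 * v3) + x1 * v2 + x2 * v1) * v1,
      x2 + (B * (x3 * v4 + x4 * v3) + x1 * v2 + x2 * v1) * v2,
      x3 + (B * (x3 * v4 + x4 * v3) + x1 * v2 + x2 * v1) * v3,
      x4 + (B * (x3 * v4 + x4 * v3) + x1 * v2 + x2 * v1) * v4) =
        ((1, 1, 0, 0) : ZMod 2 × ZMod 2 × ZMod 2 × ZMod 2) ∨
      (B = 1 ∧ ((x1 + (B * (x3 * v4 + x4 * v3) + x1 * v2 + x2 * v1) * v1,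
        x2 + (B * (x3 * v4 + x4 * v3) + x1 * v2 + x2 * v1) * v2,
        x3 + (B * (x3 * v4 + x4 * v3) + x1 * v2 + x2 * v1) * v3,
        x4 + (B * (x3 * v4 + x4 * v3) + x1 * v2 + x2 * v1) * v4) =
          ((1, 0, 1 + C, 1 + n) : ZMod 2 × ZMod 2 × ZMod 2 × ZMod 2) ∨
        (x1 + (B * (x3 * v4 + x4 * v3) + x1 * v2 + x2 * v1) * v1,
        x2 + (B * (x3 * v4 + x4 * v3) + x1 * v2 + x2 * v1) * v2,
        x3 + (B * (x3 * v4 + x4 * v3) + x1 * v2 + x2 * v1) * v3,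
        x4 + (B * (x3 * v4 + x4 * v3) + x1 * v2 + x2 * v1) * v4) =
          ((0, 1, 1 + C, 1 + n) : ZMod 2 × ZMod 2 × ZMod 2 × ZMod 2)))) := by
  decide

theorem neg_two' (x : ZMod 2) : -x = x := by revert x; decide

/-- reflections preserve the invariant set -/
theorem refl_inv2 (h : Hyp n B C) {v : Mu} (hv : Unit2 n B C v) {x : Mu}
    (hx : Inv2 n B C (m2 x)) : Inv2 n B C (m2 (refl n B C v x)) := by
  obtain ⟨v1, v2, v3, v4⟩ := v
  obtain ⟨x1, x2, x3, x4⟩ := x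
  have hQ : (Qf n B C (v1, v2, v3, v4) : ZMod 2) = 1 := by
    rcases hv with h | h <;> rw [h]
    · simp
    · decide
  have hQ' : (n * v3 ^ 2 + B * (v3 * v4) + C * v4 ^ 2 + v1 * v2 : ZMod 2) = 1 := by
    rw [← hQ]
    simp only [Qf, qf]
    push_cast
    rw [sub_eq_add_neg, neg_two']
  have two : (2 : ZMod 2) = 0 := by decide
  have hP : (Pf n B C (x1, x2, x3, x4) (v1, v2, v3, v4) : ZMod 2) =
      B * (x3 * v4 + x4 * v3) + x1 * v2 + x2 * v1 := by
    simp only [Pf, pf]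
    push_cast
    rw [two]
    simp only [sub_eq_add_neg, neg_two']
    ring
  have hm : m2 (refl n B C (v1, v2, v3, v4) (x1, x2, x3, x4)) =
      ((x1 : ZMod 2) + (B * (x3 * v4 + x4 * v3) + x1 * v2 + x2 * v1) * v1,
        (x2 : ZMod 2) + (B * (x3 * v4 + x4 * v3) + x1 * v2 + x2 * v1) * v2,
        (x3 : ZMod 2) + (B * (x3 * v4 + x4 * v3) + x1 * v2 + x2 * v1) * v3,
        (x4 : ZMod 2) + (B * (x3 * v4 + x4 * v3) + x1 * v2 + x2 * v1) * v4) := by
    simp only [refl, m2, Prod.fst_sub, Prod.snd_sub, Prod.smul_fst, Prod.smul_snd, smul_eq_mul]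
    push_cast
    rw [hQ, hP, one_mul]
    simp only [sub_eq_add_neg, neg_two']
  rw [hm]
  exact par_aux n B C v1 v2 v3 v4 x1 x2 x3 x4 h hQ' hx

/-- products of reflections preserve the invariant set -/
theorem W_inv2 (h : Hyp n B C) {w : Au} (hw : w ∈ W n B C) :
    ∀ x : Mu, Inv2 n B C (m2 x) → Inv2 n B C (m2 (w x)) := by
  induction hw using Subgroup.closure_induction_left with
  | one => exact fun x hx => hx
  | mul_left g hg y _ hy =>
    obtain ⟨v, hv, rfl⟩ := hg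
    intro x hx
    exact refl_inv2 h hv (hy x hx)
  | inv_mul_cancel g hg y _ hy =>
    obtain ⟨v, hv, rfl⟩ := hg
    intro x hx
    rw [R_inv]
    exact refl_inv2 h hv (hy x hx)

theorem qf_cast (a : ℤ × ℤ) :
    (qf n B C a : ZMod 2) = n * a.1 ^ 2 + B * (a.1 * a.2) + C * a.2 ^ 2 := by
  simp only [qf]
  push_cast
  ring

/-- a twist that preserves the invariant set is a product of reflections -/
theorem ex_mem_of_inv2 {a : ℤ × ℤ} (h : Hyp n B C)
    (ha : Inv2 n B C (m2 (ex n B C a (1, 1, 0)))) : ex n B C a ∈ W n B C := by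
  obtain ⟨a1, a2⟩ := a
  have hm : m2 (ex n B C (a1, a2) (1, 1, 0)) =
      (1, 1 + (qf n B C (a1, a2) : ZMod 2), (a1 : ZMod 2), (a2 : ZMod 2)) := by
    rw [ex_apply]
    simp [m2, pf]
  rw [hm] at ha
  rcases ha with ha | ⟨_, ha | ha⟩
  · simp only [Prod.mk.injEq] at ha
    obtain ⟨b, hb⟩ := cast_two_eq_zero ha.2.2.1
    obtain ⟨c, hc⟩ := cast_two_eq_zero ha.2.2.2
    have : ((a1, a2) : ℤ × ℤ) = (b, c) + (b, c) := by rw [hb, hc]; rfl
    rw [this]
    exact ex_two_mem _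
  · simp only [Prod.mk.injEq] at ha
    refine ex_odd_mem' ?_
    have h1 := ha.2.1
    revert h1
    generalize (qf n B C (a1, a2) : ZMod 2) = q
    revert q
    decide
  · simp only [Prod.mk.injEq] at ha
    exact absurd ha.1 (by decide)

theorem hyp_aux : ∀ n B C : ZMod 2, ¬ ((n = 0 ∧ B = 0 ∧ C = 0) ∨ (B = 1 ∧ n * C = 0)) →
    (n = 1 ∨ (C = 1 ∧ n + B + C = 1)) ∧ (C = 1 ∨ (n = 1 ∧ n + B + C = 1)) := by
  decide

/-- if the form is not zero or hyperbolic modulo two, every twist is a product of reflections -/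
theorem ex_mem_of_not_hyp (h : ¬ Hyp n B C) (a : ℤ × ℤ) : ex n B C a ∈ W n B C := by
  obtain ⟨h1, h2⟩ := hyp_aux n B C h
  have c10 : (n : ZMod 2) = 1 → ex n B C (1, 0) ∈ W n B C := fun h =>
    ex_odd_mem' (by rw [qf_cast]; simp [h])
  have c01 : (C : ZMod 2) = 1 → ex n B C (0, 1) ∈ W n B C := fun h =>
    ex_odd_mem' (by rw [qf_cast]; simp [h])
  have c11 : (n + B + C : ZMod 2) = 1 → ex n B C (1, 1) ∈ W n B C := fun h =>
    ex_odd_mem' (by rw [qf_cast]; simp; exact h)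
  have b10 : ex n B C (1, 0) ∈ W n B C := by
    rcases h1 with h1 | ⟨h1, h3⟩
    · exact c10 h1
    · have e : ((1, 0) : ℤ × ℤ) = (1, 1) + -(0, 1) := by simp
      rw [e, ex_add, ex_neg]
      exact mul_mem (c11 h3) (inv_mem (c01 h1))
  have b01 : ex n B C (0, 1) ∈ W n B C := by
    rcases h2 with h2 | ⟨h2, h3⟩
    · exact c01 h2
    · have e : ((0, 1) : ℤ × ℤ) = (1, 1) + -(1, 0) := by simp
      rw [e, ex_add, ex_neg]
      exact mul_mem (c11 h3) (inv_mem (c10 h2))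
  obtain ⟨a1, a2⟩ := a
  rcases Int.even_or_odd' a1 with ⟨b, hb | hb⟩ <;> rcases Int.even_or_odd' a2 with ⟨c, hc | hc⟩
  · refine ex_mem_of_sub (b := 0) (c := (b, c)) ?_ (by rw [ex_zero]; exact one_mem _)
    rw [hb, hc]
    ext <;> simp <;> ring
  · refine ex_mem_of_sub (b := (0, 1)) (c := (b, c)) ?_ b01
    rw [hb, hc]
    ext <;> simp <;> ring
  · refine ex_mem_of_sub (b := (1, 0)) (c := (b, c)) ?_ b10
    rw [hb, hc]
    ext <;> simp <;> ring
  · refine ex_mem_of_sub (b := (1, 0) + (0, 1)) (c := (b, c)) ?_ ?_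
    · rw [hb, hc]
      ext <;> simp <;> ring
    · rw [ex_add]
      exact mul_mem b10 b01

/-- an element of the larger group that is trivial modulo two (if the form is zero or hyperbolic
modulo two) is a product of reflections -/
theorem mem_W_of_Wp {g : Au} (hg : g ∈ Wp n B C) (h2 : Hyp n B C → ∀ x, m2 (g x) = m2 x) :
    g ∈ W n B C := by
  obtain ⟨w, hw, a, rfl⟩ := Wp_decomp hg
  refine mul_mem hw ?_
  by_cases h : Hyp n B C
  · refine ex_mem_of_inv2 h ?_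
    have e1 : ex n B C a (1, 1, 0) = w⁻¹ ((w * ex n B C a) (1, 1, 0)) := by
      rw [LinearEquiv.mul_apply]
      exact (LinearEquiv.symm_apply_apply w _).symm
    rw [e1]
    refine W_inv2 h (inv_mem hw) _ ?_
    rw [h2 h]
    left
    simp [m2]
  · exact ex_mem_of_not_hyp h a

set_option synthInstance.maxSize 100000 in
set_option maxRecDepth 100000 in
theorem mE_aux : ∀ n B C δ t x y : ZMod 2,
    ((n = 0 ∧ B = 0 ∧ C = 0) ∨ (B = 1 ∧ n * C = 0)) →
    δ * (δ + t * B) + t ^ 2 * n * C = 1 →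
    δ * (δ * x + t * C * y) + t * C * (t * n * x + (δ + t * B) * y) = x ∧
    t * n * (δ * x + t * C * y) + (δ + t * B) * (t * n * x + (δ + t * B) * y) = y := by
  decide

/-- the multiplication by the square of a unit is a product of reflections if it is a product of
reflections and twists -/
theorem mE_mem_of_Wp {δ t μ : ℤ} (hμ : μ = 1 ∨ μ = -1) (hμ' : μ * μ = 1)
    (hN : δ * (δ + t * B) + t ^ 2 * n * C = μ) (h : mE n B C δ t μ hμ' hN ∈ Wp n B C) :
    mE n B C δ t μ hμ' hN ∈ W n B C := by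
  refine mem_W_of_Wp h fun hH x => ?_
  have cμ : (μ : ZMod 2) = 1 := by
    rcases hμ with rfl | rfl
    · simp
    · decide
  have m1 := congrArg (Int.cast : ℤ → ZMod 2) hN
  push_cast [cμ] at m1
  obtain ⟨x1, x2, x3, x4⟩ := x
  have h4 := mE_aux n B C δ t x3 x4 hH m1
  rw [mE_apply]
  simp only [m2, Em, Prod.smul_fst, Prod.smul_snd, smul_eq_mul]
  push_cast [cμ]
  simp only [sub_eq_add_neg, neg_two', one_mul]
  rw [h4.1, h4.2]

end Pool.Agent.Mukai
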