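import Pool.Agent.Work.MP_1e087a_ag.F.Mat
import Pool.Agent.Work.MP_1e087a_ag.F.Par
import Pool.Agent.Work.MP_1e087a_ag.F.Padic
import Pool.Agent.Work.MP_1e087a_ag.F.Engine2

/-!
# Every lift is a product of reflections, given the theorem of Dirichlet for the order
-/

namespace Pool.Agent.Mukai.RF

open Pool.Agent.Mukai

variable {n B C : ℤ}

theorem Wp_le : RF.Wp n B C ≤ Mukai.Wp n B C := by
  unfold RF.Wp
  rw [Subgroup.closure_le]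
  rintro g (hg | ⟨a, rfl⟩)
  · exact W_le_Wp hg
  · exact ex_mem_Wp a

theorem mE_mem_W (hP : PrimeElts n B C) (hΔ0 : 0 < B ^ 2 - 4 * n * C)
    (hΔs : ¬ IsSquare (B ^ 2 - 4 * n * C)) {δ t μ : ℤ} (hμ : μ = 1 ∨ μ = -1) (hμ' : μ * μ = 1)
    (hN : δ * (δ + t * B) + t ^ 2 * n * C = μ) : mE n B C δ t μ hμ' hN ∈ W n B C := by
  have hn : n ≠ 0 := by
    rintro rfl
    exact hΔs ⟨B, by ring⟩
  have hE : QuadraticAlgebra.norm (⟨δ, t⟩ : Ord n B C) = μ := by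
    rw [norm_eq]
    exact hN
  have h1 : Good n B C ⟨δ, t⟩ 0 := by
    refine engine moves hP (padic n B C) hn hΔ0 hΔs ?_
    rw [hE]
    exact hμ
  exact mE_mem_of_Wp hμ hμ' hN (Wp_le (mE_of_good hμ' hN h1))

/-- **Every lift is a product of reflections.** -/
theorem lift_all (hP : PrimeElts n B C) (hΔ0 : 0 < B ^ 2 - 4 * n * C)
    (hΔs : ¬ IsSquare (B ^ 2 - 4 * n * C)) {ν : ℤ} (hν : ν = 1 ∨ ν = -1)
    {f : ℤ × ℤ →+ ℤ × ℤ} (hf : ∀ x, qf n B C (f x) = qf n B C x) (hd : DiscAct n B C ν f) :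
    IsProd n B C (lift ν f) := by
  rcases lift_kind hν hΔ0 hΔs hf hd with ⟨g, hgW, h⟩ | ⟨δ, t, μ, hμ, hμ', hN, g, hgW, _, _, h⟩
  · obtain ⟨l, h1, h2⟩ := isProd_of_mem hgW
    exact ⟨l, h1, fun x => by rw [← h, h2]⟩
  · obtain ⟨l, h1, h2⟩ := isProd_of_mem (mul_mem hgW (mE_mem_W hP hΔ0 hΔs hμ hμ' hN))
    exact ⟨l, h1, fun x => by rw [← h, h2]⟩

end Pool.Agent.Mukai.RF
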