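import Pool.Agent.Work.MP_1e087a_ag.F.Defs
import Pool.Agent.Work.MP_1e087a_ag.Lift

set_option autoImplicit false

/-!
# Matrices over the order, and the moves

The isometry of the Mukai lattice with the matrix `[α, β; γ̄, δ]`, `α δ - H(β, γ) = 1`, is
`X ↦ A X A*` for `X = [r, D; D̄, s]`.
-/

namespace Pool.Agent.Mukai.RF

open Pool.Agent.Mukai

variable {n B C : ℤ}

/-- the hermitian form `H(x, y) = x ȳ / n` of the ideal `ℤ n + ℤ ω` with the basis `n, ω` -/
def Hf (n B C : ℤ) (x y : ℤ × ℤ) : Ord n B C :=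
  ⟨n * (x.1 * y.1) + C * (x.2 * y.2) + B * (x.1 * y.2), x.2 * y.1 - x.1 * y.2⟩

/-- the multiplication of the ideal by an element of the order -/
def em (α : Ord n B C) (D : ℤ × ℤ) : ℤ × ℤ :=
  (α.re * D.1 - α.im * C * D.2, α.im * n * D.1 + (α.re + α.im * B) * D.2)

/-- the norm in coordinates -/
def nm (α : Ord n B C) : ℤ := α.re * (α.re + α.im * B) + α.im ^ 2 * n * C

theorem norm_eq (α : Ord n B C) : QuadraticAlgebra.norm α = nm α := by
  rw [QuadraticAlgebra.norm_def, nm]
  ring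

/-- the trace in coordinates -/
def tc (α : Ord n B C) : ℤ := 2 * α.re + B * α.im

/-- the conjugate -/
def cj (α : Ord n B C) : Ord n B C := ⟨α.re + B * α.im, -α.im⟩

/-- the action of a matrix -/
def act (α : Ord n B C) (β γ : ℤ × ℤ) (δ : Ord n B C) (x : Mu) : Mu :=
  (nm α * x.1 + tc (α * Hf n B C x.2.2 β) + x.2.1 * qf n B C β,
    x.1 * qf n B C γ + tc (δ * Hf n B C γ x.2.2) + x.2.1 * nm δ,
    x.1 • em α γ + em (Hf n B C β x.2.2) γ + em α (em (cj δ) x.2.2) + x.2.1 • em (cj δ) β)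

/-- the determinant -/
def dt (α : Ord n B C) (β γ : ℤ × ℤ) (δ : Ord n B C) : Ord n B C := α * δ - Hf n B C β γ

theorem act_e21 (α : Ord n B C) (β γ : ℤ × ℤ) (δ : Ord n B C) (y : ℤ × ℤ) (x : Mu) :
    act α β γ δ (ex n B C y x) =
      act (α + Hf n B C β y) β (γ + em (cj δ) y) δ x := by
  obtain ⟨a0, a1⟩ := α
  obtain ⟨d0, d1⟩ := δ
  obtain ⟨b0, b1⟩ := β
  obtain ⟨c0, c1⟩ := γ
  obtain ⟨y0, y1⟩ := y
  obtain ⟨r, s, u, v⟩ := x
  rw [ex_apply]
  simp only [act, Hf, em, nm, tc, cj, qf, pf, QuadraticAlgebra.re_mul, QuadraticAlgebra.im_mul,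
    QuadraticAlgebra.re_add, QuadraticAlgebra.im_add, Prod.fst_add, Prod.snd_add, Prod.smul_fst,
    Prod.smul_snd, smul_eq_mul]
  ext
  · simp only
    ring
  · simp only
    ring
  · simp only [Prod.fst_add, Prod.snd_add, Prod.smul_fst, Prod.smul_snd, smul_eq_mul]
    ring
  · simp only [Prod.fst_add, Prod.snd_add, Prod.smul_fst, Prod.smul_snd, smul_eq_mul]
    ring

theorem dt_e21 (α : Ord n B C) (β γ : ℤ × ℤ) (δ : Ord n B C) (y : ℤ × ℤ) :
    dt (α + Hf n B C β y) β (γ + em (cj δ) y) δ = dt α β γ δ := by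
  obtain ⟨a0, a1⟩ := α
  obtain ⟨d0, d1⟩ := δ
  obtain ⟨b0, b1⟩ := β
  obtain ⟨c0, c1⟩ := γ
  obtain ⟨y0, y1⟩ := y
  ext
  · simp only [dt, Hf, em, cj, QuadraticAlgebra.re_mul, QuadraticAlgebra.im_mul,
      QuadraticAlgebra.re_add, QuadraticAlgebra.im_add, QuadraticAlgebra.re_sub,
      QuadraticAlgebra.im_sub, Prod.fst_add, Prod.snd_add]
    ring
  · simp only [dt, Hf, em, cj, QuadraticAlgebra.re_mul, QuadraticAlgebra.im_mul,
      QuadraticAlgebra.re_add, QuadraticAlgebra.im_add, QuadraticAlgebra.re_sub,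
      QuadraticAlgebra.im_sub, Prod.fst_add, Prod.snd_add]
    ring

theorem act_e12 (α : Ord n B C) (β γ : ℤ × ℤ) (δ : Ord n B C) (y : ℤ × ℤ) (x : Mu) :
    act α β γ δ (T n B C (ex n B C y (T n B C x))) =
      act α (em α y + β) γ (δ + Hf n B C y γ) x := by
  obtain ⟨a0, a1⟩ := α
  obtain ⟨d0, d1⟩ := δ
  obtain ⟨b0, b1⟩ := β
  obtain ⟨c0, c1⟩ := γ
  obtain ⟨y0, y1⟩ := y
  obtain ⟨r, s, u, v⟩ := x
  rw [T_apply, ex_apply, T_apply]
  simp only [act, Hf, em, nm, tc, cj, qf, pf, QuadraticAlgebra.re_mul, QuadraticAlgebra.im_mul,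
    QuadraticAlgebra.re_add, QuadraticAlgebra.im_add, Prod.fst_add, Prod.snd_add, Prod.smul_fst,
    Prod.smul_snd, smul_eq_mul]
  ext
  · simp only
    ring
  · simp only
    ring
  · simp only [Prod.fst_add, Prod.snd_add, Prod.smul_fst, Prod.smul_snd, smul_eq_mul]
    ring
  · simp only [Prod.fst_add, Prod.snd_add, Prod.smul_fst, Prod.smul_snd, smul_eq_mul]
    ring

theorem dt_e12 (α : Ord n B C) (β γ : ℤ × ℤ) (δ : Ord n B C) (y : ℤ × ℤ) :
    dt α (em α y + β) γ (δ + Hf n B C y γ) = dt α β γ δ := by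
  obtain ⟨a0, a1⟩ := α
  obtain ⟨d0, d1⟩ := δ
  obtain ⟨b0, b1⟩ := β
  obtain ⟨c0, c1⟩ := γ
  obtain ⟨y0, y1⟩ := y
  ext
  · simp only [dt, Hf, em, cj, QuadraticAlgebra.re_mul, QuadraticAlgebra.im_mul,
      QuadraticAlgebra.re_add, QuadraticAlgebra.im_add, QuadraticAlgebra.re_sub,
      QuadraticAlgebra.im_sub, Prod.fst_add, Prod.snd_add]
    ring
  · simp only [dt, Hf, em, cj, QuadraticAlgebra.re_mul, QuadraticAlgebra.im_mul,
      QuadraticAlgebra.re_add, QuadraticAlgebra.im_add, QuadraticAlgebra.re_sub,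
      QuadraticAlgebra.im_sub, Prod.fst_add, Prod.snd_add]
    ring

/-- the group generated by the reflections and the twists -/
def Wp (n B C : ℤ) : Subgroup Au :=
  Subgroup.closure ((W n B C : Set Au) ∪ {g | ∃ a, g = ex n B C a})

theorem W_le : W n B C ≤ Wp n B C := fun _ hg =>
  Subgroup.subset_closure (Or.inl hg)

theorem ex_mem (a : ℤ × ℤ) : ex n B C a ∈ Wp n B C :=
  Subgroup.subset_closure (Or.inr ⟨a, rfl⟩)

theorem T_memp : T n B C ∈ Wp n B C := W_le T_mem

/-- the isometries with the first row `(α, w b₀)` are in the group `W⁺` -/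
def Good (n B C : ℤ) (α w : Ord n B C) : Prop :=
  ∃ g ∈ Wp n B C, ∃ (γ : ℤ × ℤ) (δ : Ord n B C), dt α (em w (1, 0)) γ δ = 1 ∧
    ∀ x, g x = act α (em w (1, 0)) γ δ x

theorem good_g1 (α w : Ord n B C) (a b : ℤ) (h : Good n B C α w) :
    Good n B C (α + w * ((n : Ord n B C) * (a : Ord n B C) +
      star QuadraticAlgebra.omega * (b : Ord n B C))) w := by
  obtain ⟨g, hg, γ, δ, h1, h2⟩ := h
  have e : α + w * ((n : Ord n B C) * (a : Ord n B C) +
      star QuadraticAlgebra.omega * (b : Ord n B C)) = α + Hf n B C (em w (1, 0)) (a, b) := by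
    obtain ⟨w0, w1⟩ := w
    ext
    · simp [Hf, em]
      ring
    · simp [Hf, em]
      ring
  rw [e]
  refine ⟨g * ex n B C (a, b), mul_mem hg (ex_mem _), γ + em (cj δ) (a, b), δ, ?_, fun x => ?_⟩
  · rw [dt_e21, h1]
  · rw [LinearEquiv.mul_apply, h2, act_e21]

theorem good_g2 (α w y : Ord n B C) (h : Good n B C α w) : Good n B C α (w + α * y) := by
  obtain ⟨g, hg, γ, δ, h1, h2⟩ := h
  have e : em (w + α * y) (1, 0) = em α (em y (1, 0)) + em w (1, 0) := by
    obtain ⟨w0, w1⟩ := w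
    obtain ⟨a0, a1⟩ := α
    obtain ⟨y0, y1⟩ := y
    ext
    · simp [em]
      ring
    · simp [em]
      ring
  unfold Good
  rw [e]
  refine ⟨g * (T n B C * ex n B C (em y (1, 0)) * T n B C),
    mul_mem hg (mul_mem (mul_mem T_memp (ex_mem _)) T_memp), γ, δ + Hf n B C (em y (1, 0)) γ, ?_,
    fun x => ?_⟩
  · rw [dt_e12, h1]
  · rw [LinearEquiv.mul_apply, LinearEquiv.mul_apply, LinearEquiv.mul_apply, h2, act_e12]

theorem em_em (α β : Ord n B C) (D : ℤ × ℤ) : em α (em β D) = em (α * β) D := by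
  obtain ⟨a0, a1⟩ := α
  obtain ⟨b0, b1⟩ := β
  obtain ⟨u, v⟩ := D
  ext
  · simp only [em, QuadraticAlgebra.re_mul, QuadraticAlgebra.im_mul]
    ring
  · simp only [em, QuadraticAlgebra.re_mul, QuadraticAlgebra.im_mul]
    ring

theorem cj_mul (u : Ord n B C) (hu : nm u = 1) : cj u * u = 1 := by
  obtain ⟨a0, a1⟩ := u
  simp only [nm] at hu
  ext
  · simp only [cj, QuadraticAlgebra.re_mul, QuadraticAlgebra.re_one]
    linear_combination hu
  · simp only [cj, QuadraticAlgebra.im_mul, QuadraticAlgebra.im_one]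
    ring

theorem mul_cj (u : Ord n B C) (hu : nm u = 1) : u * cj u = 1 := by
  rw [mul_comm, cj_mul u hu]

theorem em_one (D : ℤ × ℤ) : em (1 : Ord n B C) D = D := by
  ext
  · simp [em, QuadraticAlgebra.re_one, QuadraticAlgebra.im_one]
  · simp [em, QuadraticAlgebra.re_one, QuadraticAlgebra.im_one]

theorem em_addD (α : Ord n B C) (D D' : ℤ × ℤ) : em α (D + D') = em α D + em α D' := by
  ext
  · simp only [em, Prod.fst_add, Prod.snd_add]
    ring
  · simp only [em, Prod.fst_add, Prod.snd_add]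
    ring

/-- the isometry `D ↦ u D`, `u` a unit of norm `1` -/
def cu (u : Ord n B C) (hu : nm u = 1) : Au :=
  AddEquiv.toIntLinearEquiv
  { toFun := fun x => (x.1, x.2.1, em u x.2.2)
    invFun := fun x => (x.1, x.2.1, em (cj u) x.2.2)
    left_inv := by
      intro x
      simp only [em_em, cj_mul u hu, em_one]
    right_inv := by
      intro x
      simp only [em_em, mul_cj u hu, em_one]
    map_add' := by
      intro x y
      simp only [Prod.fst_add, Prod.snd_add, em_addD]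
      rfl }

theorem cu_apply (u : Ord n B C) (hu : nm u = 1) (x : Mu) :
    cu u hu x = (x.1, x.2.1, em u x.2.2) := rfl

theorem cu_inv_apply (u : Ord n B C) (hu : nm u = 1) (x : Mu) :
    (cu u hu)⁻¹ x = (x.1, x.2.1, em (cj u) x.2.2) := rfl

theorem qf_em (u : Ord n B C) (D : ℤ × ℤ) : qf n B C (em u D) = nm u * qf n B C D := by
  simp only [qf, em, nm]
  ring

theorem pf_em (u : Ord n B C) (D D' : ℤ × ℤ) :
    pf n B C (em u D) (em u D') = nm u * pf n B C D D' := by
  simp only [pf, em, nm]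
  ring

theorem cu_isom (u : Ord n B C) (hu : nm u = 1) : Isom n B C (cu u hu) := by
  intro x
  rw [cu_apply]
  simp only [Qf, qf_em, hu, one_mul]

theorem cu_ex (u : Ord n B C) (hu : nm u = 1) (a : ℤ × ℤ) :
    cu u hu * ex n B C a * (cu u hu)⁻¹ = ex n B C (em u a) := by
  apply LinearEquiv.ext
  intro x
  rw [LinearEquiv.mul_apply, LinearEquiv.mul_apply, cu_apply, cu_inv_apply, ex_apply, ex_apply]
  have h1 : em u (em (cj u) x.2.2) = x.2.2 := by rw [em_em, mul_cj u hu, em_one]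
  have h2 : pf n B C (em u a) x.2.2 = pf n B C a (em (cj u) x.2.2) := by
    conv_lhs => rw [← h1]
    rw [pf_em, hu, one_mul]
  have h3 : em u (x.1 • a) = x.1 • em u a := by
    ext
    · simp only [em, Prod.smul_fst, Prod.smul_snd, smul_eq_mul]
      ring
    · simp only [em, Prod.smul_fst, Prod.smul_snd, smul_eq_mul]
      ring
  simp only [em_addD, h1, h2, h3, qf_em, hu, one_mul]

theorem cu_conj_mem (u : Ord n B C) (hu : nm u = 1) {g : Au} (hg : g ∈ Wp n B C) :
    cu u hu * g * (cu u hu)⁻¹ ∈ Wp n B C := by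
  induction hg using Subgroup.closure_induction with
  | mem w hw =>
    rcases hw with hw | ⟨a, rfl⟩
    · exact W_le (conj_mem (cu_isom u hu) hw)
    · rw [cu_ex]
      exact ex_mem _
  | one => simp
  | mul a b _ _ ha hb =>
    have h : cu u hu * (a * b) * (cu u hu)⁻¹ = (cu u hu * a * (cu u hu)⁻¹) *
      (cu u hu * b * (cu u hu)⁻¹) := by group
    rw [h]
    exact mul_mem ha hb
  | inv a _ ha =>
    have h : cu u hu * a⁻¹ * (cu u hu)⁻¹ = (cu u hu * a * (cu u hu)⁻¹)⁻¹ := by group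
    rw [h]
    exact inv_mem ha

theorem Hf_em_left (u : Ord n B C) (x y : ℤ × ℤ) : Hf n B C (em u x) y = u * Hf n B C x y := by
  obtain ⟨a0, a1⟩ := u
  ext
  · simp only [Hf, em, QuadraticAlgebra.re_mul]
    ring
  · simp only [Hf, em, QuadraticAlgebra.im_mul]
    ring

theorem Hf_em_right (u : Ord n B C) (x y : ℤ × ℤ) :
    Hf n B C x (em u y) = cj u * Hf n B C x y := by
  obtain ⟨a0, a1⟩ := u
  ext
  · simp only [Hf, em, cj, QuadraticAlgebra.re_mul]
    ring
  · simp only [Hf, em, cj, QuadraticAlgebra.im_mul]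
    ring

theorem Hf_em (u : Ord n B C) (hu : nm u = 1) (x y : ℤ × ℤ) :
    Hf n B C (em u x) (em u y) = Hf n B C x y := by
  rw [Hf_em_left, Hf_em_right, ← mul_assoc, mul_cj u hu, one_mul]

theorem cj_cj (u : Ord n B C) : cj (cj u) = u := by
  ext
  · simp [cj]
  · simp [cj]

theorem em_smul (u : Ord n B C) (k : ℤ) (D : ℤ × ℤ) : em u (k • D) = k • em u D := by
  ext
  · simp only [em, Prod.smul_fst, Prod.smul_snd, smul_eq_mul]
    ring
  · simp only [em, Prod.smul_fst, Prod.smul_snd, smul_eq_mul]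
    ring

theorem act_cu (u : Ord n B C) (hu : nm u = 1) (α : Ord n B C) (β γ : ℤ × ℤ) (δ : Ord n B C)
    (x : Mu) : cu u hu (act α β γ δ ((cu u hu)⁻¹ x)) = act α (em u β) (em u γ) δ x := by
  rw [cu_apply, cu_inv_apply]
  simp only [act]
  have e1 : Hf n B C (em (cj u) x.2.2) β = Hf n B C x.2.2 (em u β) := by
    rw [Hf_em_left, Hf_em_right]
  have e2 : Hf n B C γ (em (cj u) x.2.2) = Hf n B C (em u γ) x.2.2 := by
    rw [Hf_em_left, Hf_em_right, cj_cj]
  have e3 : Hf n B C β (em (cj u) x.2.2) = Hf n B C (em u β) x.2.2 := by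
    rw [Hf_em_left, Hf_em_right, cj_cj]
  rw [e1, e2, e3, qf_em, qf_em, hu, one_mul, one_mul]
  ext
  · rfl
  · rfl
  all_goals
    simp only [em_addD, em_smul, em_em]
    have c1 : u * α = α * u := mul_comm _ _
    have c2 : u * Hf n B C (em u β) x.2.2 = Hf n B C (em u β) x.2.2 * u := mul_comm _ _
    have c3 : u * (α * (cj δ * cj u)) = α * cj δ := by
      calc u * (α * (cj δ * cj u)) = α * cj δ * (u * cj u) := by ring
        _ = α * cj δ := by rw [mul_cj u hu, mul_one]
    have c4 : u * cj δ = cj δ * u := mul_comm _ _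
    simp only [c1, c2, c3, c4]

theorem dt_cu (u : Ord n B C) (hu : nm u = 1) (α : Ord n B C) (β γ : ℤ × ℤ) (δ : Ord n B C) :
    dt α (em u β) (em u γ) δ = dt α β γ δ := by
  simp only [dt, Hf_em u hu]

theorem good_g3 (α w u : Ord n B C) (hu : QuadraticAlgebra.norm u = 1) (h : Good n B C α w) :
    Good n B C α (u * w) := by
  rw [norm_eq] at hu
  obtain ⟨g, hg, γ, δ, h1, h2⟩ := h
  have e : em (u * w) (1, 0) = em u (em w (1, 0)) := (em_em _ _ _).symm
  unfold Good
  rw [e]
  refine ⟨cu u hu * g * (cu u hu)⁻¹, cu_conj_mem u hu hg, em u γ, δ, ?_, fun x => ?_⟩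
  · rw [dt_cu u hu, h1]
  · rw [LinearEquiv.mul_apply, LinearEquiv.mul_apply, h2, act_cu]

theorem act_neg (α : Ord n B C) (β γ : ℤ × ℤ) (δ : Ord n B C) (x : Mu) :
    act (-α) (-β) (-γ) (-δ) x = act α β γ δ x := by
  obtain ⟨a0, a1⟩ := α
  obtain ⟨d0, d1⟩ := δ
  obtain ⟨b0, b1⟩ := β
  obtain ⟨c0, c1⟩ := γ
  obtain ⟨r, s, u, v⟩ := x
  simp only [act, Hf, em, nm, tc, cj, qf, QuadraticAlgebra.re_mul, QuadraticAlgebra.im_mul,
    QuadraticAlgebra.re_neg, QuadraticAlgebra.im_neg, Prod.fst_neg, Prod.snd_neg]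
  ext
  · simp only
    ring
  · simp only
    ring
  · simp only [Prod.fst_add, Prod.smul_fst, smul_eq_mul]
    ring
  · simp only [Prod.snd_add, Prod.smul_snd, smul_eq_mul]
    ring

theorem dt_neg (α : Ord n B C) (β γ : ℤ × ℤ) (δ : Ord n B C) :
    dt (-α) (-β) (-γ) (-δ) = dt α β γ δ := by
  obtain ⟨a0, a1⟩ := α
  obtain ⟨d0, d1⟩ := δ
  ext
  · simp [dt, Hf]
  · simp [dt, Hf]

theorem good_negneg (α w : Ord n B C) (h : Good n B C α w) : Good n B C (-α) (-w) := by
  obtain ⟨g, hg, γ, δ, h1, h2⟩ := h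
  have e : em (-w) (1, 0) = -em w (1, 0) := by
    ext
    · simp [em]
    · simp [em]
  unfold Good
  rw [e]
  exact ⟨g, hg, -γ, -δ, by rw [dt_neg, h1], fun x => by rw [act_neg, h2]⟩

theorem norm_neg_one : QuadraticAlgebra.norm (-1 : Ord n B C) = 1 := by
  rw [norm_eq]
  simp [nm, QuadraticAlgebra.re_one, QuadraticAlgebra.im_one]

theorem good_g6 (α w : Ord n B C) (h : Good n B C α w) : Good n B C (-α) w := by
  have h1 := good_g3 _ _ (-1) norm_neg_one (good_negneg α w h)
  rwa [neg_one_mul, neg_neg] at h1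

theorem act_l21 (α : Ord n B C) (β γ : ℤ × ℤ) (δ : Ord n B C) (z : ℤ × ℤ) (x : Mu) :
    ex n B C z (act α β γ δ x) = act α β (γ + em (cj α) z) (δ + Hf n B C β z) x := by
  obtain ⟨a0, a1⟩ := α
  obtain ⟨d0, d1⟩ := δ
  obtain ⟨b0, b1⟩ := β
  obtain ⟨c0, c1⟩ := γ
  obtain ⟨z0, z1⟩ := z
  obtain ⟨r, s, u, v⟩ := x
  rw [ex_apply]
  simp only [act, Hf, em, nm, tc, cj, qf, pf, QuadraticAlgebra.re_mul, QuadraticAlgebra.im_mul,
    QuadraticAlgebra.re_add, QuadraticAlgebra.im_add, Prod.fst_add, Prod.snd_add, Prod.smul_fst,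
    Prod.smul_snd, smul_eq_mul]
  ext
  · simp only
  · simp only
    ring
  · simp only [Prod.fst_add, Prod.snd_add, Prod.smul_fst, Prod.smul_snd, smul_eq_mul]
    ring
  · simp only [Prod.fst_add, Prod.snd_add, Prod.smul_fst, Prod.smul_snd, smul_eq_mul]
    ring

theorem act_ld (u : Ord n B C) (α : Ord n B C) (β γ : ℤ × ℤ) (δ : Ord n B C) (x : Mu) :
    act u (0, 0) (0, 0) (cj u) (act α β γ δ x) =
      act (u * α) (em u β) (em u γ) (cj u * δ) x := by
  obtain ⟨a0, a1⟩ := α
  obtain ⟨d0, d1⟩ := δ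
  obtain ⟨b0, b1⟩ := β
  obtain ⟨c0, c1⟩ := γ
  obtain ⟨u0, u1⟩ := u
  obtain ⟨r, s, u, v⟩ := x
  simp only [act, Hf, em, nm, tc, cj, qf, QuadraticAlgebra.re_mul, QuadraticAlgebra.im_mul,
    Prod.fst_add, Prod.snd_add, Prod.smul_fst, Prod.smul_snd, smul_eq_mul]
  ext
  · simp only
    ring
  · simp only
    ring
  · simp only [Prod.fst_add, Prod.snd_add, Prod.smul_fst, Prod.smul_snd, smul_eq_mul]
    ring
  · simp only [Prod.fst_add, Prod.snd_add, Prod.smul_fst, Prod.smul_snd, smul_eq_mul]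
    ring

/-- the diagonal matrices -/
theorem good_zero {u : Ord n B C} (h : Good n B C u 0) : ∃ g ∈ Wp n B C, ∃ δ : Ord n B C,
    u * δ = 1 ∧ ∀ x, g x = act u (0, 0) (0, 0) δ x := by
  obtain ⟨g, hg, γ, δ, h1, h2⟩ := h
  have e : em (0 : Ord n B C) (1, 0) = (0, 0) := by
    ext
    · simp [em]
    · simp [em]
  rw [e] at h1 h2
  have hd : u * δ = 1 := by
    rw [← h1, dt]
    have : Hf n B C (0, 0) γ = 0 := by
      ext
      · simp [Hf]
      · simp [Hf]
    rw [this, sub_zero]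
  refine ⟨ex n B C (-em (cj δ) γ) * g, mul_mem (ex_mem _) hg, δ, hd, fun x => ?_⟩
  rw [LinearEquiv.mul_apply, h2, act_l21]
  have e1 : em (cj u) (-em (cj δ) γ) = -γ := by
    have h3 : em (cj u) (-em (cj δ) γ) = -em (cj u) (em (cj δ) γ) := by
      ext
      · simp only [em, Prod.fst_neg, Prod.snd_neg]
        ring
      · simp only [em, Prod.fst_neg, Prod.snd_neg]
        ring
    have h4 : cj u * cj δ = 1 := by
      have h5 : cj u * cj δ = cj (u * δ) := by
        ext
        · simp only [cj, QuadraticAlgebra.re_mul, QuadraticAlgebra.im_mul]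
          ring
        · simp only [cj, QuadraticAlgebra.re_mul, QuadraticAlgebra.im_mul]
          ring
      rw [h5, hd]
      ext
      · simp [cj, QuadraticAlgebra.re_one, QuadraticAlgebra.im_one]
      · simp [cj, QuadraticAlgebra.re_one, QuadraticAlgebra.im_one]
    rw [h3, em_em, h4, em_one]
  have e2 : Hf n B C (0, 0) (-em (cj δ) γ) = 0 := by
    ext
    · simp [Hf]
    · simp [Hf]
  rw [e1, e2, add_zero, add_neg_cancel]
  rfl

theorem good_g4 (α w u : Ord n B C) (hu : QuadraticAlgebra.norm u = 1) (h0 : Good n B C u 0)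
    (h : Good n B C α w) : Good n B C (u * α) w := by
  have hu' : nm u = 1 := by rw [← norm_eq, hu]
  obtain ⟨g₀, hg₀, δ₀, hd, h3⟩ := good_zero h0
  have hδ : δ₀ = cj u := by
    calc δ₀ = (cj u * u) * δ₀ := by rw [cj_mul u hu', one_mul]
      _ = cj u * (u * δ₀) := by ring
      _ = cj u := by rw [hd, mul_one]
  subst hδ
  have key : Good n B C (u * α) (u * w) := by
    obtain ⟨g, hg, γ, δ, h1, h2⟩ := h
    have e : em (u * w) (1, 0) = em u (em w (1, 0)) := (em_em _ _ _).symm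
    unfold Good
    rw [e]
    refine ⟨g₀ * g, mul_mem hg₀ hg, em u γ, cj u * δ, ?_, fun x => ?_⟩
    · have e2 : u * α * (cj u * δ) = α * δ := by
        calc u * α * (cj u * δ) = (u * cj u) * (α * δ) := by ring
          _ = α * δ := by rw [mul_cj u hu', one_mul]
      rw [dt, Hf_em u hu', e2]
      exact h1
    · rw [LinearEquiv.mul_apply, h2, h3, act_ld]
  have hc : QuadraticAlgebra.norm (cj u) = 1 := by
    rw [norm_eq]
    simp only [nm, cj]
    simp only [nm] at hu'
    linear_combination hu'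
  have h4 := good_g3 _ _ (cj u) hc key
  have e3 : cj u * (u * w) = w := by rw [← mul_assoc, cj_mul u hu', one_mul]
  rwa [e3] at h4

theorem qf_b0 (w : Ord n B C) : qf n B C (em w (1, 0)) = n * QuadraticAlgebra.norm w := by
  rw [qf_em, norm_eq]
  simp [qf]
  ring

theorem good_g5 (ρ : ℤ) (w : Ord n B C)
    (h : ρ ∣ n * QuadraticAlgebra.norm w - 1 ∨ ρ ∣ n * QuadraticAlgebra.norm w + 1) :
    Good n B C (ρ : Ord n B C) w := by
  rw [← qf_b0] at h
  rcases h with ⟨σ, hσ⟩ | ⟨σ, hσ⟩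
  · have key : Good n B C (ρ : Ord n B C) (-w) := by
      have e : em (-w) (1, 0) = -em w (1, 0) := by
        ext
        · simp [em]
        · simp [em]
      unfold Good
      rw [e]
      generalize em w (1, 0) = β at hσ
      have hQ : Qf n B C (ρ, σ, β) = 1 := by
        simp only [Qf]
        linear_combination hσ
      refine ⟨R n B C (ρ, σ, β) (Or.inl hQ) * T n B C, mul_mem (W_le (R_mem _)) T_memp, β,
        (-σ : ℤ), ?_, fun x => ?_⟩
      · obtain ⟨b0, b1⟩ := β
        simp only [qf] at hσ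
        ext
        · simp [dt, Hf, QuadraticAlgebra.re_one]
          linear_combination hσ
        · simp [dt, Hf, QuadraticAlgebra.im_one]
          ring
      · rw [LinearEquiv.mul_apply, T_apply, R_apply, refl, hQ]
        obtain ⟨b0, b1⟩ := β
        obtain ⟨r, s, u, v⟩ := x
        simp only [qf] at hσ
        simp only [act, Hf, em, nm, tc, cj, qf, Pf, pf, QuadraticAlgebra.re_mul,
          QuadraticAlgebra.im_mul, QuadraticAlgebra.re_intCast, QuadraticAlgebra.im_intCast]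
        ext
        · simp
          linear_combination (-s) * hσ
        · simp
          linear_combination (-r) * hσ
        · simp
          linear_combination (-u) * hσ
        · simp
          linear_combination (-v) * hσ
    have h1 := good_g3 _ _ (-1) norm_neg_one key
    rwa [neg_one_mul, neg_neg] at h1
  · unfold Good
    generalize em w (1, 0) = β at hσ
    have hQ : Qf n B C (ρ, σ, β) = -1 := by
      simp only [Qf]
      linear_combination hσ
    refine ⟨R n B C (ρ, σ, β) (Or.inr hQ) * T' n B C, mul_mem (W_le (R_mem _)) (W_le T'_mem), β,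
      (σ : ℤ), ?_, fun x => ?_⟩
    · obtain ⟨b0, b1⟩ := β
      simp only [qf] at hσ
      ext
      · simp [dt, Hf, QuadraticAlgebra.re_one]
        linear_combination -hσ
      · simp [dt, Hf, QuadraticAlgebra.im_one]
        ring
    · rw [LinearEquiv.mul_apply, T'_apply, R_apply, refl, hQ]
      obtain ⟨b0, b1⟩ := β
      obtain ⟨r, s, u, v⟩ := x
      simp only [qf] at hσ
      simp only [act, Hf, em, nm, tc, cj, qf, Pf, pf, QuadraticAlgebra.re_mul,
        QuadraticAlgebra.im_mul, QuadraticAlgebra.re_intCast, QuadraticAlgebra.im_intCast]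
      ext
      · simp
        linear_combination (-s) * hσ
      · simp
        linear_combination (-r) * hσ
      · simp
        linear_combination u * hσ
      · simp
        linear_combination v * hσ

/-- **The moves.** -/
theorem moves : Moves n B C (Good n B C) where
  g1 := good_g1
  g2 := good_g2
  g3 := good_g3
  g4 := good_g4
  g5 := fun ρ w _ h => good_g5 ρ w h
  g6 := good_g6

/-- the multiplication by the square of a unit -/
theorem mE_of_good {δ t ν : ℤ} (hν : ν * ν = 1) (hN : δ * (δ + t * B) + t ^ 2 * n * C = ν)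
    (h : Good n B C ⟨δ, t⟩ 0) : mE n B C δ t ν hν hN ∈ Wp n B C := by
  obtain ⟨g, hg, d, hd, h2⟩ := good_zero h
  have hg' : mE n B C δ t ν hν hN = g := by
    apply LinearEquiv.ext
    intro x
    rw [h2, mE_apply]
    have e : d = (ν : Ord n B C) * cj ⟨δ, t⟩ := by
      have e1 : (⟨δ, t⟩ : Ord n B C) * cj ⟨δ, t⟩ = (ν : Ord n B C) := by
        ext
        · simp only [cj, QuadraticAlgebra.re_mul, QuadraticAlgebra.re_intCast, Int.cast_id]
          linear_combination hN
        · simp only [cj, QuadraticAlgebra.im_mul, QuadraticAlgebra.im_intCast]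
          ring
      have e2 : (ν : Ord n B C) * (ν : Ord n B C) = 1 := by
        rw [← Int.cast_mul, hν, Int.cast_one]
      calc d = (ν : Ord n B C) * ((⟨δ, t⟩ : Ord n B C) * cj ⟨δ, t⟩) * d := by rw [e1, e2, one_mul]
        _ = (ν : Ord n B C) * cj ⟨δ, t⟩ * (⟨δ, t⟩ * d) := by ring
        _ = (ν : Ord n B C) * cj ⟨δ, t⟩ := by rw [hd, mul_one]
    rw [e]
    obtain ⟨r, s, u, v⟩ := x
    simp only [act, Hf, em, nm, tc, cj, qf, Em, QuadraticAlgebra.re_mul,
      QuadraticAlgebra.im_mul, QuadraticAlgebra.re_intCast, QuadraticAlgebra.im_intCast]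
    ext
    · simp
      left
      exact hN.symm
    · simp
      linear_combination (-s * ν ^ 2) * hN - s * ν * hν
    · simp
      ring
    · simp
      ring
  rw [hg']
  exact hg

end Pool.Agent.Mukai.RF
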