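import Pool.Agent.Work.MP_1e087a_ag.F.Defs

set_option autoImplicit false

/-!
Residue fields of `ℤ[ω]` at elements of prime norm.
-/

namespace Pool.Agent.Mukai.RF

open QuadraticAlgebra

variable {n B C : ℤ}

lemma norm_eq' (x : Ord n B C) : norm x = x.re ^ 2 + B * x.re * x.im + n * C * x.im ^ 2 := by
  rw [norm_def]
  ring

/-- the reduction modulo an element of prime norm -/
theorem exists_residue {x : Ord n B C} {q : ℕ} (hq : q.Prime) (hx : (norm x).natAbs = q) :
    ∃ φ : Ord n B C →+* ZMod q, ∀ y, φ y = 0 ↔ x ∣ y := by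
  have := Fact.mk hq
  obtain ⟨a, b⟩ := x
  have hn := norm_eq' (⟨a, b⟩ : Ord n B C)
  simp only at hn
  have hqn : (q : ℤ) ∣ norm (⟨a, b⟩ : Ord n B C) := by
    rw [← hx]; exact Int.natAbs_dvd.2 dvd_rfl
  have hnn : norm (⟨a, b⟩ : Ord n B C) = q ∨ norm (⟨a, b⟩ : Ord n B C) = -q := by
    rcases Int.natAbs_eq (norm (⟨a, b⟩ : Ord n B C)) with h | h
    · left; rw [h, hx]
    · right; rw [h, hx]
  -- `q` does not divide `b`
  have hb : ¬ (q : ℤ) ∣ b := by
    intro hb
    have h1 : (q : ℤ) ∣ a ^ 2 := by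
      have h2 : a ^ 2 = norm (⟨a, b⟩ : Ord n B C) - b * (B * a + n * C * b) := by
        rw [hn]; ring
      rw [h2]
      exact dvd_sub hqn (Dvd.dvd.mul_right hb _)
    have ha : (q : ℤ) ∣ a := (Nat.prime_iff_prime_int.1 hq).dvd_of_dvd_pow h1
    obtain ⟨a', rfl⟩ := ha
    obtain ⟨b', rfl⟩ := hb
    have h3 : (q : ℤ) * q ∣ q := by
      have h4 : (q : ℤ) * q ∣ norm (⟨q * a', q * b'⟩ : Ord n B C) := by
        rw [hn]
        exact ⟨a' ^ 2 + B * a' * b' + n * C * b' ^ 2, by ring⟩
      rcases hnn with h5 | h5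
      · rwa [h5] at h4
      · rw [h5] at h4
        exact (dvd_neg.1 h4)
    have h6 : q * q ∣ q := by exact_mod_cast h3
    have h7 := Nat.le_of_dvd hq.pos h6
    nlinarith [hq.two_le]
  have hbz : (b : ZMod q) ≠ 0 := by
    intro h
    exact hb ((ZMod.intCast_zmod_eq_zero_iff_dvd b q).1 h)
  have hnz : (a : ZMod q) ^ 2 + B * a * b + n * C * b ^ 2 = 0 := by
    have h1 : ((norm (⟨a, b⟩ : Ord n B C) : ℤ) : ZMod q) = 0 :=
      (ZMod.intCast_zmod_eq_zero_iff_dvd _ q).2 hqn
    rw [hn] at h1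
    push_cast at h1
    exact h1
  -- the root
  set r : ZMod q := -(a : ZMod q) * (b : ZMod q)⁻¹ with hr
  have hbr : (b : ZMod q) * r = -a := by
    rw [hr]
    field_simp
  have hroot : r * r = (-(n * C) : ℤ) + B * r := by
    have h1 : (b : ZMod q) * b * (r * r - ((-(n * C) : ℤ) + B * r)) = 0 := by
      push_cast
      linear_combination hnz + ((b : ZMod q) * r - a - B * b) * hbr
    have h2 := (mul_eq_zero.1 h1).resolve_left (mul_ne_zero hbz hbz)
    exact sub_eq_zero.1 h2
  let φ : Ord n B C →+* ZMod q :=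
    { toFun := fun y => (y.re : ZMod q) + y.im * r
      map_one' := by simp
      map_zero' := by simp
      map_add' := by
        intro y z
        simp only [re_add, im_add]
        push_cast
        ring
      map_mul' := by
        intro y z
        simp only [re_mul, im_mul]
        push_cast at hroot ⊢
        linear_combination (-(y.im : ZMod q) * z.im) * hroot }
  have hφ : ∀ y : Ord n B C, φ y = (y.re : ZMod q) + y.im * r := fun _ => rfl
  refine ⟨φ, fun y => ⟨fun hy => ?_, fun hy => ?_⟩⟩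
  · obtain ⟨u, v⟩ := y
    rw [hφ] at hy
    simp only at hy
    -- `b u = a v` modulo `q`
    have h1 : (b : ZMod q) * u = a * v := by
      linear_combination (b : ZMod q) * hy - (v : ZMod q) * hbr
    have h2 : (q : ℤ) ∣ v * a - u * b := by
      rw [← ZMod.intCast_zmod_eq_zero_iff_dvd]
      push_cast
      linear_combination -h1
    have h3 : (q : ℤ) ∣ u * a + u * b * B + n * C * v * b := by
      rw [← ZMod.intCast_zmod_eq_zero_iff_dvd]
      have h4 : (b : ZMod q) * (u * a + u * b * B + n * C * v * b) = 0 := by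
        linear_combination ((a : ZMod q) + b * B) * h1 + (v : ZMod q) * hnz
      have h5 := (mul_eq_zero.1 h4).resolve_left hbz
      push_cast
      exact h5
    obtain ⟨k, hk⟩ := h2
    obtain ⟨l, hl⟩ := h3
    -- `y * star x = q (l + k ω)`
    have h4 : (⟨u, v⟩ : Ord n B C) * star (⟨a, b⟩ : Ord n B C) = (q : Ord n B C) * ⟨l, k⟩ := by
      ext
      · simp
        linear_combination hl
      · simp
        linear_combination hk
    have h5 : (⟨u, v⟩ : Ord n B C) * (norm (⟨a, b⟩ : Ord n B C) : ℤ) =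
        (q : Ord n B C) * (⟨a, b⟩ * ⟨l, k⟩) := by
      have h6 := algebraMap_norm_eq_mul_star (⟨a, b⟩ : Ord n B C)
      have h7 : ((norm (⟨a, b⟩ : Ord n B C) : ℤ) : Ord n B C) =
          (⟨a, b⟩ : Ord n B C) * star (⟨a, b⟩ : Ord n B C) := by
        rw [← h6]
        rfl
      rw [h7]
      calc (⟨u, v⟩ : Ord n B C) * (⟨a, b⟩ * star (⟨a, b⟩ : Ord n B C)) =
          ⟨a, b⟩ * ((⟨u, v⟩ : Ord n B C) * star (⟨a, b⟩ : Ord n B C)) := by ring
        _ = _ := by rw [h4]; ring
    have hq0 : (q : ℤ) ≠ 0 := by exact_mod_cast hq.ne_zero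
    have hcancel : ∀ y z : Ord n B C, (q : Ord n B C) * y = (q : Ord n B C) * z → y = z := by
      intro y z h
      have e1 := congrArg QuadraticAlgebra.re h
      have e2 := congrArg QuadraticAlgebra.im h
      simp at e1 e2
      ext
      · exact e1.resolve_right hq.ne_zero
      · exact e2.resolve_right hq.ne_zero
    rcases hnn with h6 | h6
    · rw [h6] at h5
      refine ⟨⟨l, k⟩, hcancel _ _ ?_⟩
      rw [← h5]
      push_cast
      ring
    · rw [h6] at h5
      refine ⟨-⟨l, k⟩, hcancel _ _ ?_⟩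
      have : (q : Ord n B C) * ((⟨a, b⟩ : Ord n B C) * -⟨l, k⟩) =
          -((q : Ord n B C) * (⟨a, b⟩ * ⟨l, k⟩)) := by ring
      rw [this, ← h5]
      push_cast
      ring
  · obtain ⟨z, rfl⟩ := hy
    rw [map_mul]
    have : φ (⟨a, b⟩ : Ord n B C) = 0 := by
      rw [hφ]
      simp only
      linear_combination hbr
    rw [this, zero_mul]

/-- a power of `π` is `± 1` modulo an element of prime norm -/
theorem fermat {x π : Ord n B C} {q : ℕ} (hq : q.Prime) (hx : (norm x).natAbs = q)
    (hπ : ¬ (q : ℤ) ∣ norm π) : x ∣ π ^ (q / 2) - 1 ∨ x ∣ π ^ (q / 2) + 1 := by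
  have := Fact.mk hq
  obtain ⟨φ, hφ⟩ := exists_residue hq hx
  have h1 : φ π ≠ 0 := by
    intro h
    apply hπ
    rw [← ZMod.intCast_zmod_eq_zero_iff_dvd]
    have h2 : φ ((norm π : ℤ) : Ord n B C) = 0 := by
      have h3 : ((norm π : ℤ) : Ord n B C) = π * star π := by
        rw [← algebraMap_norm_eq_mul_star]
        rfl
      rw [h3, map_mul, h, zero_mul]
    rwa [map_intCast] at h2
  rcases ZMod.pow_div_two_eq_neg_one_or_one q h1 with h | h
  · left
    rw [← hφ, map_sub, map_pow, h, map_one, sub_self]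
  · right
    rw [← hφ, map_add, map_pow, h, map_one, neg_add_cancel]

end Pool.Agent.Mukai.RF
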